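import Mathlib

/-! Mod 2 cocycles on the fundamental groupoid, gluing, and counting homomorphisms to Z/2. -/

open Set Topology Filter unitInterval

namespace Pool.Agent.P.MP_06bfdf_gt

variable {X : Type*} [TopologicalSpace X]

/-- A homotopy invariant additive function on paths with values in Z/2. -/
structure Cocycle (X : Type*) [TopologicalSpace X] where
  val : ∀ {x y : X}, Path x y → ZMod 2
  homotopic : ∀ {x y : X} {γ γ' : Path x y}, γ.Homotopic γ' → val γ = val γ'
  trans : ∀ {x y z : X} (γ : Path x y) (γ' : Path y z), val (γ.trans γ') = val γ + val γ'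

lemma z2_add_self (a : ZMod 2) : a + a = 0 := by revert a; decide

namespace Cocycle

variable (c : Cocycle X)

lemma val_refl (x : X) : c.val (Path.refl x) = 0 := by
  have h := c.homotopic (Path.Homotopic.refl_trans (Path.refl x))
  rw [c.trans] at h
  rw [← h]; exact z2_add_self _

lemma val_cast {x y x' y' : X} (γ : Path x y) (hx : x' = x) (hy : y' = y) :
    c.val (γ.cast hx hy) = c.val γ := by
  subst hx; subst hy; rfl

lemma val_symm {x y : X} (γ : Path x y) : c.val γ.symm = c.val γ := by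
  have h := c.homotopic (Path.Homotopic.trans_symm γ)
  rw [c.trans, c.val_refl] at h
  revert h; generalize c.val γ = a; generalize c.val γ.symm = b; revert a b; decide

/-- `c` is the coboundary of `h` on paths inside `U`. -/
def Cob (h : X → ZMod 2) (U : Set X) : Prop :=
  ∀ (x y : X) (γ : Path x y), (∀ t, γ t ∈ U) → c.val γ = h x + h y

/-- `c` is a coboundary on paths inside `U`. -/
def Triv (U : Set X) : Prop := ∃ h, c.Cob h U

variable {c}

lemma Cob.mono {h : X → ZMod 2} {U V : Set X} (hc : c.Cob h V) (hUV : U ⊆ V) : c.Cob h U :=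
  fun x y γ hγ => hc x y γ fun t => hUV (hγ t)

lemma Triv.mono {U V : Set X} (hc : c.Triv V) (hUV : U ⊆ V) : c.Triv U :=
  let ⟨h, hh⟩ := hc; ⟨h, hh.mono hUV⟩

lemma Cob.congr {h k : X → ZMod 2} {U : Set X} (hc : c.Cob h U) (d : ZMod 2)
    (hk : ∀ x ∈ U, k x = h x + d) : c.Cob k U := by
  intro x y γ hγ
  have hx : x ∈ U := by simpa using hγ 0
  have hy : y ∈ U := by simpa using hγ 1
  rw [hc x y γ hγ, hk x hx, hk y hy]
  generalize h x = a; generalize h y = b; clear hk; revert a b d; decide

lemma Cob.of_local {h : X → ZMod 2} {U : Set X}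
    (hl : ∀ x ∈ U, ∃ W ∈ 𝓝 x, c.Cob h W) : c.Cob h U := by
  intro x y γ hγ
  let F : I → ZMod 2 := fun t => c.val (γ.subpath 0 t) + h (γ t)
  have hF : IsLocallyConstant F := by
    rw [IsLocallyConstant.iff_eventually_eq]
    intro t₀
    obtain ⟨W, hW, hcW⟩ := hl (γ t₀) (hγ t₀)
    have h1 : γ ⁻¹' W ∈ 𝓝 t₀ := γ.continuous.continuousAt.preimage_mem_nhds hW
    obtain ⟨ε, hε, hball⟩ := Metric.mem_nhds_iff.1 h1
    filter_upwards [Metric.ball_mem_nhds t₀ hε] with t ht
    have hsub : ∀ s, γ.subpath t₀ t s ∈ W := by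
      intro s
      have : γ.subpath t₀ t s ∈ range (γ.subpath t₀ t) := mem_range_self s
      rw [Path.range_subpath] at this
      obtain ⟨r, hr, hrs⟩ := this
      rw [← hrs]
      apply hball
      rw [Metric.mem_ball] at ht ⊢
      refine lt_of_le_of_lt ?_ ht
      have hr' : (r : ℝ) ∈ uIcc (t₀ : ℝ) (t : ℝ) := by
        rcases le_total t₀ t with hle | hle
        · rw [uIcc_of_le hle] at hr
          rw [uIcc_of_le (show (t₀ : ℝ) ≤ t from hle)]; exact ⟨hr.1, hr.2⟩
        · rw [uIcc_of_ge hle] at hr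
          rw [uIcc_of_ge (show (t : ℝ) ≤ t₀ from hle)]; exact ⟨hr.1, hr.2⟩
      rw [Subtype.dist_eq, Subtype.dist_eq, dist_comm (r : ℝ), dist_comm (t : ℝ)]
      exact Real.dist_left_le_of_mem_uIcc hr'
    have h2 := hcW _ _ _ hsub
    have h3 := c.homotopic (⟨Path.Homotopy.subpathTransSubpath γ 0 t₀ t⟩ :
      Path.Homotopic _ _)
    rw [c.trans, h2] at h3
    simp only [F]
    rw [← h3]
    generalize c.val (γ.subpath 0 t₀) = a; generalize h (γ t₀) = b; generalize h (γ t) = d
    revert a b d; decide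
  have h01 := hF.apply_eq_of_preconnectedSpace 0 1
  simp only [F, Path.subpath_self, Path.subpath_zero_one, val_refl, val_cast, Path.source,
    Path.target, zero_add] at h01
  revert h01
  generalize c.val γ = a; generalize h x = b; generalize h y = d
  revert a b d; decide

lemma Cob.add_const {h k : X → ZMod 2} {U V W : Set X} (hU : c.Cob h U) (hV : c.Cob k V)
    (hW : IsPathConnected W) (hWU : W ⊆ U ∩ V) {a x : X} (ha : a ∈ W) (hx : x ∈ W) :
    h x + k x = h a + k a := by
  have j := hW.joinedIn a ha x hx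
  have h1 := hU _ _ j.somePath fun t => (hWU (j.somePath_mem t)).1
  have h2 := hV _ _ j.somePath fun t => (hWU (j.somePath_mem t)).2
  rw [h1] at h2
  revert h2
  generalize h x = p; generalize k x = q; generalize h a = r; generalize k a = s
  revert p q r s; decide

lemma Triv.glue2 {U V W₁ W₂ : Set X} (hUo : IsOpen U) (hVo : IsOpen V) (hU : c.Triv U)
    (hV : c.Triv V) (h₁ : IsPathConnected W₁) (h₂ : IsPathConnected W₂) (s₁ : W₁ ⊆ U ∩ V)
    (s₂ : W₂ ⊆ U ∩ V) (cov : U ∩ V ⊆ W₁ ∪ W₂) {a b : X} (ha : a ∈ W₁) (hb : b ∈ W₂)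
    (γ δ : Path a b) (hγ : ∀ t, γ t ∈ U) (hδ : ∀ t, δ t ∈ V) (e : c.val γ = c.val δ) :
    c.Triv (U ∪ V) := by
  classical
  obtain ⟨h, hh⟩ := hU
  obtain ⟨k, hk⟩ := hV
  have hab : h b + k b = h a + k a := by
    rw [hh _ _ γ hγ, hk _ _ δ hδ] at e
    revert e
    generalize h b = p; generalize k b = q; generalize h a = r; generalize k a = s
    revert p q r s; decide
  have hall : ∀ x ∈ U ∩ V, h x + k x = h a + k a := by
    intro x hx
    rcases cov hx with hx | hx
    · exact hh.add_const hk h₁ s₁ ha hx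
    · rw [← hab]; exact hh.add_const hk h₂ s₂ hb hx
  let H : X → ZMod 2 := fun x => if x ∈ U then h x else k x + (h a + k a)
  have HU : c.Cob H U := hh.congr 0 fun x hx => by simp [H, hx]
  have HV : c.Cob H V := hk.congr (h a + k a) fun x hx => by
    by_cases hxU : x ∈ U
    · simp only [H, hxU, if_true]
      rw [← hall x ⟨hxU, hx⟩]
      generalize h x = p; generalize k x = q; revert p q; decide
    · simp [H, hxU]
  refine ⟨H, Cob.of_local fun x hx => ?_⟩
  rcases hx with hx | hx
  · exact ⟨U, hUo.mem_nhds hx, HU⟩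
  · exact ⟨V, hVo.mem_nhds hx, HV⟩

lemma Triv.glue1 {U V : Set X} (hUo : IsOpen U) (hVo : IsOpen V) (hU : c.Triv U)
    (hV : c.Triv V) (h₁ : IsPathConnected (U ∩ V)) : c.Triv (U ∪ V) := by
  obtain ⟨a, ha⟩ := h₁.nonempty
  exact hU.glue2 hUo hVo hV h₁ h₁ Subset.rfl Subset.rfl subset_union_left ha ha (Path.refl a)
    (Path.refl a) (fun _ => ha.1) (fun _ => ha.2) rfl

lemma Triv.val_eq {U : Set X} (hU : c.Triv U) {a b : X} (γ δ : Path a b) (hγ : ∀ t, γ t ∈ U)
    (hδ : ∀ t, δ t ∈ U) : c.val γ = c.val δ := by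
  obtain ⟨h, hh⟩ := hU
  rw [hh _ _ γ hγ, hh _ _ δ hδ]

end Cocycle

section chart

variable {E : Type*} [NormedAddCommGroup E] [NormedSpace ℝ E]

/-- The part of a chart domain lying over `W`. -/
def piece (e : OpenPartialHomeomorph X E) (W : Set E) : Set X := e.source ∩ e ⁻¹' W

omit [NormedSpace ℝ E] in
lemma isOpen_piece (e : OpenPartialHomeomorph X E) {W : Set E} (hW : IsOpen W) :
    IsOpen (piece e W) := e.isOpen_inter_preimage hW

omit [NormedSpace ℝ E] in
lemma piece_eq_image (e : OpenPartialHomeomorph X E) {W : Set E} (hW : W ⊆ e.target) :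
    piece e W = e.symm '' W := by
  ext x
  constructor
  · rintro ⟨hx, hxW⟩
    exact ⟨e x, hxW, e.left_inv hx⟩
  · rintro ⟨w, hw, rfl⟩
    exact ⟨e.map_target (hW hw), by simpa [e.right_inv (hW hw)] using hw⟩

omit [NormedSpace ℝ E] in
lemma isPathConnected_piece (e : OpenPartialHomeomorph X E) {W : Set E} (hW : W ⊆ e.target)
    (hc : IsPathConnected W) : IsPathConnected (piece e W) := by
  rw [piece_eq_image e hW]
  exact hc.image' (e.continuousOn_symm.mono hW)

lemma homotopic_of_piece (e : OpenPartialHomeomorph X E) {W : Set E} (hW : W ⊆ e.target)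
    (hc : Convex ℝ W) {x y : X} (γ δ : Path x y) (hγ : ∀ t, γ t ∈ piece e W)
    (hδ : ∀ t, δ t ∈ piece e W) : γ.Homotopic δ := by
  have cγ : Continuous fun t => e (γ t) :=
    e.continuousOn.comp_continuous γ.continuous fun t => (hγ t).1
  have cδ : Continuous fun t => e (δ t) :=
    e.continuousOn.comp_continuous δ.continuous fun t => (hδ t).1
  have mem : ∀ p : I × I, (1 - (p.1 : ℝ)) • e (γ p.2) + (p.1 : ℝ) • e (δ p.2) ∈ W := fun p =>
    hc (hγ p.2).2 (hδ p.2).2 (one_minus_nonneg p.1) (nonneg p.1) (by ring)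
  refine ⟨{ toFun := fun p => e.symm ((1 - (p.1 : ℝ)) • e (γ p.2) + (p.1 : ℝ) • e (δ p.2))
            continuous_toFun := ?_
            map_zero_left := ?_
            map_one_left := ?_
            prop' := ?_ }⟩
  · refine e.continuousOn_symm.comp_continuous ?_ fun p => hW (mem p)
    have h1 : Continuous fun p : I × I => e (γ p.2) := cγ.comp continuous_snd
    have h2 : Continuous fun p : I × I => e (δ p.2) := cδ.comp continuous_snd
    have h3 : Continuous fun p : I × I => (p.1 : ℝ) := continuous_subtype_val.comp continuous_fst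
    exact ((continuous_const.sub h3).smul h1).add (h3.smul h2)
  · intro t; simp [e.left_inv (hγ t).1]
  · intro t; simp [e.left_inv (hδ t).1]
  · intro s t ht
    have hx : x ∈ e.source := by simpa using (hγ 0).1
    have hy : y ∈ e.source := by simpa using (hγ 1).1
    rcases ht with rfl | ht
    · simp [← add_smul, e.left_inv hx]
    · rw [mem_singleton_iff] at ht
      subst ht
      simp [← add_smul, e.left_inv hy]

lemma triv_piece (c : Cocycle X) (e : OpenPartialHomeomorph X E) {W : Set E} (hW : W ⊆ e.target)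
    (hc : Convex ℝ W) : c.Triv (piece e W) := by
  classical
  rcases W.eq_empty_or_nonempty with rfl | hne
  · exact ⟨0, fun x y γ hγ => (hγ 0).2.elim⟩
  have hp := isPathConnected_piece e hW (hc.isPathConnected hne)
  obtain ⟨a, ha⟩ := hp.nonempty
  refine ⟨fun x => if hx : x ∈ piece e W then c.val (hp.joinedIn a ha x hx).somePath else 0, ?_⟩
  intro x y γ hγ
  have hx : x ∈ piece e W := by simpa using hγ 0
  have hy : y ∈ piece e W := by simpa using hγ 1
  simp only [hx, hy, dif_pos]
  have := c.homotopic (homotopic_of_piece e hW hc ((hp.joinedIn a ha x hx).somePath.trans γ)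
    (hp.joinedIn a ha y hy).somePath ?_ (hp.joinedIn a ha y hy).somePath_mem)
  · rw [c.trans] at this
    rw [← this]
    generalize c.val γ = p; generalize c.val (hp.joinedIn a ha x hx).somePath = q
    revert p q; decide
  · intro t
    have : ((hp.joinedIn a ha x hx).somePath.trans γ) t ∈
        range ((hp.joinedIn a ha x hx).somePath.trans γ) := mem_range_self t
    rw [Path.trans_range] at this
    rcases this with ⟨s, hs⟩ | ⟨s, hs⟩
    · rw [← hs]; exact (hp.joinedIn a ha x hx).somePath_mem s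
    · rw [← hs]; exact hγ s

end chart

section cech

open Classical in
/-- The class in Z/2 of the sign of a real number. -/
noncomputable def sg (a : ℝ) : ZMod 2 := if 0 < a then 0 else 1

lemma sg_add {a b d : ℝ} (h : 0 < a * b * d) : sg a + sg b = sg d := by
  unfold sg
  by_cases ha : 0 < a <;> by_cases hb : 0 < b <;> by_cases hd : 0 < d <;>
    simp only [ha, hb, hd, if_true, if_false] <;> try decide
  all_goals exfalso
  all_goals simp only [not_lt] at *
  · nlinarith [mul_pos ha hb]
  · nlinarith [mul_pos ha hd]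
  · nlinarith [mul_pos hb hd]
  · nlinarith [mul_nonneg_of_nonpos_of_nonpos ha hb]

lemma sg_continuousOn {a : X → ℝ} {S : Set X} (ha : ContinuousOn a S) (h0 : ∀ x ∈ S, a x ≠ 0) :
    ContinuousOn (fun x => sg (a x)) S := by
  intro x hx
  have hev : ∀ᶠ y in 𝓝[S] x, sg (a y) = sg (a x) := by
    rcases lt_or_gt_of_ne (h0 x hx) with hlt | hgt
    · filter_upwards [(ha x hx).eventually (gt_mem_nhds hlt)] with y hy
      simp [sg, hlt.not_gt, hy.not_gt]
    · filter_upwards [(ha x hx).eventually (lt_mem_nhds hgt)] with y hy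
      simp [sg, hgt, hy]
  exact (continuousWithinAt_const (b := sg (a x))).congr_of_eventuallyEq hev rfl

lemma z2_bij (sgm : ZMod 2 → ZMod 2) (hsgm : Function.Injective sgm) (v : ZMod 2) :
    sgm v = v + sgm 0 := by
  have h01 : sgm 0 ≠ sgm 1 := fun h => by simpa using hsgm h
  have hv : v = 0 ∨ v = 1 := by revert v; decide
  rcases hv with rfl | rfl
  · simp
  · revert h01; generalize sgm 0 = a; generalize sgm 1 = b; revert a b; decide

theorem exists_cocycle_of_signs {ι : Type*} (U : ι → Set X) (hU : ∀ i, IsOpen (U i))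
    (cov : ∀ x, ∃ i, x ∈ U i) (a : ι → ι → X → ℝ)
    (ha : ∀ i j, ContinuousOn (a i j) (U i ∩ U j))
    (hpos : ∀ i j k, ∀ x ∈ U i ∩ U j ∩ U k, 0 < a i j x * a j k x * a i k x) :
    ∃ (c : Cocycle X) (h : ι → X → ZMod 2), (∀ i, c.Cob (h i) (U i)) ∧
      ∀ i j, ∀ x ∈ U i ∩ U j, h i x + h j x = sg (a i j x) := by
  choose idx hidx using cov
  have hne : ∀ i j, ∀ x ∈ U i ∩ U j, a i j x ≠ 0 := by
    intro i j x hx h0
    have := hpos i j j x ⟨hx, hx.2⟩
    simp [h0] at this
  have hcoc : ∀ i j k, ∀ x ∈ U i ∩ U j ∩ U k, sg (a i j x) + sg (a j k x) = sg (a i k x) :=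
    fun i j k x hx => sg_add (hpos i j k x hx)
  let Z : FiberBundleCore ι X (ZMod 2) :=
    { baseSet := U
      isOpen_baseSet := hU
      indexAt := idx
      mem_baseSet_at := hidx
      coordChange := fun i j x v => v + sg (a i j x)
      coordChange_self := by
        intro i x hx v
        have := hcoc i i i x ⟨⟨hx, hx⟩, hx⟩
        rw [← this, z2_add_self, add_zero]
      continuousOn_coordChange := by
        intro i j
        refine continuous_snd.continuousOn.add ?_
        exact (sg_continuousOn (ha i j) (hne i j)).comp continuous_fst.continuousOn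
          fun p hp => hp.1
      coordChange_comp := by
        intro i j k x hx v
        rw [add_assoc, hcoc i j k x hx] }
  have cov : IsCoveringMap Z.proj := by
    exact FiberBundle.isCoveringMap (F := ZMod 2) (E := Z.Fiber)
  let pt : ∀ x : X, ZMod 2 → Z.proj ⁻¹' {x} := fun x v => ⟨⟨x, v⟩, rfl⟩
  let co : ∀ x : X, Z.proj ⁻¹' {x} → ZMod 2 := fun x e => e.1.2
  have pt_co : ∀ x e, pt x (co x e) = e := by
    rintro x ⟨⟨y, v⟩, rfl⟩; rfl
  have co_inj : ∀ x, Function.Injective (co x) := fun x =>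
    Function.LeftInverse.injective (pt_co x)
  have pt_inj : ∀ x, Function.Injective (pt x) := fun x =>
    Function.LeftInverse.injective (g := co x) fun _ => rfl
  let c : Cocycle X :=
    { val := fun {x y} γ => co y (cov.monodromy (Path.Homotopic.Quotient.mk γ) (pt x 0))
      homotopic := by
        intro x y γ γ' h
        rw [Path.Homotopic.Quotient.eq.2 h]
      trans := by
        intro x y z γ γ'
        rw [Path.Homotopic.Quotient.mk_trans, cov.monodromy_trans_apply]
        have := z2_bij (fun v => co z (cov.monodromy (Path.Homotopic.Quotient.mk γ') (pt y v)))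
          ((co_inj z).comp ((cov.monodromy_bijective _).1.comp (pt_inj y)))
          (co y (cov.monodromy (Path.Homotopic.Quotient.mk γ) (pt x 0)))
        simp only [pt_co] at this
        exact this }
  refine ⟨c, fun i x => sg (a (idx x) i x), ?_, ?_⟩
  · intro i x y γ hγ
    have hx : x ∈ U i := by simpa using hγ 0
    have hy : y ∈ U i := by simpa using hγ 1
    let k : ZMod 2 := sg (a (idx x) i x)
    have hc : Continuous fun t => (Z.localTriv i).toOpenPartialHomeomorph.symm (γ t, k) := by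
      refine (Z.localTriv i).toOpenPartialHomeomorph.continuousOn_symm.comp_continuous
        (by fun_prop) fun t => ?_
      exact (Z.mem_localTriv_target i _).2 (hγ t)
    let Γ : Path (pt x 0).1 (pt y (k + sg (a (idx y) i y))).1 :=
      { toFun := fun t => (Z.localTriv i).toOpenPartialHomeomorph.symm (γ t, k)
        continuous_toFun := hc
        source' := by
          have h1 := hcoc (idx x) i (idx x) x ⟨⟨hidx x, hx⟩, hidx x⟩
          have h2 := hcoc (idx x) (idx x) (idx x) x ⟨⟨hidx x, hidx x⟩, hidx x⟩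
          rw [z2_add_self] at h2
          rw [← h2] at h1
          rw [Path.source]
          exact congrArg (fun v => (pt x v).1) h1
        target' := by
          have h1 := hcoc (idx y) i (idx y) y ⟨⟨hidx y, hy⟩, hidx y⟩
          have h2 := hcoc (idx y) (idx y) (idx y) y ⟨⟨hidx y, hidx y⟩, hidx y⟩
          rw [z2_add_self] at h2
          rw [← h2] at h1
          have h3 : sg (a i (idx y) y) = sg (a (idx y) i y) := by
            revert h1
            generalize sg (a (idx y) i y) = p; generalize sg (a i (idx y) y) = q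
            revert p q; decide
          rw [Path.target, ← h3]
          rfl }
    have hm : cov.monodromy (Path.Homotopic.Quotient.mk γ) (pt x 0) =
        pt y (k + sg (a (idx y) i y)) := by
      refine cov.monodromy_eq_of_map_eq (Path.Homotopic.Quotient.mk Γ) ?_
      rfl
    show co y (cov.monodromy (Path.Homotopic.Quotient.mk γ) (pt x 0)) = _
    rw [hm]
  · intro i j x hx
    have h1 := hcoc (idx x) i j x ⟨⟨hidx x, hx.1⟩, hx.2⟩
    beta_reduce
    rw [← h1]
    generalize sg (a (idx x) i x) = p; generalize sg (a i j x) = q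
    revert p q; decide

/-- Two paths between the same points, inside two members of a sign cover, get different values
when the transition sign changes between the end points. -/
lemma val_ne_of_signs {c : Cocycle X} {h k : X → ZMod 2} {U V : Set X} (hU : c.Cob h U)
    (hV : c.Cob k V) {a b : X} {s t : ℝ} (ha : h a + k a = sg s) (hb : h b + k b = sg t)
    (hs : 0 < s) (ht : t < 0) (γ δ : Path a b) (hγ : ∀ t, γ t ∈ U) (hδ : ∀ t, δ t ∈ V) :
    c.val γ ≠ c.val δ := by
  rw [hU _ _ γ hγ, hV _ _ δ hδ]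
  simp only [sg, hs, ht.not_gt, if_true, if_false] at ha hb
  revert ha hb
  generalize h a = p; generalize k a = q; generalize h b = r; generalize k b = s
  revert p q r s; decide

end cech

section count

variable [PathConnectedSpace X] (x₀ : X)

omit [PathConnectedSpace X] in
/-- The homomorphism on the fundamental group given by a cocycle. -/
noncomputable def Cocycle.hom (c : Cocycle X) : FundamentalGroup X x₀ →* Multiplicative (ZMod 2) :=
  MonoidHom.mk' (fun g => Multiplicative.ofAdd (Quotient.lift (s := Path.Homotopic.setoid x₀ x₀)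
    (fun γ => c.val γ) (fun _ _ h => c.homotopic h) g)) (by
      rintro ⟨γ⟩ ⟨δ⟩
      rw [← ofAdd_add]
      congr 1
      rw [add_comm]
      exact c.trans δ γ)

omit [PathConnectedSpace X] in
lemma Cocycle.hom_mk (c : Cocycle X) (γ : Path x₀ x₀) :
    c.hom x₀ (Path.Homotopic.Quotient.mk γ) = Multiplicative.ofAdd (c.val γ) := rfl

/-- The loop at the base point attached to a path. -/
noncomputable def loopOf {x y : X} (γ : Path x y) : Path x₀ x₀ :=
  (PathConnectedSpace.somePath x₀ x).trans (γ.trans (PathConnectedSpace.somePath x₀ y).symm)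

/-- The cocycle given by a homomorphism. -/
noncomputable def cocycleOf (φ : FundamentalGroup X x₀ →* Multiplicative (ZMod 2)) : Cocycle X where
  val γ := Multiplicative.toAdd (φ (Path.Homotopic.Quotient.mk (loopOf x₀ γ)))
  homotopic := by
    intro x y γ γ' h
    simp only [loopOf, Path.Homotopic.Quotient.mk_trans, Path.Homotopic.Quotient.eq.2 h]
  trans := by
    intro x y z γ γ'
    rw [← toAdd_mul, mul_comm, ← map_mul, FundamentalGroup.mul_def]
    congr 2
    simp only [loopOf, Path.Homotopic.Quotient.mk_trans, Path.Homotopic.Quotient.mk_symm,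
      Path.Homotopic.Quotient.trans_assoc]
    rw [← Path.Homotopic.Quotient.trans_assoc (Path.Homotopic.Quotient.symm _),
      Path.Homotopic.Quotient.symm_trans, Path.Homotopic.Quotient.refl_trans]

lemma hom_cocycleOf (φ : FundamentalGroup X x₀ →* Multiplicative (ZMod 2)) :
    (cocycleOf x₀ φ).hom x₀ = φ := by
  ext ⟨γ⟩
  change Multiplicative.toAdd (φ (Path.Homotopic.Quotient.mk (loopOf x₀ γ))) =
    Multiplicative.toAdd (φ (Path.Homotopic.Quotient.mk γ))
  congr 1
  let α : FundamentalGroup X x₀ := Path.Homotopic.Quotient.mk (PathConnectedSpace.somePath x₀ x₀)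
  let g : FundamentalGroup X x₀ := Path.Homotopic.Quotient.mk γ
  have : (Path.Homotopic.Quotient.mk (loopOf x₀ γ) : FundamentalGroup X x₀) = α⁻¹ * g * α := by
    simp only [loopOf, Path.Homotopic.Quotient.mk_trans, Path.Homotopic.Quotient.mk_symm]
    rfl
  rw [this, map_mul, map_mul, map_inv, mul_comm, ← mul_assoc, mul_inv_cancel, one_mul]

lemma hom_loop (c : Cocycle X) {a b : X} (γ δ : Path a b) :
    c.hom x₀ (Path.Homotopic.Quotient.mk (loopOf x₀ (γ.trans δ.symm))) =
      Multiplicative.ofAdd (c.val γ + c.val δ) := by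
  rw [Cocycle.hom_mk]
  congr 1
  simp only [loopOf, c.trans, c.val_symm]
  generalize c.val γ = p; generalize c.val δ = q
  generalize c.val (PathConnectedSpace.somePath x₀ a) = r
  revert p q r; decide

theorem card_hom_eq_eight {a₁ b₁ a₂ b₂ a₃ b₃ : X} (γ₁ δ₁ : Path a₁ b₁) (γ₂ δ₂ : Path a₂ b₂)
    (γ₃ δ₃ : Path a₃ b₃)
    (hinj : ∀ c : Cocycle X, c.val γ₁ = c.val δ₁ → c.val γ₂ = c.val δ₂ → c.val γ₃ = c.val δ₃ →
      c.Triv univ)
    (h₁ : ∃ c : Cocycle X, c.val γ₁ ≠ c.val δ₁)
    (h₂ : ∃ c : Cocycle X, c.val γ₁ = c.val δ₁ ∧ c.val γ₂ ≠ c.val δ₂)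
    (h₃ : ∃ c : Cocycle X, c.val γ₁ = c.val δ₁ ∧ c.val γ₂ = c.val δ₂ ∧ c.val γ₃ ≠ c.val δ₃) :
    Nat.card (FundamentalGroup X x₀ →* Multiplicative (ZMod 2)) = 2 ^ 3 := by
  let g₁ : FundamentalGroup X x₀ := Path.Homotopic.Quotient.mk (loopOf x₀ (γ₁.trans δ₁.symm))
  let g₂ : FundamentalGroup X x₀ := Path.Homotopic.Quotient.mk (loopOf x₀ (γ₂.trans δ₂.symm))
  let g₃ : FundamentalGroup X x₀ := Path.Homotopic.Quotient.mk (loopOf x₀ (γ₃.trans δ₃.symm))
  let ev : (FundamentalGroup X x₀ →* Multiplicative (ZMod 2)) →*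
      Multiplicative (ZMod 2) × Multiplicative (ZMod 2) × Multiplicative (ZMod 2) :=
    MonoidHom.mk' (fun φ => (φ g₁, φ g₂, φ g₃)) fun _ _ => rfl
  have evc : ∀ c : Cocycle X, ev (c.hom x₀) = (Multiplicative.ofAdd (c.val γ₁ + c.val δ₁),
      Multiplicative.ofAdd (c.val γ₂ + c.val δ₂), Multiplicative.ofAdd (c.val γ₃ + c.val δ₃)) := by
    intro c
    simp only [ev, MonoidHom.mk'_apply, g₁, g₂, g₃, hom_loop]
  have z0 : ∀ p q : ZMod 2, p + q = 0 ↔ p = q := by decide
  have z1 : ∀ p q : ZMod 2, p ≠ q → p + q = 1 := by decide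
  have inj : Function.Injective ev := by
    rw [injective_iff_map_eq_one]
    intro φ hφ
    rw [← hom_cocycleOf x₀ φ] at hφ ⊢
    rw [evc] at hφ
    simp only [Prod.mk_eq_one, ofAdd_eq_one, z0] at hφ
    obtain ⟨h, hh⟩ := hinj _ hφ.1 hφ.2.1 hφ.2.2
    ext ⟨γ⟩
    change (cocycleOf x₀ φ).val γ = 0
    rw [hh _ _ γ fun _ => mem_univ _, z2_add_self]
  have surj : Function.Surjective ev := by
    obtain ⟨c₁, h₁⟩ := h₁
    obtain ⟨c₂, h₂, h₂'⟩ := h₂
    obtain ⟨c₃, h₃, h₃', h₃''⟩ := h₃
    have e₁ := evc c₁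
    have e₂ := evc c₂
    have e₃ := evc c₃
    rw [z1 _ _ h₁] at e₁
    rw [(z0 _ _).2 h₂, z1 _ _ h₂'] at e₂
    rw [(z0 _ _).2 h₃, (z0 _ _).2 h₃', z1 _ _ h₃''] at e₃
    generalize c₁.val γ₂ + c₁.val δ₂ = p at e₁
    generalize c₁.val γ₃ + c₁.val δ₃ = q at e₁
    generalize c₂.val γ₃ + c₂.val δ₃ = r at e₂
    have key : ∀ (p q r : ZMod 2)
        (y : Multiplicative (ZMod 2) × Multiplicative (ZMod 2) × Multiplicative (ZMod 2)),
        ∃ i j k : Fin 2, y =
          (Multiplicative.ofAdd 1, Multiplicative.ofAdd p, Multiplicative.ofAdd q) ^ (i : ℕ) *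
          (Multiplicative.ofAdd 0, Multiplicative.ofAdd 1, Multiplicative.ofAdd r) ^ (j : ℕ) *
          (Multiplicative.ofAdd 0, Multiplicative.ofAdd 0, Multiplicative.ofAdd 1) ^ (k : ℕ) := by
      decide
    intro y
    obtain ⟨i, j, k, hy⟩ := key p q r y
    refine ⟨c₁.hom x₀ ^ (i : ℕ) * c₂.hom x₀ ^ (j : ℕ) * c₃.hom x₀ ^ (k : ℕ), ?_⟩
    rw [map_mul, map_mul, map_pow, map_pow, map_pow, e₁, e₂, e₃, hy]
  rw [Nat.card_eq_of_bijective ev ⟨inj, surj⟩]
  simp

end count

end Pool.Agent.P.MP_06bfdf_gt
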