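import Pool.Agent.P.MP_06bfdf_gt.Surf
import Pool.Agent.P.MP_06bfdf_gt.Topo

/-! The surface has exactly eight homomorphisms from its fundamental group to Z/2. -/

open Set Topology Filter

namespace Pool.Agent.P.MP_06bfdf_gt

theorem exists_cocycle_two {X : Type*} [TopologicalSpace X] {U V : Set X} (hU : IsOpen U)
    (hV : IsOpen V) (cov : ∀ x, x ∈ U ∨ x ∈ V) {f : X → ℝ} (hf : Continuous f)
    (h0 : ∀ x ∈ U ∩ V, f x ≠ 0) :
    ∃ (c : Cocycle X) (h k : X → ZMod 2), c.Cob h U ∧ c.Cob k V ∧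
      ∀ x ∈ U ∩ V, h x + k x = sg (f x) := by
  obtain ⟨c, h, h1, h2⟩ := exists_cocycle_of_signs (ι := Bool) (fun i => if i then U else V)
    (fun i => by cases i <;> simpa) (fun x => (cov x).elim (fun h => ⟨true, h⟩) fun h => ⟨false, h⟩)
    (fun i j x => if i = j then 1 else f x)
    (fun i j => by by_cases h : i = j <;> simp only [h, if_true, if_false] <;> fun_prop)
    (by
      rintro i j k x ⟨⟨hi, hj⟩, hk⟩
      cases i <;> cases j <;> cases k <;> simp at hi hj hk ⊢ <;>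
        exact h0 x ⟨by assumption, by assumption⟩)
  exact ⟨c, h true, h false, h1 true, h1 false, fun x hx => by simpa using h2 true false x hx⟩

/-- An open half plane. -/
def Hp (a b c : ℝ) : Set R2 := {w | a * w.1 + b * w.2 < c}

lemma Hp_open (a b c : ℝ) : IsOpen (Hp a b c) := isOpen_lt (by fun_prop) (by fun_prop)

lemma Hp_convex (a b c : ℝ) : Convex ℝ (Hp a b c) := by
  intro x hx y hy p q hp hq hpq
  simp only [Hp, mem_ofPred_eq, Prod.fst_add, Prod.snd_add, Prod.smul_fst, Prod.smul_snd,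
    smul_eq_mul] at hx hy ⊢
  have := Convex.combo_le_max (a * x.1 + b * x.2) (a * y.1 + b * y.2) hp hq hpq
  simp only [smul_eq_mul] at this
  linarith [max_lt hx hy]

lemma quad_convex (a b c r : ℝ) (ha : 0 ≤ a) (hb : 0 ≤ b) :
    Convex ℝ {w : R2 | a * (w.1 - c) ^ 2 + b * w.2 ^ 2 < r} := by
  intro x hx y hy p q hp hq hpq
  simp only [mem_ofPred_eq, Prod.fst_add, Prod.snd_add, Prod.smul_fst, Prod.smul_snd,
    smul_eq_mul] at hx hy ⊢
  have := Convex.combo_le_max (a * (x.1 - c) ^ 2 + b * x.2 ^ 2) (a * (y.1 - c) ^ 2 + b * y.2 ^ 2)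
    hp hq hpq
  simp only [smul_eq_mul] at this
  have h1 := sq_convex.2 (mem_univ (x.1 - c)) (mem_univ (y.1 - c)) hp hq hpq
  have h2 := sq_convex.2 (mem_univ x.2) (mem_univ y.2) hp hq hpq
  simp only [smul_eq_mul] at h1 h2
  rw [show p * x.1 + q * y.1 - c = p * (x.1 - c) + q * (y.1 - c) by linear_combination c * hpq]
  nlinarith [max_lt hx hy, mul_le_mul_of_nonneg_left h1 ha, mul_le_mul_of_nonneg_left h2 hb]

/-- The open ellipse centred at `(c, 0)`. -/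
def El (c : ℝ) : Set R2 := {w | 3 * (w.1 - c) ^ 2 + 4 * w.2 ^ 2 < 300}

lemma El_convex (c : ℝ) : Convex ℝ (El c) := quad_convex _ _ _ _ (by norm_num) (by norm_num)

def Up : Set R2 := Hp 0 (-1) (-4)
def Down : Set R2 := Hp 0 1 (-4)
def Left : Set R2 := Hp 1 0 (-20)
def Right : Set R2 := Hp (-1) 0 (-20)
def Mid : Set R2 := Hp 1 0 12 ∩ Hp (-1) 0 12

lemma Up_sub : Up ⊆ G := fun w hw => by
  simp only [Up, Hp, mem_ofPred_eq] at hw
  constructor <;> nlinarith [sq_nonneg (w.1 - 16), sq_nonneg (w.1 + 16)]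
lemma Down_sub : Down ⊆ G := fun w hw => by
  simp only [Down, Hp, mem_ofPred_eq] at hw
  constructor <;> nlinarith [sq_nonneg (w.1 - 16), sq_nonneg (w.1 + 16)]
lemma Left_sub : Left ⊆ G := fun w hw => by
  simp only [Left, Hp, mem_ofPred_eq] at hw
  constructor <;> nlinarith [sq_nonneg w.2]
lemma Right_sub : Right ⊆ G := fun w hw => by
  simp only [Right, Hp, mem_ofPred_eq] at hw
  constructor <;> nlinarith [sq_nonneg w.2]
lemma Mid_sub : Mid ⊆ G := fun w hw => by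
  simp only [Mid, Hp, mem_inter_iff, mem_ofPred_eq] at hw
  constructor <;> nlinarith [sq_nonneg w.2, hw.1, hw.2]

lemma plane_cover (w : R2) :
    w ∈ El 20 ∪ El (-20) ∨ w ∈ Up ∪ Left ∪ Right ∪ Mid ∪ Down := by
  simp only [El, Up, Down, Left, Right, Mid, Hp, mem_union, mem_inter_iff, mem_ofPred_eq]
  by_contra h
  simp only [not_or, not_lt, not_and_or] at h
  obtain ⟨⟨h1, h2⟩, ⟨⟨⟨h3, h4⟩, h5⟩, h6⟩, h7⟩ := h
  rcases h6 with h6 | h6 <;> nlinarith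

lemma pc_add {S A : Set R2} (hS : IsPathConnected S) (hA : Convex ℝ A) {w : R2} (h1 : w ∈ S)
    (h2 : w ∈ A) : IsPathConnected (S ∪ A) :=
  hS.union (hA.isPathConnected ⟨w, h2⟩) ⟨w, h1, h2⟩

lemma Up_convex : Convex ℝ Up := Hp_convex _ _ _
lemma Down_convex : Convex ℝ Down := Hp_convex _ _ _
lemma Left_convex : Convex ℝ Left := Hp_convex _ _ _
lemma Right_convex : Convex ℝ Right := Hp_convex _ _ _
lemma Mid_convex : Convex ℝ Mid := (Hp_convex _ _ _).inter (Hp_convex _ _ _)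

lemma pc_left : IsPathConnected (Left ∩ (El 20 ∪ El (-20) ∪ Up)) := by
  have := pc_add ((Left_convex.inter (El_convex (-20))).isPathConnected
    ⟨(-21, 5), by norm_num [Left, El, Hp]⟩) (Left_convex.inter Up_convex) (w := (-21, 5))
    (by norm_num [Left, El, Hp]) (by norm_num [Left, Up, Hp])
  convert this using 1
  ext w
  have : w ∈ Left → w ∉ El 20 := by
    simp only [Left, El, Hp, mem_ofPred_eq]; intro h1 h2; nlinarith [sq_nonneg w.2]
  simp only [mem_union, mem_inter_iff]; tauto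

lemma pc_right : IsPathConnected (Right ∩ (El 20 ∪ El (-20) ∪ (Up ∪ Left))) := by
  have := pc_add ((Right_convex.inter (El_convex 20)).isPathConnected
    ⟨(21, 5), by norm_num [Right, El, Hp]⟩) (Right_convex.inter Up_convex) (w := (21, 5))
    (by norm_num [Right, El, Hp]) (by norm_num [Right, Up, Hp])
  convert this using 1
  ext w
  have h1 : w ∈ Right → w ∉ El (-20) := by
    simp only [Right, El, Hp, mem_ofPred_eq]; intro h1 h2; nlinarith [sq_nonneg w.2]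
  have h2 : w ∈ Right → w ∉ Left := by
    simp only [Right, Left, Hp, mem_ofPred_eq]; intro h1 h2; linarith
  simp only [mem_union, mem_inter_iff]; tauto

lemma pc_mid : IsPathConnected (Mid ∩ (El 20 ∪ El (-20) ∪ (Up ∪ Left ∪ Right))) := by
  have := pc_add (pc_add ((Mid_convex.inter Up_convex).isPathConnected
    ⟨(0, 5), by norm_num [Mid, Up, Hp]⟩) (Mid_convex.inter (El_convex 20)) (w := (11.9, 4.1))
    (by norm_num [Mid, Up, Hp]) (by norm_num [Mid, El, Hp])) (Mid_convex.inter (El_convex (-20)))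
    (w := (-11.9, 4.1)) (by norm_num [Mid, Up, Hp]) (by norm_num [Mid, El, Hp])
  convert this using 1
  ext w
  have h1 : w ∈ Mid → w ∉ Right := by
    simp only [Right, Mid, Hp, mem_ofPred_eq, mem_inter_iff]; intro h1 h2; linarith [h1.1]
  have h2 : w ∈ Mid → w ∉ Left := by
    simp only [Mid, Left, Hp, mem_ofPred_eq, mem_inter_iff]; intro h1 h2; linarith [h1.2]
  simp only [mem_union, mem_inter_iff]; tauto

lemma pc_down : IsPathConnected (Down ∩ (El 20 ∪ El (-20) ∪ (Up ∪ Left ∪ Right ∪ Mid))) := by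
  have := pc_add (pc_add (pc_add (pc_add ((Down_convex.inter Mid_convex).isPathConnected
    ⟨(0, -5), by norm_num [Mid, Down, Hp]⟩) (Down_convex.inter (El_convex 20)) (w := (11.9, -4.1))
    (by norm_num [Mid, Down, Hp]) (by norm_num [Down, El, Hp]))
    (Down_convex.inter (El_convex (-20)))
    (w := (-11.9, -4.1)) (by norm_num [Mid, Down, Hp]) (by norm_num [Down, El, Hp]))
    (Down_convex.inter Left_convex) (w := (-21, -5)) (by norm_num [Down, El, Hp])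
    (by norm_num [Down, Left, Hp]))
    (Down_convex.inter Right_convex) (w := (21, -5)) (by norm_num [Down, El, Hp])
    (by norm_num [Down, Right, Hp])
  convert this using 1
  ext w
  have h1 : w ∈ Down → w ∉ Up := by
    simp only [Down, Up, Hp, mem_ofPred_eq]; intro h1 h2; linarith
  simp only [mem_union, mem_inter_iff]; tauto

lemma Inner.gr_mem_OT_iff (I : Inner) (w : R2) : I.gr w ∈ OT ↔ w ∈ El 20 ∪ El (-20) := by
  constructor
  · intro h
    obtain ⟨a1, a2, a4, a5, a3⟩ := OT_bounds h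
    obtain ⟨b0, b1, b2⟩ := h
    simp only [Inner.gr] at a1 a2 a4 a5 b0 b1 b2
    rcases I.u_flat b1.le b2.le (by linarith) (by linarith) (by linarith) with ⟨-, h⟩ | ⟨-, h⟩
    · left; rw [h] at b0; simp only [El, mem_ofPred_eq]; nlinarith
    · right; rw [h] at b0; simp only [El, mem_ofPred_eq]; nlinarith
  · rintro (h | h) <;> simp only [El, mem_ofPred_eq] at h
    · have a1 : 10 < w.1 := by nlinarith [sq_nonneg w.2]
      have a2 : w.1 < 30 := by nlinarith [sq_nonneg w.2]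
      have hu : I.u w = w.1 := I.u_pos (by linarith) (by linarith)
        (by nlinarith [sq_nonneg (w.1 - 20)]) (by nlinarith [sq_nonneg (w.1 - 20)])
      refine ⟨?_, by simp only [Inner.gr]; linarith, by simp only [Inner.gr]; linarith⟩
      simp only [Inner.gr, hu]; nlinarith
    · have a1 : w.1 < -10 := by nlinarith [sq_nonneg w.2]
      have a2 : -30 < w.1 := by nlinarith [sq_nonneg w.2]
      have hu : I.u w = -w.1 := I.u_neg (by linarith) (by linarith)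
        (by nlinarith [sq_nonneg (w.1 + 20)]) (by nlinarith [sq_nonneg (w.1 + 20)])
      refine ⟨?_, by simp only [Inner.gr]; linarith, by simp only [Inner.gr]; linarith⟩
      simp only [Inner.gr, hu]; nlinarith

section generic

variable {E : Type} [NormedAddCommGroup E] [NormedSpace ℝ E] {S : Set E} (C : Chart S) (x₀ : S)

/-- The part of the chart over `W`. -/
def Chart.pc (W : Set R2) : Set S := piece (C.e x₀) W

lemma Chart.mem_pc {W : Set R2} {x : S} : x ∈ C.pc x₀ W ↔ x.1 ∈ C.O ∧ C.ρ x.1 ∈ W := Iff.rfl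

lemma Chart.pc_param {W : Set R2} {x : S} (h : x ∈ C.pc x₀ W) :
    ∃ w ∈ C.W, w ∈ W ∧ x.1 = C.ψ w :=
  ⟨_, (C.inv x x.2 h.1).1, h.2, (C.inv x x.2 h.1).2.symm⟩

lemma Chart.mem_pc_of {W : Set R2} {x : S} {w : R2} (hw : w ∈ C.W) (h : w ∈ W) (e : x.1 = C.ψ w) :
    x ∈ C.pc x₀ W := by
  rw [C.mem_pc, e, (C.mem w hw).2.2]; exact ⟨(C.mem w hw).2.1, h⟩

lemma Chart.pc_open {W : Set R2} (h : IsOpen W) : IsOpen (C.pc x₀ W) := isOpen_piece _ h

lemma Chart.pc_pc {W : Set R2} (hW : W ⊆ C.W) (h : IsPathConnected W) :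
    IsPathConnected (C.pc x₀ W) := isPathConnected_piece _ hW h

lemma Chart.pc_triv (c : Cocycle S) {W : Set R2} (hW : W ⊆ C.W) (h : Convex ℝ W) :
    c.Triv (C.pc x₀ W) := triv_piece c _ hW h

/-- The point of the surface with chart coordinate `w`. -/
def Chart.pt (w : R2) (hw : w ∈ C.W) : S := ⟨C.ψ w, (C.mem w hw).1⟩

end generic

namespace Par

variable (P : Par) (x₀ : P.M)

/-- Parts of the graph. -/
def gp (W : Set R2) : Set P.M := (P.up P.cG).pc x₀ W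
/-- The tube without the bottom line. -/
def T4 : Set P.M := (P.up (P.cT 1 Inner.one_sq)).pc x₀ univ
/-- The tube without the top line. -/
def T5 : Set P.M := (P.up (P.cT (-1) Inner.neg_one_sq')).pc x₀ univ
/-- The tube. -/
def T : Set P.M := P.T4 x₀ ∪ P.T5 x₀
/-- The finite part. -/
def Fn : Set P.M := {x | 0 < x.1.2.1}
/-- First neighbourhood at infinity. -/
def N1 : Set P.M := P.cN1.pc x₀ P.cN1.W
/-- Second neighbourhood at infinity. -/
def N2 : Set P.M := P.cN2.pc x₀ P.cN2.W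

lemma mem_T4 {x : P.M} : x ∈ P.T4 x₀ ↔
    0 < x.1.2.1 ∧ th x.1 ∈ OT ∧ 0 < nn (th x.1) + ((th x.1).2.2 - 15) := by
  simp [T4, Chart.mem_pc, up, Inner.cT]

lemma mem_T5 {x : P.M} : x ∈ P.T5 x₀ ↔
    0 < x.1.2.1 ∧ th x.1 ∈ OT ∧ 0 < nn (th x.1) - ((th x.1).2.2 - 15) := by
  simp only [T5, Chart.mem_pc, up, Inner.cT, mem_inter_iff, mem_ofPred_eq, mem_preimage, mem_univ,
    and_true, neg_mul, one_mul, ← sub_eq_add_neg]

lemma mem_T {x : P.M} : x ∈ P.T x₀ ↔ 0 < x.1.2.1 ∧ th x.1 ∈ OT := by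
  rw [T, mem_union, mem_T4, mem_T5]
  constructor
  · rintro (h | h) <;> exact ⟨h.1, h.2.1⟩
  · rintro ⟨h1, h2⟩
    have := (Tube_param (P.tube_of_mem (P.M_fin x.2 h1).1 h2)).1
    by_cases h : 0 ≤ (th x.1).2.2 - 15
    · exact Or.inl ⟨h1, h2, by linarith⟩
    · exact Or.inr ⟨h1, h2, by linarith⟩

lemma T_tube {x : P.M} (h : x ∈ P.T x₀) : th x.1 ∈ Tube :=
  P.tube_of_mem (P.M_fin x.2 ((P.mem_T x₀).1 h).1).1 ((P.mem_T x₀).1 h).2

lemma mem_gp {W : Set R2} {x : P.M} : x ∈ P.gp x₀ W ↔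
    (0 < x.1.2.1 ∧ th x.1 ∉ KT) ∧ ((th x.1).1, (th x.1).2.1) ∈ W := Iff.rfl

lemma gp_union (W W' : Set R2) : P.gp x₀ (W ∪ W') = P.gp x₀ W ∪ P.gp x₀ W' := by
  ext x; simp only [mem_union, mem_gp]; tauto

lemma gp_T {W : Set R2} {x : P.M} (hx : x ∈ P.gp x₀ W) :
    x ∈ P.T x₀ ↔ ((th x.1).1, (th x.1).2.1) ∈ El 20 ∪ El (-20) := by
  rw [mem_T, ← P.gr_mem_OT_iff, (P.graph_of_mem (P.M_fin x.2 hx.1.1).1 hx.1.2).2]
  exact and_iff_right hx.1.1

lemma inter_gp (W W' : Set R2) : (P.T x₀ ∪ P.gp x₀ W) ∩ P.gp x₀ W' =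
    P.gp x₀ (W' ∩ (El 20 ∪ El (-20) ∪ W)) := by
  ext x
  constructor
  · rintro ⟨h | h, h'⟩
    · exact ⟨h'.1, h'.2, Or.inl ((P.gp_T x₀ h').1 h)⟩
    · exact ⟨h'.1, h'.2, Or.inr h.2⟩
  · rintro ⟨h1, h2, h3 | h3⟩
    · exact ⟨Or.inl ((P.gp_T x₀ ⟨h1, h2⟩).2 h3), h1, h2⟩
    · exact ⟨Or.inr ⟨h1, h3⟩, h1, h2⟩

lemma T4_open : IsOpen (P.T4 x₀) := Chart.pc_open _ _ isOpen_univ
lemma T5_open : IsOpen (P.T5 x₀) := Chart.pc_open _ _ isOpen_univ
lemma T_open : IsOpen (P.T x₀) := (P.T4_open x₀).union (P.T5_open x₀)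
lemma gp_open {W : Set R2} (h : IsOpen W) : IsOpen (P.gp x₀ W) := Chart.pc_open _ _ h
lemma Fn_open : IsOpen P.Fn := isOpen_lt (by fun_prop) (by fun_prop)
lemma N1_open : IsOpen (P.N1 x₀) := Chart.pc_open _ _ P.cN1.oW
lemma N2_open : IsOpen (P.N2 x₀) := Chart.pc_open _ _ P.cN2.oW

lemma step_triv {c : Cocycle P.M} {W W' : Set R2} (oW : IsOpen W) (oW' : IsOpen W')
    (sW' : W' ⊆ G) (cW' : Convex ℝ W') (h : IsPathConnected (W' ∩ (El 20 ∪ El (-20) ∪ W)))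
    (hc : c.Triv (P.T x₀ ∪ P.gp x₀ W)) : c.Triv (P.T x₀ ∪ P.gp x₀ (W ∪ W')) := by
  rw [gp_union, ← union_assoc]
  refine hc.glue1 ((P.T_open x₀).union (P.gp_open x₀ oW)) (P.gp_open x₀ oW')
    (Chart.pc_triv _ _ c sW' cW') ?_
  rw [inter_gp]
  exact Chart.pc_pc _ _ (inter_subset_left.trans sW') h

lemma step_pc {W W' : Set R2} (sW' : W' ⊆ G) (cW' : Convex ℝ W')
    (h : IsPathConnected (W' ∩ (El 20 ∪ El (-20) ∪ W)))
    (hc : IsPathConnected (P.T x₀ ∪ P.gp x₀ W)) :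
    IsPathConnected (P.T x₀ ∪ P.gp x₀ (W ∪ W')) := by
  rw [gp_union, ← union_assoc]
  refine hc.union (Chart.pc_pc _ _ sW' (cW'.isPathConnected (h.nonempty.mono inter_subset_left))) ?_
  rw [inter_gp]
  exact (Chart.pc_pc _ _ (inter_subset_left.trans sW') h).nonempty

lemma Fn_eq : P.T x₀ ∪ P.gp x₀ (Up ∪ Left ∪ Right ∪ Mid ∪ Down) = P.Fn := by
  ext x
  constructor
  · rintro (h | h)
    · exact ((P.mem_T x₀).1 h).1
    · exact h.1.1
  · intro h
    by_cases hK : th x.1 ∈ KT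
    · left
      refine (P.mem_T x₀).2 ⟨h, ?_⟩
      rcases (P.M_fin x.2 h).1 with ⟨w, hw, e⟩ | hT
      · exact (P.gr_not_mem_KT hw (e ▸ hK)).elim
      · exact hT.1
    · rcases plane_cover ((th x.1).1, (th x.1).2.1) with h1 | h1
      · exact Or.inl ((P.gp_T x₀ (W := univ) ⟨⟨h, hK⟩, mem_univ _⟩).2 h1)
      · exact Or.inr ⟨⟨h, hK⟩, h1⟩

lemma Fn_triv {c : Cocycle P.M} (hc : c.Triv (P.T x₀ ∪ P.gp x₀ Up)) : c.Triv P.Fn := by
  have oU : IsOpen Up := Hp_open _ _ _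
  have oL : IsOpen Left := Hp_open _ _ _
  have oR : IsOpen Right := Hp_open _ _ _
  have oM : IsOpen Mid := (Hp_open _ _ _).inter (Hp_open _ _ _)
  have oD : IsOpen Down := Hp_open _ _ _
  rw [← P.Fn_eq x₀]
  exact P.step_triv x₀ (((oU.union oL).union oR).union oM) oD Down_sub Down_convex pc_down
    (P.step_triv x₀ ((oU.union oL).union oR) oM Mid_sub Mid_convex pc_mid
    (P.step_triv x₀ (oU.union oL) oR Right_sub Right_convex pc_right
    (P.step_triv x₀ oU oL Left_sub Left_convex pc_left hc)))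

lemma Fn_pc (hc : IsPathConnected (P.T x₀ ∪ P.gp x₀ Up)) : IsPathConnected P.Fn := by
  rw [← P.Fn_eq x₀]
  exact P.step_pc x₀ Down_sub Down_convex pc_down (P.step_pc x₀ Mid_sub Mid_convex pc_mid
    (P.step_pc x₀ Right_sub Right_convex pc_right (P.step_pc x₀ Left_sub Left_convex pc_left hc)))

lemma mem_T4_half {a : ℝ} {x : P.M} :
    x ∈ (P.up (P.cT 1 Inner.one_sq)).pc x₀ (Hp 0 a 0) ↔ x ∈ P.T4 x₀ ∧ a * (th x.1).2.1 < 0 := by
  have e : x ∈ (P.up (P.cT 1 Inner.one_sq)).pc x₀ (Hp 0 a 0) ↔ x ∈ P.T4 x₀ ∧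
      a * ((th x.1).2.1 / (nn (th x.1) + ((th x.1).2.2 - 15))) < 0 := by
    simp [T4, Chart.mem_pc, up, Inner.cT, Hp]
  rw [e]
  refine and_congr_right fun h => ?_
  rw [← mul_div_assoc, div_lt_iff₀ ((P.mem_T4 x₀).1 h).2.2, zero_mul]

lemma T45 {x : P.M} (h : x ∈ P.T x₀) : x ∈ P.T4 x₀ ∩ P.T5 x₀ ↔ (th x.1).2.1 ≠ 0 := by
  rw [mem_inter_iff, mem_T4, mem_T5]
  rw [mem_T] at h
  have h1 := nn_sq (th x.1)
  have h2 := nn_nonneg (th x.1)
  constructor
  · rintro ⟨⟨-, -, h3⟩, -, -, h4⟩ h0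
    rw [h0] at h1; nlinarith
  · intro h0
    have : 0 < (th x.1).2.1 ^ 2 := by positivity
    exact ⟨⟨h.1, h.2, by nlinarith⟩, h.1, h.2, by nlinarith⟩

lemma strip_convex : Convex ℝ {w : R2 | (P.b + 2) * w.2 ^ 2 < 1} := by
  have := quad_convex 0 (P.b + 2) 0 1 le_rfl (by linarith [P.b_ge])
  simpa using this

lemma N1_Fn {x : P.M} {w : R2} (e : x.1 = P.J (1, w.1, w.2)) : x ∈ P.Fn ↔ w.2 ≠ 0 := by
  have hD := P.D_pos (s := (1, w.1, w.2)) (by positivity)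
  simp only [Fn, mem_ofPred_eq, e, J, lt_div_iff₀ hD, zero_mul, sq_pos_iff]

lemma pc_punct : IsPathConnected ({w : R2 | (P.b + 2) * w.2 ^ 2 < 1} ∩
    (Hp 0 (-1) 0 ∪ Hp (-1) 0 0 ∪ Hp 0 1 0 ∪ Hp 1 0 0)) := by
  have hb : 0 < P.b + 2 := by linarith [P.b_ge]
  have h1 : (P.b + 2) * (P.b + 2)⁻¹ ^ 2 < 1 := by
    rw [sq, ← mul_assoc, mul_inv_cancel₀ hb.ne', one_mul]
    exact inv_lt_one_of_one_lt₀ (by linarith [P.b_ge])
  have h2 : 0 < (P.b + 2)⁻¹ := inv_pos.2 hb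
  generalize (P.b + 2)⁻¹ = τ at h1 h2
  have := pc_add (pc_add (pc_add ((P.strip_convex.inter (Hp_convex 0 (-1) 0)).isPathConnected
    ⟨(1, τ), by simp [Hp, h1, h2]⟩) (P.strip_convex.inter (Hp_convex (-1) 0 0)) (w := (1, τ))
    (by simp [Hp, h1, h2]) (by simp [Hp, h1]))
    (P.strip_convex.inter (Hp_convex 0 1 0)) (w := (1, -τ))
    (by simp [Hp, h1]) (by simp [Hp, h1, h2]))
    (P.strip_convex.inter (Hp_convex 1 0 0)) (w := (-1, τ))
    (by simp [Hp, h1, h2]) (by simp [Hp, h1])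
  simpa only [← inter_union_distrib_left] using this

lemma N2_inter : (P.Fn ∪ P.N1 x₀) ∩ P.N2 x₀ = P.cN2.pc x₀ ({w : R2 | (P.b + 2) * w.2 ^ 2 < 1} ∩
    (Hp 0 (-1) 0 ∪ Hp (-1) 0 0 ∪ Hp 0 1 0 ∪ Hp 1 0 0)) := by
  have key : ∀ x : P.M, ∀ w : R2, x.1 = P.J (w.1, 1, w.2) → (x ∈ P.Fn ∪ P.N1 x₀ ↔
      w ∈ Hp 0 (-1) 0 ∪ Hp (-1) 0 0 ∪ Hp 0 1 0 ∪ Hp 1 0 0) := by
    intro x w e
    have hD := P.D_pos (s := (w.1, 1, w.2)) (by positivity)
    have h1 : x ∈ P.Fn ↔ w.2 ≠ 0 := by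
      simp only [Fn, mem_ofPred_eq, e, J, lt_div_iff₀ hD, zero_mul, sq_pos_iff]
    have h2 : w ∈ Hp 0 (-1) 0 ∪ Hp (-1) 0 0 ∪ Hp 0 1 0 ∪ Hp 1 0 0 ↔ w.2 ≠ 0 ∨ w.1 ≠ 0 := by
      simp only [Hp, mem_union, mem_ofPred_eq, ne_iff_lt_or_gt, zero_mul, one_mul, neg_mul,
        zero_add, add_zero, neg_lt_zero]
      tauto
    rw [mem_union, h1, h2]
    refine or_congr_right' fun h0 => ?_
    rw [not_not] at h0
    constructor
    · intro h h3
      have := h.1.2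
      simp [e, J, h3] at this
    · intro h3
      have h4 : x.1 ∈ P.cN1.O := by
        have : 0 < w.1 ^ 2 / P.D (w.1, 1, w.2) := by positivity
        exact ⟨by simpa [e, J, h0] using this, by simpa [e, J] using this⟩
      exact ⟨h4, (P.cN1.inv _ x.2 h4).1⟩
  ext x
  constructor
  · rintro ⟨h1, h2⟩
    obtain ⟨w, hw, -, e⟩ := Chart.pc_param _ _ h2
    exact Chart.mem_pc_of _ _ hw ⟨hw, (key x w e).1 h1⟩ e
  · intro h
    obtain ⟨w, hw, hw', e⟩ := Chart.pc_param _ _ h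
    exact ⟨(key x w e).2 hw'.2, Chart.mem_pc_of _ _ hw hw e⟩

lemma all_eq : P.Fn ∪ P.N1 x₀ ∪ P.N2 x₀ = univ := by
  refine eq_univ_of_forall fun x => ?_
  rcases P.inf_cover x.2 with h | h | h
  · exact Or.inl (Or.inl h)
  · exact Or.inl (Or.inr ⟨h, (P.cN1.inv _ x.2 h).1⟩)
  · exact Or.inr ⟨h, (P.cN2.inv _ x.2 h).1⟩

lemma cocycle1 : ∃ (c : Cocycle P.M) (h k : P.M → ZMod 2), c.Cob h (P.T4 x₀) ∧ c.Cob k (P.T5 x₀) ∧
    ∀ x ∈ P.T4 x₀ ∩ P.T5 x₀, h x + k x = sg x.1.1.2.1 := by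
  let L : Set P.M := {x | x.1.1.2.1 = 0 ∧ x.1.2.2.1 + x.1.2.2.2 ≤ 225 * x.1.2.1 ∧
    x.1.1.2.2.1 ≤ 15 * x.1.2.1}
  let L' : Set P.M := {x | x.1.1.2.1 = 0 ∧ (225 * x.1.2.1 ≤ x.1.2.2.1 + x.1.2.2.2 ∨
    15 * x.1.2.1 ≤ x.1.1.2.2.1)}
  have cL : IsClosed L := by
    refine IsClosed.and (isClosed_eq ?_ ?_) (IsClosed.and (isClosed_le ?_ ?_) (isClosed_le ?_ ?_)) <;>
      fun_prop
  have cL' : IsClosed L' := by
    have h1 : IsClosed {x : P.M | 225 * x.1.2.1 ≤ x.1.2.2.1 + x.1.2.2.2} :=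
      isClosed_le (by fun_prop) (by fun_prop)
    have h2 : IsClosed {x : P.M | 15 * x.1.2.1 ≤ x.1.1.2.2.1} :=
      isClosed_le (by fun_prop) (by fun_prop)
    refine IsClosed.and (isClosed_eq ?_ ?_) (h1.union h2) <;> fun_prop
  have eL : ∀ x : P.M, ∀ p : R3, x.1 = P.lift p →
      (x ∈ L ↔ p.2.1 = 0 ∧ p.1 ^ 2 + p.2.1 ^ 2 ≤ 225 ∧ p.2.2 ≤ 15) ∧
      (x ∈ L' ↔ p.2.1 = 0 ∧ (225 ≤ p.1 ^ 2 + p.2.1 ^ 2 ∨ 15 ≤ p.2.2)) := by
    intro x p e
    have hq := P.q_pos (p.1 ^ 2 + p.2.1 ^ 2)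
    simp only [L, L', mem_ofPred_eq, e, lift, ← add_div, mul_one_div, div_eq_zero_iff, hq.ne',
      or_false, div_le_div_iff_of_pos_right hq, and_self]
  have dis : ∀ x, x ∈ Lᶜ ∨ x ∈ L'ᶜ := by
    intro x
    by_contra hc
    simp only [mem_compl_iff, not_or, not_not] at hc
    obtain ⟨h1, h2⟩ := hc
    rcases x.2 with ⟨p, hp, e⟩ | ⟨s, ⟨hs, h0⟩, e⟩
    · obtain ⟨a1, a2, a3⟩ := (eL x p e.symm).1.1 h1
      obtain ⟨-, a4⟩ := (eL x p e.symm).2.1 h2
      rcases hp with ⟨w, ⟨g1, g2⟩, rfl⟩ | hp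
      · simp only [Inner.gr] at a1 a2 a3 a4
        rw [a1] at g1 g2 a2 a4
        have b1 : -15 ≤ w.1 := by nlinarith
        have b2 : w.1 ≤ 15 := by nlinarith
        have b3 : w.1 ≠ 15 := by rintro h; rw [h] at g1; norm_num at g1
        have b4 : w.1 ≠ -15 := by rintro h; rw [h] at g2; norm_num at g2
        have b5 := lt_of_le_of_ne b2 b3
        have b6 := lt_of_le_of_ne b1 b4.symm
        rcases a4 with a4 | a4
        · nlinarith
        · rcases P.u_flat (w := w) (by linarith) (by linarith) (by linarith) (by linarith)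
            (by linarith) with ⟨-, h⟩ | ⟨-, h⟩ <;> linarith
      · have b1 := (Tube_param hp).1
        have b2 := nn_sq p
        obtain ⟨b3, b4⟩ := tube_abs_le hp
        rw [a1] at b2 a2 a4
        have b5 : p.2.2 ≠ 15 := by intro h; rw [h] at b2; nlinarith
        have b6 := lt_of_le_of_ne a3 b5
        rcases a4 with a4 | a4
        · nlinarith
        · linarith
    · have hD : P.D s = s.1 ^ 2 + s.2.1 ^ 2 := by simp [D, hs]
      have := h1.2.1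
      rw [← e] at this
      simp only [J, hs, hD, ← add_div, div_self h0.ne'] at this
      norm_num at this
  obtain ⟨c, h, k, h1, h2, h3⟩ := exists_cocycle_two cL.isOpen_compl cL'.isOpen_compl dis
    (f := fun x : P.M => x.1.1.2.1) (by fun_prop) (by
      rintro x ⟨h1, h2⟩ h0
      simp only [L, L', mem_compl_iff, mem_ofPred_eq, h0, true_and, not_and_or, not_or,
        not_le] at h1 h2
      rcases h1 with h1 | h1 <;> linarith [h2.1, h2.2])
  have s4 : P.T4 x₀ ⊆ Lᶜ := by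
    intro x hx hL
    obtain ⟨a1, a2, a3⟩ := (P.mem_T4 x₀).1 hx
    obtain ⟨b1, b2, b3⟩ := (eL x _ (P.M_fin x.2 a1).2.symm).1.1 hL
    have := nn_sq (th x.1)
    rw [b1] at this
    nlinarith [nn_nonneg (th x.1)]
  have s5 : P.T5 x₀ ⊆ L'ᶜ := by
    intro x hx hL
    obtain ⟨a1, a2, a3⟩ := (P.mem_T5 x₀).1 hx
    obtain ⟨b1, b2⟩ := (eL x _ (P.M_fin x.2 a1).2.symm).2.1 hL
    obtain ⟨b3, b4⟩ := tube_abs_le (P.T_tube x₀ (Or.inr hx))
    have := nn_sq (th x.1)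
    rw [b1] at this b2
    have b5 : (th x.1).2.2 < 15 := by nlinarith [nn_nonneg (th x.1)]
    rcases b2 with b2 | b2
    · nlinarith
    · linarith
  exact ⟨c, h, k, h1.mono s4, h2.mono s5, fun x hx => h3 x ⟨s4 hx.1, s5 hx.2⟩⟩

lemma th_fst_ne {x : P.M} (h : (th x.1).1 ≠ 0) : x.1.1.1 ≠ 0 := by
  intro e; simp [th, e] at h

lemma cocycle2 : ∃ (c : Cocycle P.M) (h k : P.M → ZMod 2), c.Cob h (P.T x₀) ∧
    c.Cob k (P.gp x₀ Up) ∧ ∀ x ∈ P.T x₀ ∩ P.gp x₀ Up, h x + k x = sg x.1.1.1 := by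
  obtain ⟨c, h, k, h1, h2, h3⟩ := exists_cocycle_two (P.T_open x₀)
    (((P.gp_open x₀ isOpen_univ).union (P.N1_open x₀)).union (P.N2_open x₀))
    (by
      intro x
      have : x ∈ P.Fn ∪ P.N1 x₀ ∪ P.N2 x₀ := by rw [P.all_eq]; trivial
      rcases this with (h | h) | h
      · rw [← P.Fn_eq x₀] at h
        rcases h with h | h
        · exact Or.inl h
        · exact Or.inr (Or.inl (Or.inl ⟨h.1, mem_univ _⟩))
      · exact Or.inr (Or.inl (Or.inr h))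
      · exact Or.inr (Or.inr h))
    (f := fun x : P.M => x.1.1.1) (by fun_prop) (by
      rintro x ⟨h1, h2⟩
      have hT := P.T_tube x₀ h1
      have hs := Inner.tube_small hT
      have e := (P.M_fin x.2 ((P.mem_T x₀).1 h1).1).2
      have hq := P.q_pos ((th x.1).1 ^ 2 + (th x.1).2.1 ^ 2)
      have hb := P.b_ge
      rcases h2 with (h2 | h2) | h2
      · refine P.th_fst_ne ?_
        have := (OT_bounds hT.1).1
        rcases (tube_flat hT h2.1.2).1 with h | h <;> rw [h] <;> intro h0 <;> linarith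
      · exfalso
        have := h2.1.1
        rw [← e] at this
        simp only [lift, mul_one_div, div_lt_div_iff_of_pos_right hq] at this
        nlinarith [sq_nonneg (th x.1).2.1]
      · exfalso
        have := h2.1.1
        rw [← e] at this
        simp only [lift, mul_one_div, div_lt_div_iff_of_pos_right hq] at this
        nlinarith [sq_nonneg (th x.1).1])
  have s : P.gp x₀ Up ⊆ P.gp x₀ univ ∪ P.N1 x₀ ∪ P.N2 x₀ := fun x hx =>
    Or.inl (Or.inl ⟨hx.1, mem_univ _⟩)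
  exact ⟨c, h, k, h1, h2.mono s, fun x hx => h3 x ⟨hx.1, s hx.2⟩⟩

lemma cocycle3 : ∃ (c : Cocycle P.M) (h k : P.M → ZMod 2), c.Cob h P.Fn ∧
    c.Cob k (P.N1 x₀) ∧ ∀ x ∈ P.Fn ∩ P.N1 x₀, h x + k x = sg x.1.1.1 := by
  let U : Fin 3 → Set P.M := ![P.Fn, P.N1 x₀, P.N2 x₀]
  let a : Fin 3 → Fin 3 → P.M → ℝ :=
    ![![fun x => x.1.2.1, fun x => x.1.1.1, fun x => x.1.1.2.1],
      ![fun x => x.1.1.1, fun x => x.1.2.2.1, fun x => x.1.1.2.2.2],
      ![fun x => x.1.1.2.1, fun x => x.1.1.2.2.2, fun x => x.1.2.2.2]]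
  obtain ⟨c, h, h1, h2⟩ := exists_cocycle_of_signs U
    (by
      intro i; fin_cases i
      exacts [P.Fn_open, P.N1_open x₀, P.N2_open x₀])
    (by
      intro x
      have : x ∈ P.Fn ∪ P.N1 x₀ ∪ P.N2 x₀ := by rw [P.all_eq]; trivial
      rcases this with (h | h) | h
      exacts [⟨0, h⟩, ⟨1, h⟩, ⟨2, h⟩]) a
    (by
      intro i j
      apply Continuous.continuousOn
      fin_cases i <;> fin_cases j <;> simp only [a] <;> simp <;> fun_prop)
    (by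
      rintro i j k x ⟨⟨hi, hj⟩, hk⟩
      have diag : ∀ i, x ∈ U i → 0 < a i i x := by
        intro i hi
        fin_cases i
        exacts [hi, hi.1.2, hi.1.2]
      by_cases h0 : i = 0 ∧ j = 0 ∧ k = 0
      · obtain ⟨rfl, rfl, rfl⟩ := h0
        have := diag 0 hi
        positivity
      have hN : ∀ i, i ≠ 0 → x ∈ U i → ∃ s : R3, 0 < s.1 ^ 2 + s.2.1 ^ 2 ∧ x.1 = P.J s := by
        intro i hi0 hi
        fin_cases i
        · exact (hi0 rfl).elim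
        · exact P.M_J_of x.2 (Or.inl hi.1.1)
        · exact P.M_J_of x.2 (Or.inr hi.1.1)
      obtain ⟨s, hs, e⟩ : ∃ s : R3, 0 < s.1 ^ 2 + s.2.1 ^ 2 ∧ x.1 = P.J s := by
        by_cases a1 : i = 0
        · by_cases a2 : j = 0
          · exact hN k (fun a3 => h0 ⟨a1, a2, a3⟩) hk
          · exact hN j a2 hj
        · exact hN i a1 hi
      have hD := P.D_pos hs
      let r : Fin 3 → ℝ := ![s.2.2, s.1, s.2.1]
      let κ : Fin 3 → Fin 3 → ℝ := ![![1, 1, 1], ![1, 1, 2], ![1, 2, 1]]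
      have κpos : ∀ i j, 0 < κ i j := by
        intro i j; fin_cases i <;> fin_cases j <;> simp [κ]
      have form : ∀ i j, a i j x = κ i j * (r i * r j) / P.D s := by
        intro i j
        fin_cases i <;> fin_cases j <;> simp [a, κ, r, e, J] <;> ring
      have rne : ∀ i, x ∈ U i → r i ≠ 0 := by
        intro i hi h0
        have := diag i hi
        simp [form, h0] at this
      have r1 := rne i hi
      have r2 := rne j hj
      have r3 := rne k hk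
      have k1 := κpos i j
      have k2 := κpos j k
      have k3 := κpos i k
      rw [form, form, form, show κ i j * (r i * r j) / P.D s * (κ j k * (r j * r k) / P.D s) *
        (κ i k * (r i * r k) / P.D s) = κ i j * κ j k * κ i k * (r i * r j * r k) ^ 2 / P.D s ^ 3 by
        field_simp]
      positivity)
  exact ⟨c, h 0, h 1, h1 0, h1 1, h2 0 1⟩

theorem count : ∃ _ : PathConnectedSpace P.M,
    Nat.card (FundamentalGroup P.M x₀ →* Multiplicative (ZMod 2)) = 2 ^ 3 := by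
  have pc4 : IsPathConnected (P.T4 x₀) :=
    Chart.pc_pc _ _ Subset.rfl (convex_univ.isPathConnected univ_nonempty)
  have pc5 : IsPathConnected (P.T5 x₀) :=
    Chart.pc_pc _ _ Subset.rfl (convex_univ.isPathConnected univ_nonempty)
  have w1p := Chart.pc_pc (P.up (P.cT 1 Inner.one_sq)) x₀ (subset_univ _)
    ((Hp_convex 0 (-1) 0).isPathConnected ⟨(0, 1), by simp [Hp]⟩)
  have w1m := Chart.pc_pc (P.up (P.cT 1 Inner.one_sq)) x₀ (subset_univ _)
    ((Hp_convex 0 1 0).isPathConnected ⟨(0, -1), by simp [Hp]⟩)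
  have s1 : ∀ a : ℝ, (P.up (P.cT 1 Inner.one_sq)).pc x₀ (Hp 0 a 0) ⊆ P.T4 x₀ ∩ P.T5 x₀ := by
    intro a x hx
    rw [mem_T4_half] at hx
    exact (P.T45 x₀ (Or.inl hx.1)).2 fun h0 => by simp [h0] at hx
  obtain ⟨a₁, ha₁⟩ := w1p.nonempty
  obtain ⟨b₁, hb₁⟩ := w1m.nonempty
  have pcT : IsPathConnected (P.T x₀) := pc4.union pc5 ⟨a₁, s1 _ ha₁⟩
  have pcU : IsPathConnected (P.gp x₀ Up) :=
    Chart.pc_pc _ _ Up_sub (Up_convex.isPathConnected ⟨(0, 5), by norm_num [Up, Hp]⟩)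
  have w2p := Chart.pc_pc (P.up P.cG) x₀ (inter_subset_left.trans Up_sub)
    ((Up_convex.inter (El_convex 20)).isPathConnected ⟨(20, 5), by norm_num [Up, El, Hp]⟩)
  have w2m := Chart.pc_pc (P.up P.cG) x₀ (inter_subset_left.trans Up_sub)
    ((Up_convex.inter (El_convex (-20))).isPathConnected ⟨(-20, 5), by norm_num [Up, El, Hp]⟩)
  have s2p : P.gp x₀ (Up ∩ El 20) ⊆ P.T x₀ ∩ P.gp x₀ Up := fun x hx =>
    ⟨(P.gp_T x₀ hx).2 (Or.inl hx.2.2), hx.1, hx.2.1⟩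
  have s2m : P.gp x₀ (Up ∩ El (-20)) ⊆ P.T x₀ ∩ P.gp x₀ Up := fun x hx =>
    ⟨(P.gp_T x₀ hx).2 (Or.inr hx.2.2), hx.1, hx.2.1⟩
  obtain ⟨a₂, ha₂⟩ := w2p.nonempty
  obtain ⟨b₂, hb₂⟩ := w2m.nonempty
  have pcF : IsPathConnected P.Fn := P.Fn_pc x₀ (pcT.union pcU ⟨a₂, s2p ha₂⟩)
  have hb : 0 < P.b + 2 := by linarith [P.b_ge]
  have t1 : (P.b + 2) * (P.b + 2)⁻¹ ^ 2 < 1 := by
    rw [sq, ← mul_assoc, mul_inv_cancel₀ hb.ne', one_mul]
    exact inv_lt_one_of_one_lt₀ (by linarith [P.b_ge])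
  have t2 : 0 < (P.b + 2)⁻¹ := inv_pos.2 hb
  have pcN1 : IsPathConnected (P.N1 x₀) :=
    Chart.pc_pc _ _ Subset.rfl (P.strip_convex.isPathConnected ⟨(0, 0), by simp⟩)
  have pcN2 : IsPathConnected (P.N2 x₀) :=
    Chart.pc_pc _ _ Subset.rfl (P.strip_convex.isPathConnected ⟨(0, 0), by simp⟩)
  have w3p := Chart.pc_pc P.cN1 x₀ inter_subset_left
    ((P.strip_convex.inter (Hp_convex 0 (-1) 0)).isPathConnected
      ⟨(0, (P.b + 2)⁻¹), t1, by simpa [Hp] using hb⟩)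
  have w3m := Chart.pc_pc P.cN1 x₀ inter_subset_left
    ((P.strip_convex.inter (Hp_convex 0 1 0)).isPathConnected
      ⟨(0, -(P.b + 2)⁻¹), by simpa using t1, by simpa [Hp] using hb⟩)
  have s3 : ∀ a : ℝ, P.cN1.pc x₀ ({w : R2 | (P.b + 2) * w.2 ^ 2 < 1} ∩ Hp 0 a 0) ⊆
      P.Fn ∩ P.N1 x₀ := by
    intro a x hx
    obtain ⟨w, hw, hw', e⟩ := Chart.pc_param _ _ hx
    refine ⟨(P.N1_Fn e).2 fun h0 => ?_, hx.1, hx.2.1⟩
    have := hw'.2
    simp [Hp, h0] at this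
  obtain ⟨a₃, ha₃⟩ := w3p.nonempty
  obtain ⟨b₃, hb₃⟩ := w3m.nonempty
  have w4 : IsPathConnected ((P.Fn ∪ P.N1 x₀) ∩ P.N2 x₀) := by
    rw [N2_inter]; exact Chart.pc_pc _ _ inter_subset_left P.pc_punct
  have pcall : IsPathConnected (univ : Set P.M) := by
    rw [← P.all_eq x₀]
    exact (pcF.union pcN1 ⟨a₃, s3 _ ha₃⟩).union pcN2 w4.nonempty
  have inst : PathConnectedSpace P.M := pathConnectedSpace_iff_univ.2 pcall
  refine ⟨inst, ?_⟩
  have j1 := pc4.joinedIn a₁ (s1 _ ha₁).1 b₁ (s1 _ hb₁).1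
  have j1' := pc5.joinedIn a₁ (s1 _ ha₁).2 b₁ (s1 _ hb₁).2
  have j2 := pcT.joinedIn a₂ (s2p ha₂).1 b₂ (s2m hb₂).1
  have j2' := pcU.joinedIn a₂ (s2p ha₂).2 b₂ (s2m hb₂).2
  have j3 := pcF.joinedIn a₃ (s3 _ ha₃).1 b₃ (s3 _ hb₃).1
  have j3' := pcN1.joinedIn a₃ (s3 _ ha₃).2 b₃ (s3 _ hb₃).2
  have TF : P.T x₀ ⊆ P.Fn := fun x hx => ((P.mem_T x₀).1 hx).1
  refine card_hom_eq_eight x₀ j1.somePath j1'.somePath j2.somePath j2'.somePath j3.somePath
    j3'.somePath ?_ ?_ ?_ ?_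
  · intro c e1 e2 e3
    have c1 : c.Triv (P.T x₀) := by
      refine Cocycle.Triv.glue2 (P.T4_open x₀) (P.T5_open x₀)
        (Chart.pc_triv _ _ c Subset.rfl convex_univ) (Chart.pc_triv _ _ c Subset.rfl convex_univ)
        w1p w1m (s1 _) (s1 _) ?_ ha₁ hb₁ _ _ j1.somePath_mem j1'.somePath_mem e1
      intro x hx
      rcases lt_or_gt_of_ne ((P.T45 x₀ (Or.inl hx.1)).1 hx) with h | h
      · exact Or.inr ((P.mem_T4_half x₀).2 ⟨hx.1, by linarith⟩)
      · exact Or.inl ((P.mem_T4_half x₀).2 ⟨hx.1, by linarith⟩)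
    have c2 : c.Triv (P.T x₀ ∪ P.gp x₀ Up) := by
      refine c1.glue2 (P.T_open x₀) (P.gp_open x₀ (Hp_open _ _ _))
        (Chart.pc_triv _ _ c Up_sub Up_convex) w2p w2m s2p s2m ?_ ha₂ hb₂ _ _
        j2.somePath_mem j2'.somePath_mem e2
      intro x hx
      rcases (P.gp_T x₀ hx.2).1 hx.1 with h | h
      · exact Or.inl ⟨hx.2.1, hx.2.2, h⟩
      · exact Or.inr ⟨hx.2.1, hx.2.2, h⟩
    have c3 : c.Triv (P.Fn ∪ P.N1 x₀) := by
      refine (P.Fn_triv x₀ c2).glue2 P.Fn_open (P.N1_open x₀)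
        (Chart.pc_triv _ _ c Subset.rfl P.strip_convex) w3p w3m (s3 _) (s3 _) ?_ ha₃ hb₃ _ _
        j3.somePath_mem j3'.somePath_mem e3
      intro x hx
      obtain ⟨w, hw, -, e⟩ := Chart.pc_param _ _ hx.2
      rcases lt_or_gt_of_ne ((P.N1_Fn e).1 hx.1) with h | h
      · exact Or.inr (Chart.mem_pc_of _ _ hw ⟨hw, by simpa [Hp] using h⟩ e)
      · exact Or.inl (Chart.mem_pc_of _ _ hw ⟨hw, by simpa [Hp] using h⟩ e)
    rw [← P.all_eq x₀]
    exact c3.glue1 (P.Fn_open.union (P.N1_open x₀)) (P.N2_open x₀)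
      (Chart.pc_triv _ _ c Subset.rfl P.strip_convex) w4
  · obtain ⟨c, h, k, h1, h2, h3⟩ := P.cocycle1 x₀
    refine ⟨c, val_ne_of_signs h1 h2 (h3 _ (s1 _ ha₁)) (h3 _ (s1 _ hb₁)) ?_ ?_ _ _
      j1.somePath_mem j1'.somePath_mem⟩
    · have h4 := ((P.mem_T4_half x₀).1 ha₁).2
      have h5 := TF (Or.inl (s1 _ ha₁).1)
      simp only [th, neg_mul, one_mul, neg_lt_zero] at h4
      exact (div_pos_iff_of_pos_right h5).1 h4
    · have h4 := ((P.mem_T4_half x₀).1 hb₁).2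
      have h5 := TF (Or.inl (s1 _ hb₁).1)
      simp only [th, one_mul] at h4
      rwa [div_lt_iff₀ h5, zero_mul] at h4
  · obtain ⟨c, h, k, h1, h2, h3⟩ := P.cocycle2 x₀
    refine ⟨c, Cocycle.Triv.val_eq ⟨h, h1⟩ _ _ (fun t => Or.inl (j1.somePath_mem t))
      (fun t => Or.inr (j1'.somePath_mem t)), val_ne_of_signs h1 h2 (h3 _ (s2p ha₂))
      (h3 _ (s2m hb₂)) ?_ ?_ _ _ j2.somePath_mem j2'.somePath_mem⟩
    · have h4 : 3 * ((th a₂.1).1 - 20) ^ 2 + 4 * (th a₂.1).2.1 ^ 2 < 300 := ha₂.2.2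
      have h5 : 0 < (th a₂.1).1 := by nlinarith [sq_nonneg (th a₂.1).2.1]
      exact (div_pos_iff_of_pos_right ha₂.1.1).1 h5
    · have h4 : 3 * ((th b₂.1).1 - -20) ^ 2 + 4 * (th b₂.1).2.1 ^ 2 < 300 := hb₂.2.2
      have h5 : (th b₂.1).1 < 0 := by nlinarith [sq_nonneg (th b₂.1).2.1]
      simp only [th] at h5
      rwa [div_lt_iff₀ hb₂.1.1, zero_mul] at h5
  · obtain ⟨c, h, k, h1, h2, h3⟩ := P.cocycle3 x₀
    refine ⟨c, Cocycle.Triv.val_eq ⟨h, h1⟩ _ _ (fun t => TF (Or.inl (j1.somePath_mem t)))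
      (fun t => TF (Or.inr (j1'.somePath_mem t))),
      Cocycle.Triv.val_eq ⟨h, h1⟩ _ _ (fun t => TF (j2.somePath_mem t))
      (fun t => (j2'.somePath_mem t).1.1), val_ne_of_signs h1 h2 (h3 _ (s3 _ ha₃))
      (h3 _ (s3 _ hb₃)) ?_ ?_ _ _ j3.somePath_mem j3'.somePath_mem⟩
    · have h4 : 0 * (a₃.1.1.2.2.2 / (2 * a₃.1.2.2.1)) + -1 * (a₃.1.1.1 / a₃.1.2.2.1) < 0 := ha₃.2.2
      simp only [zero_mul, zero_add, neg_mul, one_mul, neg_lt_zero] at h4
      exact (div_pos_iff_of_pos_right ha₃.1.2).1 h4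
    · have h4 : 0 * (b₃.1.1.2.2.2 / (2 * b₃.1.2.2.1)) + 1 * (b₃.1.1.1 / b₃.1.2.2.1) < 0 := hb₃.2.2
      simp only [zero_mul, zero_add, one_mul] at h4
      rwa [div_lt_iff₀ hb₃.1.2, zero_mul] at h4

end Par

end Pool.Agent.P.MP_06bfdf_gt
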