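import Mathlib

/-! Surfaces in a normed space given by explicit charts with smooth left inverses. -/

open Set Topology Filter
open scoped Manifold ContDiff

namespace Pool.Agent.P.MP_06bfdf_gt

abbrev R2 := ℝ × ℝ
abbrev R3 := ℝ × ℝ × ℝ
abbrev R4 := ℝ × ℝ × ℝ × ℝ

/-- A smooth parametrisation of the part of `S` inside the open set `O`, with a smooth inverse
defined on `O`. -/
structure Chart {E : Type} [NormedAddCommGroup E] [NormedSpace ℝ E] (S : Set E) where
  W : Set R2
  O : Set E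
  ψ : R2 → E
  ρ : E → R2
  oW : IsOpen W
  oO : IsOpen O
  sψ : ContDiffOn ℝ ∞ ψ W
  sρ : ContDiffOn ℝ ∞ ρ O
  mem : ∀ w ∈ W, ψ w ∈ S ∧ ψ w ∈ O ∧ ρ (ψ w) = w
  inv : ∀ x ∈ S, x ∈ O → ρ x ∈ W ∧ ψ (ρ x) = x

variable {E : Type} [NormedAddCommGroup E] [NormedSpace ℝ E] {S : Set E}

namespace Chart

variable (C : Chart S) (x₀ : S)

open Classical in
/-- The parametrisation as a map to the subtype. -/
noncomputable def par (w : R2) : S := if h : C.ψ w ∈ S then ⟨C.ψ w, h⟩ else x₀

lemma par_val {w : R2} (hw : w ∈ C.W) : (C.par x₀ w : E) = C.ψ w := by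
  simp [par, (C.mem w hw).1]

/-- The chart as an open homeomorphism onto `W`. -/
noncomputable def e : OpenPartialHomeomorph S R2 where
  toFun x := C.ρ x
  invFun := C.par x₀
  source := Subtype.val ⁻¹' C.O
  target := C.W
  map_source' x hx := (C.inv x x.2 hx).1
  map_target' w hw := by
    simp only [mem_preimage, C.par_val x₀ hw]; exact (C.mem w hw).2.1
  left_inv' x hx := by
    apply Subtype.ext
    rw [C.par_val x₀ (C.inv x x.2 hx).1]; exact (C.inv x x.2 hx).2
  right_inv' w hw := by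
    simp only [C.par_val x₀ hw]; exact (C.mem w hw).2.2
  open_source := C.oO.preimage continuous_subtype_val
  open_target := C.oW
  continuousOn_toFun :=
    C.sρ.continuousOn.comp continuous_subtype_val.continuousOn fun _ hx => hx
  continuousOn_invFun := by
    rw [Topology.IsInducing.subtypeVal.continuousOn_iff]
    exact C.sψ.continuousOn.congr fun w hw => C.par_val x₀ hw

@[simp] lemma e_source : (C.e x₀).source = Subtype.val ⁻¹' C.O := rfl
@[simp] lemma e_target : (C.e x₀).target = C.W := rfl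
@[simp] lemma e_apply (x : S) : C.e x₀ x = C.ρ x := rfl
@[simp] lemma e_symm_apply (w : R2) : (C.e x₀).symm w = C.par x₀ w := rfl

end Chart

/-- Coordinates on the Euclidean plane. -/
noncomputable def c2 : EuclideanSpace ℝ (Fin 2) ≃L[ℝ] R2 :=
  (EuclideanSpace.equiv (Fin 2) ℝ).trans (ContinuousLinearEquiv.finTwoArrow ℝ ℝ)

/-- The point of Euclidean 4-space with given coordinates. -/
noncomputable def c4 : R4 →L[ℝ] EuclideanSpace ℝ (Fin 4) :=
  LinearMap.toContinuousLinearMap
    { toFun := fun y => !₂[y.1, y.2.1, y.2.2.1, y.2.2.2]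
      map_add' := by intro x y; ext i; fin_cases i <;> simp
      map_smul' := by intro a y; ext i; fin_cases i <;> simp }

/-- Coordinates of a point of Euclidean 4-space. -/
noncomputable def d4 : EuclideanSpace ℝ (Fin 4) →L[ℝ] R4 :=
  LinearMap.toContinuousLinearMap
    { toFun := fun y => (y 0, y 1, y 2, y 3)
      map_add' := by intro x y; simp
      map_smul' := by intro a y; simp }

lemma d4_c4 (y : R4) : d4 (c4 y) = y := by simp [d4, c4]

lemma inner_c4 (u : EuclideanSpace ℝ (Fin 4)) (y : R4) :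
    inner ℝ u (c4 y) = u 0 * y.1 + u 1 * y.2.1 + u 2 * y.2.2.1 + u 3 * y.2.2.2 := by
  simp [c4, PiLp.inner_apply, Fin.sum_univ_four, mul_comm]

/-- The height function on 4-space with coefficient vector `a`. -/
def ht (a y : R4) : ℝ := a.1 * y.1 + a.2.1 * y.2.1 + a.2.2.1 * y.2.2.1 + a.2.2.2 * y.2.2.2

/-- The chart with values in the Euclidean plane. -/
noncomputable def Chart.e' (C : Chart S) (x₀ : S) :
    OpenPartialHomeomorph S (EuclideanSpace ℝ (Fin 2)) :=
  (C.e x₀).transHomeomorph c2.symm.toHomeomorph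

/-- The charted space structure given by a covering family of charts. -/
@[reducible] noncomputable def charted {ι : Type} (C : ι → Chart S) (x₀ : S)
    (cov : ∀ x ∈ S, ∃ i, x ∈ (C i).O) : ChartedSpace (EuclideanSpace ℝ (Fin 2)) S where
  atlas := range fun i => (C i).e' x₀
  chartAt x := (C (cov x x.2).choose).e' x₀
  mem_chart_source x := (cov x x.2).choose_spec
  chart_mem_atlas _ := mem_range_self _

theorem package {ι : Type} (C : ι → Chart S) (hS : IsCompact S) (x₀ : S)
    (cov : ∀ x ∈ S, ∃ i, x ∈ (C i).O) (π : E →L[ℝ] R4) (inj : InjOn π S)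
    (imm : ∀ i, ∀ w ∈ (C i).W, ∃ r : R4 → R2, DifferentiableAt ℝ r (π ((C i).ψ w)) ∧
      ∀ᶠ w' in 𝓝 w, r (π ((C i).ψ w')) = w')
    (conn : ConnectedSpace S)
    (card : Nat.card (FundamentalGroup S x₀ →* Multiplicative (ZMod 2)) = 2 ^ 3)
    (tpp : ∀ (a : R4) (k : ℝ), IsPreconnected {x : S | ht a (π x) ≤ k}) :
  ∃ (M : Type) (_ : TopologicalSpace M) (_ : ChartedSpace (EuclideanSpace ℝ (Fin 2)) M)
    (_ : IsManifold (𝓡 2) ∞ M) (_ : CompactSpace M) (_ : ConnectedSpace M) (_ : T2Space M)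
    (f : M → EuclideanSpace ℝ (Fin 4)),
    ContMDiff (𝓡 2) 𝓘(ℝ, EuclideanSpace ℝ (Fin 4)) ∞ f ∧
    Topology.IsEmbedding f ∧
    (∀ x : M, Function.Injective (mfderiv (𝓡 2) 𝓘(ℝ, EuclideanSpace ℝ (Fin 4)) f x)) ∧
    (∃ (x : M) (k : ℕ), Odd k ∧ 3 ≤ k ∧
      Nat.card (FundamentalGroup M x →* Multiplicative (ZMod 2)) = 2 ^ k) ∧
    ∀ (u : EuclideanSpace ℝ (Fin 4)) (c : ℝ),
      IsPreconnected (f ⁻¹' {y : EuclideanSpace ℝ (Fin 4) | inner ℝ u y ≤ c}) := by
  let _ := charted C x₀ cov
  have hcomp : CompactSpace S := isCompact_iff_compactSpace.1 hS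
  have hman : IsManifold (𝓡 2) ∞ S := by
    apply isManifold_of_contDiffOn
    rintro _ _ ⟨i, rfl⟩ ⟨j, rfl⟩
    simp only [modelWithCornersSelf_coe, modelWithCornersSelf_coe_symm, Function.id_comp,
      Function.comp_id, preimage_id_eq, id, range_id, inter_univ]
    have hsub : ∀ w ∈ (((C i).e' x₀).symm ≫ₕ (C j).e' x₀).source,
        c2 w ∈ (C i).W ∧ (C i).ψ (c2 w) ∈ (C j).O := by
      intro w hw
      have h1 : c2 w ∈ (C i).W := hw.1
      have h2 : ((C i).par x₀ (c2 w) : E) ∈ (C j).O := hw.2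
      rw [(C i).par_val x₀ h1] at h2
      exact ⟨h1, h2⟩
    have : ContDiffOn ℝ ∞ (fun w => c2.symm ((C j).ρ ((C i).ψ (c2 w))))
        (((C i).e' x₀).symm ≫ₕ (C j).e' x₀).source := by
      refine c2.symm.contDiff.comp_contDiffOn ((C j).sρ.comp ((C i).sψ.comp
        c2.contDiff.contDiffOn fun w hw => (hsub w hw).1) fun w hw => (hsub w hw).2)
    refine this.congr fun w hw => ?_
    show c2.symm ((C j).ρ ((C i).par x₀ (c2 w))) = _
    rw [(C i).par_val x₀ (hsub w hw).1]
  let f : S → EuclideanSpace ℝ (Fin 4) := fun x => c4 (π x)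
  have fcont : Continuous f := c4.continuous.comp (π.continuous.comp continuous_subtype_val)
  have key : ∀ x : S, ∃ i, ∃ w ∈ (C i).W,
      extChartAt (𝓡 2) x x = c2.symm w ∧
      writtenInExtChartAt (𝓡 2) 𝓘(ℝ, EuclideanSpace ℝ (Fin 4)) x f =ᶠ[𝓝 (c2.symm w)]
        fun y => c4 (π ((C i).ψ (c2 y))) := by
    intro x
    have hx : (x : E) ∈ (C (cov x x.2).choose).O := (cov x x.2).choose_spec
    refine ⟨(cov x x.2).choose, (C _).ρ x, ((C _).inv x x.2 hx).1, rfl, ?_⟩
    have hW : c2 ⁻¹' (C (cov x x.2).choose).W ∈ 𝓝 (c2.symm ((C (cov x x.2).choose).ρ x)) :=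
      ((C _).oW.preimage c2.continuous).mem_nhds (by simpa using ((C _).inv x x.2 hx).1)
    filter_upwards [hW] with y hy
    show c4 (π ((C (cov x x.2).choose).par x₀ (c2 y))) = _
    rw [(C _).par_val x₀ hy]
  have sm : ∀ i, ∀ w ∈ (C i).W, ContDiffAt ℝ ∞ (fun y => c4 (π ((C i).ψ (c2 y)))) (c2.symm w) := by
    intro i w hw
    have h1 : ContDiffAt ℝ ∞ (C i).ψ (c2 (c2.symm w)) := by
      rw [c2.apply_symm_apply]; exact (C i).sψ.contDiffAt ((C i).oW.mem_nhds hw)
    exact c4.contDiff.contDiffAt.comp _ (π.contDiff.contDiffAt.comp _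
      (h1.comp _ c2.contDiff.contDiffAt))
  have fsm : ContMDiff (𝓡 2) 𝓘(ℝ, EuclideanSpace ℝ (Fin 4)) ∞ f := by
    intro x
    rw [contMDiffAt_iff]
    refine ⟨fcont.continuousAt, ?_⟩
    obtain ⟨i, w, hw, h1, h2⟩ := key x
    rw [h1]
    exact ((sm i w hw).congr_of_eventuallyEq h2).contDiffWithinAt
  have finj : Function.Injective f := by
    intro x y hxy
    have := congrArg d4 hxy
    simp only [f, d4_c4] at this
    exact Subtype.ext (inj x.2 y.2 this)
  refine ⟨S, inferInstance, inferInstance, hman, hcomp, conn, inferInstance, f, fsm,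
    (fcont.isClosedEmbedding finj).isEmbedding, ?_, ⟨x₀, 3, by decide, le_rfl, card⟩, ?_⟩
  · intro x
    obtain ⟨i, w, hw, h1, h2⟩ := key x
    rw [((fsm x).mdifferentiableAt (by simp)).mfderiv, h1]
    simp only [modelWithCornersSelf_coe, range_id, fderivWithin_univ]
    rw [h2.fderiv_eq]
    obtain ⟨r, hr, hev⟩ := imm i w hw
    have hg := (sm i w hw).differentiableAt (by simp)
    have hr' : DifferentiableAt ℝ (fun y => c2.symm (r (d4 y)))
        ((fun y => c4 (π ((C i).ψ (c2 y)))) (c2.symm w)) := by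
      refine c2.symm.differentiableAt.comp _ (DifferentiableAt.comp _ ?_ d4.differentiableAt)
      simpa [d4_c4] using hr
    have hc := HasFDerivAt.comp (f := fun y => c4 (π ((C i).ψ (c2 y)))) (c2.symm w)
      hr'.hasFDerivAt hg.hasFDerivAt
    have hid : ((fun y => c2.symm (r (d4 y))) ∘ fun y => c4 (π ((C i).ψ (c2 y)))) =ᶠ[𝓝 (c2.symm w)]
        id := by
      have ht : Tendsto c2 (𝓝 (c2.symm w)) (𝓝 w) := by
        simpa using c2.continuous.tendsto (c2.symm w)
      filter_upwards [ht.eventually hev] with y hy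
      simp [d4_c4, hy]
    have huniq := hc.unique ((hasFDerivAt_id _).congr_of_eventuallyEq hid)
    exact Function.LeftInverse.injective
      (g := fderiv ℝ (fun y => c2.symm (r (d4 y))) (c4 (π ((C i).ψ (c2 (c2.symm w))))))
      fun a => DFunLike.congr_fun huniq a
  · intro u c
    have := tpp (u 0, u 1, u 2, u 3) c
    convert this using 1
    ext x
    simp only [f, mem_preimage, mem_ofPred_eq, inner_c4, ht]

end Pool.Agent.P.MP_06bfdf_gt
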