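import Mathlib

/-! A smooth convex ramp, smooth maxima, and flattening of the saddle `x^2 - y^2`. -/

open Set Topology Filter
open scoped ContDiff

namespace Pool.Agent.P.MP_06bfdf_gt

lemma cvx_congr {f g : ℝ → ℝ} (h : ConvexOn ℝ univ f) (e : ∀ x, g x = f x) :
    ConvexOn ℝ univ g := by
  rwa [show g = f from funext e]

/-- Smooth step from 0 to 1 on `[-1, 1]`. -/
noncomputable def stp (t : ℝ) : ℝ := Real.smoothTransition ((t + 1) / 2)

lemma stp_smooth : ContDiff ℝ ∞ stp := by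
  unfold stp
  exact Real.smoothTransition.contDiff.comp (by fun_prop)

lemma stp_symm (t : ℝ) : stp t + stp (-t) = 1 := by
  unfold stp Real.smoothTransition
  have h1 : 1 - (t + 1) / 2 = (-t + 1) / 2 := by ring
  have h2 : 1 - (-t + 1) / 2 = (t + 1) / 2 := by ring
  have := Real.smoothTransition.pos_denom ((t + 1) / 2)
  rw [h1] at this
  rw [h1, h2, add_comm (expNegInvGlue ((-t + 1) / 2)), ← add_div, div_self this.ne']

lemma stp_mono : Monotone stp := fun a b h =>
  Real.smoothTransition.monotone (by linarith)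

/-- Smooth convex ramp: zero left of `-1`, the identity right of `1`. -/
noncomputable def ramp (s : ℝ) : ℝ := ∫ t in (-1 : ℝ)..s, stp t

lemma ramp_hasDerivAt (s : ℝ) : HasDerivAt ramp (stp s) s :=
  (stp_smooth.continuous.integral_hasStrictDerivAt (-1) s).hasDerivAt

lemma ramp_deriv : deriv ramp = stp := funext fun s => (ramp_hasDerivAt s).deriv

lemma ramp_diff : Differentiable ℝ ramp := fun s => (ramp_hasDerivAt s).differentiableAt

@[fun_prop] lemma ramp_smooth : ContDiff ℝ ∞ ramp := by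
  rw [contDiff_infty_iff_deriv, ramp_deriv]; exact ⟨ramp_diff, stp_smooth⟩

@[fun_prop] lemma ramp_cont : Continuous ramp := ramp_smooth.continuous

lemma ramp_of_le {s : ℝ} (hs : s ≤ -1) : ramp s = 0 := by
  unfold ramp
  rw [intervalIntegral.integral_congr (g := fun _ => 0)]
  · simp
  · intro t ht
    rw [uIcc_of_ge hs] at ht
    exact Real.smoothTransition.zero_of_nonpos (by linarith [ht.2])

lemma ramp_symm (s : ℝ) : ramp s = s + ramp (-s) := by
  have hd : ∀ t, HasDerivAt (fun t => ramp t - t - ramp (-t)) 0 t := by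
    intro t
    have h1 := ((ramp_hasDerivAt t).sub (hasDerivAt_id t)).sub
      ((ramp_hasDerivAt (-t)).comp t (hasDerivAt_neg t))
    exact h1.congr_deriv (by linarith [stp_symm t])
  have := is_const_of_deriv_eq_zero (fun t => (hd t).differentiableAt) (fun t => (hd t).deriv) s 0
  simp at this
  linarith

lemma ramp_of_ge {s : ℝ} (hs : 1 ≤ s) : ramp s = s := by
  rw [ramp_symm, ramp_of_le (by linarith), add_zero]

lemma ramp_mono : Monotone ramp :=
  monotone_of_deriv_nonneg ramp_diff fun s => by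
    rw [ramp_deriv]; exact Real.smoothTransition.nonneg _

lemma ramp_convex : ConvexOn ℝ univ ramp :=
  Monotone.convexOn_univ_of_deriv ramp_diff (by rw [ramp_deriv]; exact stp_mono)

lemma ramp_nonneg (s : ℝ) : 0 ≤ ramp s := by
  rcases le_total s (-1) with h | h
  · rw [ramp_of_le h]
  · rw [← ramp_of_le (le_refl (-1))]; exact ramp_mono h

lemma le_ramp (s : ℝ) : s ≤ ramp s := by
  rw [ramp_symm]; linarith [ramp_nonneg (-s)]

lemma ramp_lip {a b : ℝ} (h : a ≤ b) : ramp b ≤ ramp a + (b - a) := by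
  rw [ramp_symm a, ramp_symm b]; linarith [ramp_mono (neg_le_neg h)]

/-- Smooth maximum. -/
noncomputable def smax (a b : ℝ) : ℝ := b + ramp (a - b)

lemma smax_comm (a b : ℝ) : smax a b = smax b a := by
  unfold smax; rw [ramp_symm (a - b)]; simp; ring

lemma smax_left {a b : ℝ} (h : b + 1 ≤ a) : smax a b = a := by
  unfold smax; rw [ramp_of_ge (by linarith)]; ring

lemma smax_right {a b : ℝ} (h : a + 1 ≤ b) : smax a b = b := by
  rw [smax_comm, smax_left h]

lemma le_smax_left (a b : ℝ) : a ≤ smax a b := by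
  unfold smax; linarith [le_ramp (a - b)]

lemma smax_mono {a a' b b' : ℝ} (ha : a ≤ a') (hb : b ≤ b') : smax a b ≤ smax a' b' := by
  have h1 : smax a b ≤ smax a' b := by
    unfold smax; linarith [ramp_mono (show a - b ≤ a' - b by linarith)]
  have h2 : smax b a' ≤ smax b' a' := by
    unfold smax; linarith [ramp_mono (show b - a' ≤ b' - a' by linarith)]
  rw [smax_comm a' b] at h1
  rw [smax_comm a' b']
  exact h1.trans h2

lemma smax_convex {f g : ℝ → ℝ} (hf : ConvexOn ℝ univ f) (hg : ConvexOn ℝ univ g) :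
    ConvexOn ℝ univ fun x => smax (f x) (g x) := by
  refine ⟨convex_univ, fun x _ y _ a b ha hb hab => ?_⟩
  refine (smax_mono (hf.2 (mem_univ x) (mem_univ y) ha hb hab)
    (hg.2 (mem_univ x) (mem_univ y) ha hb hab)).trans ?_
  have := ramp_convex.2 (mem_univ (f x - g x)) (mem_univ (f y - g y)) ha hb hab
  simp only [smul_eq_mul, smax] at this ⊢
  have e : a * f x + b * f y - (a * g x + b * g y) = a * (f x - g x) + b * (f y - g y) := by ring
  rw [e]; nlinarith

/-- A smooth convex function equal to the absolute value outside `[-3, 3]` and at least 2. -/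
noncomputable def vee (t : ℝ) : ℝ := 2 + ramp (t - 2) + ramp (-t - 2)

@[fun_prop] lemma vee_smooth : ContDiff ℝ ∞ vee := by unfold vee; fun_prop

@[fun_prop] lemma vee_cont : Continuous vee := vee_smooth.continuous

lemma vee_neg (t : ℝ) : vee (-t) = vee t := by unfold vee; rw [neg_neg]; ring

lemma vee_of_ge {t : ℝ} (h : 3 ≤ t) : vee t = t := by
  unfold vee; rw [ramp_of_ge (by linarith), ramp_of_le (by linarith)]; ring

lemma vee_of_le {t : ℝ} (h : t ≤ -3) : vee t = -t := by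
  rw [← vee_neg, vee_of_ge (by linarith)]

lemma two_le_vee (t : ℝ) : 2 ≤ vee t := by
  unfold vee; linarith [ramp_nonneg (t - 2), ramp_nonneg (-t - 2)]

lemma vee_pos (t : ℝ) : 0 < vee t := by linarith [two_le_vee t]

lemma le_vee (t : ℝ) : t ≤ vee t := by
  unfold vee; linarith [le_ramp (t - 2), ramp_nonneg (-t - 2)]

lemma neg_le_vee (t : ℝ) : -t ≤ vee t := by rw [← vee_neg]; exact le_vee _

lemma vee_le_three {t : ℝ} (h1 : -3 ≤ t) (h2 : t ≤ 3) : vee t ≤ 3 := by
  unfold vee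
  have r1 : ramp 1 = 1 := ramp_of_ge le_rfl
  rcases le_total 0 t with h | h
  · rw [ramp_of_le (s := -t - 2) (by linarith)]
    linarith [ramp_mono (show t - 2 ≤ 1 by linarith)]
  · rw [ramp_of_le (s := t - 2) (by linarith)]
    linarith [ramp_mono (show -t - 2 ≤ 1 by linarith)]

lemma vee_cases {t : ℝ} (h : 3 < vee t) : (3 < t ∧ vee t = t) ∨ (t < -3 ∧ vee t = -t) := by
  by_cases h1 : 3 < t
  · exact Or.inl ⟨h1, vee_of_ge h1.le⟩
  by_cases h2 : t < -3
  · exact Or.inr ⟨h2, vee_of_le h2.le⟩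
  linarith [vee_le_three (not_lt.1 h2) (not_lt.1 h1)]

lemma vee_convex : ConvexOn ℝ univ vee := by
  refine ⟨convex_univ, fun x _ y _ a b ha hb hab => ?_⟩
  have h1 := ramp_convex.2 (mem_univ (x - 2)) (mem_univ (y - 2)) ha hb hab
  have h2 := ramp_convex.2 (mem_univ (-x - 2)) (mem_univ (-y - 2)) ha hb hab
  simp only [smul_eq_mul, vee] at h1 h2 ⊢
  have e1 : a * x + b * y - 2 = a * (x - 2) + b * (y - 2) := by linear_combination (-2) * hab.symm
  have e2 : -(a * x + b * y) - 2 = a * (-x - 2) + b * (-y - 2) := by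
    linear_combination (-2) * hab.symm
  rw [e1, e2]; nlinarith

lemma sq_convex : ConvexOn ℝ univ fun x : ℝ => x ^ 2 := Even.convexOn_pow (by decide)

lemma exists_cutoff (C δ : ℝ) (hC : 0 ≤ C) (hδ : 0 < δ) :
    ∃ (χ : ℝ → ℝ) (ρ : ℝ), δ ≤ ρ ∧ ContDiff ℝ ∞ χ ∧ (∀ s, 0 ≤ χ s ∧ χ s ≤ 1) ∧
      (∀ s, |s| ≤ δ → χ s = 1) ∧ (∀ s, ρ ≤ |s| → χ s = 0) ∧
      ConvexOn ℝ univ fun s => s ^ 2 - C * χ s := by
  let φ : ContDiffBump (0 : ℝ) := ⟨1, 2, one_pos, one_lt_two⟩
  have hφ : ContDiff ℝ ∞ φ := φ.contDiff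
  have hφ1 : ContDiff ℝ ∞ (deriv φ) := (contDiff_infty_iff_deriv.1 hφ).2
  have hφ2 : ContDiff ℝ ∞ (deriv (deriv φ)) := (contDiff_infty_iff_deriv.1 hφ1).2
  obtain ⟨M, hM⟩ := hφ2.continuous.bounded_above_of_compact_support
    φ.hasCompactSupport.deriv.deriv
  have hM0 : 0 ≤ M := (norm_nonneg _).trans (hM 0)
  set L := δ + C * M + 1 with hL
  have hCM : 0 ≤ C * M := mul_nonneg hC hM0
  have hL0 : 0 < L := by linarith
  have d1 : ∀ s, HasDerivAt (fun s => s ^ 2 - C * φ (s / L)) (2 * s - C * (deriv φ (s / L) / L)) s := by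
    intro s
    have h1 : HasDerivAt φ (deriv φ (s / L)) (s / L) :=
      (hφ.differentiable (by simp) _).hasDerivAt
    have h2 := ((hasDerivAt_pow 2 s).sub ((h1.comp s ((hasDerivAt_id s).div_const L)).const_mul C))
    exact h2.congr_deriv (by push_cast; ring)
  have d2 : ∀ s, HasDerivAt (fun s => 2 * s - C * (deriv φ (s / L) / L))
      (2 - C * (deriv (deriv φ) (s / L) / L / L)) s := by
    intro s
    have h1 : HasDerivAt (deriv φ) (deriv (deriv φ) (s / L)) (s / L) :=
      (hφ1.differentiable (by simp) _).hasDerivAt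
    have h2 := (((hasDerivAt_id s).const_mul 2).sub
      (((h1.comp s ((hasDerivAt_id s).div_const L)).div_const L).const_mul C))
    exact h2.congr_deriv (by ring)
  refine ⟨fun s => φ (s / L), 2 * L, by linarith, hφ.comp (by fun_prop),
    fun s => ⟨φ.nonneg, φ.le_one⟩, ?_, ?_, ?_⟩
  · intro s hs
    apply φ.one_of_mem_closedBall
    simp only [Metric.mem_closedBall, dist_zero_right, Real.norm_eq_abs, φ, abs_div,
      abs_of_pos hL0]
    rw [div_le_one hL0]; linarith
  · intro s hs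
    apply φ.zero_of_le_dist
    simp only [dist_zero_right, Real.norm_eq_abs, φ, abs_div, abs_of_pos hL0]
    rw [le_div_iff₀ hL0]; linarith
  · have e1 : deriv (fun s => s ^ 2 - C * φ (s / L)) = fun s => 2 * s - C * (deriv φ (s / L) / L) :=
      funext fun s => (d1 s).deriv
    refine convexOn_univ_of_deriv2_nonneg (fun s => (d1 s).differentiableAt) ?_ ?_
    · rw [e1]; exact fun s => (d2 s).differentiableAt
    · intro s
      show 0 ≤ deriv (deriv _) s
      rw [e1, (d2 s).deriv]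
      have h1 : deriv (deriv φ) (s / L) ≤ M := (le_abs_self _).trans (hM _)
      have h2 : C * (deriv (deriv φ) (s / L) / L / L) ≤ C * M / (L * L) := by
        rw [div_div, mul_div_assoc]
        exact mul_le_mul_of_nonneg_left (div_le_div_of_nonneg_right h1 (by positivity)) hC
      have h3 : C * M / (L * L) ≤ 1 := by
        rw [div_le_one (by positivity)]; nlinarith
      linarith

/-- Convexity of one slice of the flattened saddle. -/
lemma flatten_slice {f χ : ℝ → ℝ} {C δ β a : ℝ} (hf : ConvexOn ℝ univ f)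
    (hfδ : ∀ s, δ ≤ |s| → f s = s ^ 2) (hfge : ∀ s, s ^ 2 ≤ f s)
    (hχ : ∀ s, 0 ≤ χ s ∧ χ s ≤ 1) (hχ1 : ∀ s, |s| ≤ δ → χ s = 1)
    (hcv : ConvexOn ℝ univ fun s => s ^ 2 - C * χ s) (hβ0 : 0 ≤ β) (hβ : β ≤ C)
    (ha0 : 0 ≤ a) (ha1 : a ≤ 1) (hor : β = 0 ∨ a = 1) :
    ConvexOn ℝ univ fun x => x ^ 2 + (f x - x ^ 2) * a - β * χ x := by
  rcases hor with rfl | rfl
  · have := (sq_convex.smul (sub_nonneg.2 ha1)).add (hf.smul ha0)
    refine cvx_congr this fun x => ?_
    simp; ring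
  · have h2 : ConvexOn ℝ univ fun x => x ^ 2 - β * χ x := by
      rcases eq_or_lt_of_le (hβ0.trans hβ) with hC | hC
      · have : β = 0 := le_antisymm (hC ▸ hβ) hβ0
        simpa [this] using sq_convex
      · have := (sq_convex.smul (sub_nonneg.2 ((div_le_one hC).2 hβ))).add
          (hcv.smul (div_nonneg hβ0 hC.le))
        refine cvx_congr this fun x => ?_
        simp; field_simp; ring
    have h1 : ConvexOn ℝ univ fun x => f x - β := hf.add_const (-β)
    refine cvx_congr (h1.sup h2) fun x => ?_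
    simp only [Pi.sup_apply, mul_one]
    rcases le_total |x| δ with hx | hx
    · rw [hχ1 x hx, max_eq_left (by linarith [hfge x])]; ring
    · rw [hfδ x hx, max_eq_right (by nlinarith [(hχ x).2])]; ring

lemma exists_flatten {f g : ℝ → ℝ} {δ : ℝ} (hδ : 0 < δ) (sf : ContDiff ℝ ∞ f)
    (sg : ContDiff ℝ ∞ g) (cf : ConvexOn ℝ univ f) (cg : ConvexOn ℝ univ g)
    (ef : ∀ s, δ ≤ |s| → f s = s ^ 2) (eg : ∀ s, δ ≤ |s| → g s = s ^ 2)
    (gf : ∀ s, s ^ 2 ≤ f s) (gg : ∀ s, s ^ 2 ≤ g s) :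
    ∃ (F : ℝ × ℝ → ℝ) (ρ : ℝ), δ ≤ ρ ∧ ContDiff ℝ ∞ F ∧
      (∀ y, ConvexOn ℝ univ fun x => F (x, y)) ∧ (∀ x, ConvexOn ℝ univ fun y => -F (x, y)) ∧
      (∀ x y, |x| ≤ δ → |y| ≤ δ → F (x, y) = f x - g y) ∧
      (∀ x y, ρ ≤ |x| ∨ ρ ≤ |y| → F (x, y) = x ^ 2 - y ^ 2) := by
  have bd : ∀ h : ℝ → ℝ, Continuous h → (∀ s, δ ≤ |s| → h s = s ^ 2) →
      ∃ C, 0 ≤ C ∧ ∀ s, h s - s ^ 2 ≤ C := by
    intro h hc he
    obtain ⟨C, hC⟩ := (isCompact_Icc (a := -δ) (b := δ)).bddAbove_image
      (f := fun s => h s - s ^ 2) (by fun_prop)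
    refine ⟨max C 0, le_max_right _ _, fun s => ?_⟩
    rcases le_total |s| δ with hs | hs
    · exact (hC (mem_image_of_mem _ (abs_le.1 hs))).trans (le_max_left _ _)
    · rw [he s hs, sub_self]; exact le_max_right _ _
  obtain ⟨C₁, hC₁, b₁⟩ := bd f sf.continuous ef
  obtain ⟨C₂, hC₂, b₂⟩ := bd g sg.continuous eg
  obtain ⟨χ, ρ, hρ, sχ, hχ, hχ1, hχ0, hcv⟩ := exists_cutoff (C₁ + C₂) δ (by linarith) hδ
  refine ⟨fun p => p.1 ^ 2 - p.2 ^ 2 + (f p.1 - p.1 ^ 2) * χ p.2 - (g p.2 - p.2 ^ 2) * χ p.1, ρ,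
    hρ, by fun_prop, ?_, ?_, ?_, ?_⟩
  · intro y
    have := (flatten_slice (β := g y - y ^ 2) (a := χ y) cf ef gf hχ hχ1 hcv
      (by linarith [gg y]) (by linarith [b₂ y]) (hχ y).1 (hχ y).2 (by
        rcases le_total |y| δ with hy | hy
        · exact Or.inr (hχ1 y hy)
        · exact Or.inl (by rw [eg y hy, sub_self]))).add_const (-y ^ 2)
    refine cvx_congr this fun x => ?_
    simp; ring
  · intro x
    have := (flatten_slice (β := f x - x ^ 2) (a := χ x) cg eg gg hχ hχ1 hcv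
      (by linarith [gf x]) (by linarith [b₁ x]) (hχ x).1 (hχ x).2 (by
        rcases le_total |x| δ with hx | hx
        · exact Or.inr (hχ1 x hx)
        · exact Or.inl (by rw [ef x hx, sub_self]))).add_const (-x ^ 2)
    refine cvx_congr this fun y => ?_
    simp; ring
  · intro x y hx hy
    simp only [hχ1 x hx, hχ1 y hy]; ring
  · rintro x y (hx | hy)
    · simp only [hχ0 x hx, ef x (hρ.trans hx)]; ring
    · simp only [hχ0 y hy, eg y (hρ.trans hy)]; ring

/-- The two height functions of the inner part of the surface. -/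
structure Inner where
  u : ℝ × ℝ → ℝ
  v : ℝ × ℝ → ℝ
  ρ : ℝ
  a : ℝ
  hρ : 33 ≤ ρ
  ha : 2 * ρ ^ 2 ≤ a
  su : ContDiff ℝ ∞ u
  sv : ContDiff ℝ ∞ v
  ux : ∀ y, ConvexOn ℝ univ fun x => u (x, y)
  uy : ∀ x, ConvexOn ℝ univ fun y => -u (x, y)
  utr : ∀ x y, |x| ≤ 31 → |y| ≤ 31 → u (x, y) = vee x
  uout : ∀ x y, ρ ≤ |x| ∨ ρ ≤ |y| → u (x, y) = x ^ 2 - y ^ 2
  vp : ∀ x y, ConvexOn ℝ univ fun t => v (x + t, y + t)
  vm : ∀ x y, ConvexOn ℝ univ fun t => -v (x + t, y - t)
  vin : ∀ x y, |x| ≤ ρ + 1 → |y| ≤ ρ + 1 → v (x, y) = 0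
  vout : ∀ x y, a ≤ x ^ 2 + y ^ 2 → v (x, y) = 2 * x * y

lemma convexOn_affine {f : ℝ → ℝ} (hf : ConvexOn ℝ univ f) (a b : ℝ) :
    ConvexOn ℝ univ fun t => f (a + b * t) := by
  refine ⟨convex_univ, fun x _ y _ p q hp hq hpq => ?_⟩
  have := hf.2 (mem_univ (a + b * x)) (mem_univ (a + b * y)) hp hq hpq
  simp only [smul_eq_mul] at this ⊢
  have e : a + b * (p * x + q * y) = p * (a + b * x) + q * (a + b * y) := by
    linear_combination a * hpq.symm
  rw [e]; exact this

theorem exists_inner : Nonempty Inner := by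
  have smc : ∀ c : ℝ, ContDiff ℝ ∞ fun s : ℝ => smax (s ^ 2) c := fun c => by
    unfold smax; fun_prop
  have cvc : ∀ c : ℝ, ConvexOn ℝ univ fun s : ℝ => smax (s ^ 2) c := fun c =>
    smax_convex sq_convex (convexOn_const c convex_univ)
  obtain ⟨u, ρ, hρ, su, ux, uy, uin, uout⟩ := exists_flatten (δ := 33)
    (f := fun s => smax (s ^ 2) (1000 + vee s)) (g := fun s => smax (s ^ 2) 1000) (by norm_num)
    (by unfold smax; fun_prop) (smc _)
    (smax_convex sq_convex ((convexOn_const 1000 convex_univ).add vee_convex)) (cvc _)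
    (fun s hs => smax_left (by
      rcases le_abs'.1 hs with h | h
      · rw [vee_of_le (by linarith)]; nlinarith
      · rw [vee_of_ge (by linarith)]; nlinarith))
    (fun s hs => smax_left (by nlinarith [sq_abs s]))
    (fun s => le_smax_left _ _) (fun s => le_smax_left _ _)
  obtain ⟨F, ρ', hρ', sF, Fx, Fy, Fin, Fout⟩ := exists_flatten (δ := 2 * ρ + 3)
    (f := fun s => smax (s ^ 2) ((2 * ρ + 2) ^ 2 + 1))
    (g := fun s => smax (s ^ 2) ((2 * ρ + 2) ^ 2 + 1)) (by linarith) (smc _) (smc _) (cvc _) (cvc _)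
    (fun s hs => smax_left (by nlinarith [sq_abs s]))
    (fun s hs => smax_left (by nlinarith [sq_abs s]))
    (fun s => le_smax_left _ _) (fun s => le_smax_left _ _)
  refine ⟨⟨u, fun p => F (p.1 + p.2, p.1 - p.2) / 2, ρ, 2 * ρ ^ 2 + ρ' ^ 2, hρ,
    by nlinarith [sq_nonneg ρ'], su, by fun_prop, ux, uy, ?_, uout, ?_, ?_, ?_, ?_⟩⟩
  · intro x y hx hy
    rw [uin x y (by linarith) (by linarith), smax_right, smax_right]
    · ring
    · nlinarith [sq_abs y, abs_nonneg y]
    · nlinarith [sq_abs x, abs_nonneg x, two_le_vee x]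
  · intro x y
    have := (convexOn_affine (Fx (x - y)) (x + y) 2).smul (show (0 : ℝ) ≤ 1 / 2 by norm_num)
    refine cvx_congr this fun t => ?_
    simp only [smul_eq_mul]
    rw [show x + t + (y + t) = x + y + 2 * t by ring, show x + t - (y + t) = x - y by ring]
    ring
  · intro x y
    have := (convexOn_affine (Fy (x + y)) (x - y) 2).smul (show (0 : ℝ) ≤ 1 / 2 by norm_num)
    refine cvx_congr this fun t => ?_
    simp only [smul_eq_mul]
    rw [show x + t + (y - t) = x + y by ring, show x + t - (y - t) = x - y + 2 * t by ring]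
    ring
  · intro x y hx hy
    have h1 : |x + y| ≤ 2 * ρ + 2 := (abs_add_le x y).trans (by linarith)
    have h2 : |x - y| ≤ 2 * ρ + 2 := (abs_sub x y).trans (by linarith)
    simp only
    rw [Fin _ _ (by linarith) (by linarith), smax_right, smax_right]
    · ring
    · nlinarith [sq_abs (x - y), abs_nonneg (x - y)]
    · nlinarith [sq_abs (x + y), abs_nonneg (x + y)]
  · intro x y h
    simp only
    rw [Fout]
    · ring
    · by_contra hcon
      rw [not_or, not_le, not_le] at hcon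
      nlinarith [sq_abs (x - y), abs_nonneg (x - y), sq_abs (x + y), abs_nonneg (x + y),
        sq_nonneg ρ, hcon.1, hcon.2]

end Pool.Agent.P.MP_06bfdf_gt
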