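import Pool.Agent.P.MP_06bfdf_gt.Surf

/-! No point of the modified part of the surface is a strict local minimum of a height function. -/

open Set Topology Filter
open scoped ContDiff

namespace Pool.Agent.P.MP_06bfdf_gt

lemma exists_pm {Q : ℝ → Prop} (h : ∀ᶠ μ in 𝓝 (0 : ℝ), Q μ) : ∃ μ, 0 < μ ∧ Q μ ∧ Q (-μ) := by
  have h2 : ∀ᶠ μ in 𝓝 (0 : ℝ), Q (-μ) := by
    have : Tendsto (fun μ : ℝ => -μ) (𝓝 0) (𝓝 0) := by simpa using continuous_neg.tendsto (0 : ℝ)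
    exact this.eventually h
  obtain ⟨μ, h3, h4⟩ := (((h.and h2).filter_mono nhdsWithin_le_nhds).and
    (self_mem_nhdsWithin (s := Ioi (0 : ℝ)))).exists
  exact ⟨μ, h4, h3⟩

lemma mid_le {f : ℝ → ℝ} (hf : ConvexOn ℝ univ f) (x t : ℝ) : 2 * f x ≤ f (x + t) + f (x + -t) := by
  have := hf.2 (mem_univ (x + t)) (mem_univ (x + -t)) (show (0 : ℝ) ≤ 1 / 2 by norm_num)
    (show (0 : ℝ) ≤ 1 / 2 by norm_num) (by norm_num)
  simp only [smul_eq_mul] at this
  rw [show 1 / 2 * (x + t) + 1 / 2 * (x + -t) = x by ring] at this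
  linarith

lemma along {X : Type*} [TopologicalSpace X] {Q : X → Prop} {x : X} (h : ∀ᶠ y in 𝓝 x, Q y)
    (γ : ℝ → X) (hγ : ContinuousAt γ 0) (h0 : γ 0 = x) : ∀ᶠ μ in 𝓝 (0 : ℝ), Q (γ μ) := by
  have := hγ.tendsto
  rw [h0] at this
  exact this.eventually h

lemma vee_no_strict_min {a k k₀ t : ℝ} (hk₀ : 0 < k₀) (h0 : a * t + k * vee t + k₀ = 0) :
    ¬ ∀ᶠ s in 𝓝 t, s ≠ t → 0 < a * s + k * vee s + k₀ := by
  intro h
  rcases le_or_gt k 0 with hk | hk
  · obtain ⟨μ, hμ, h1, h2⟩ := exists_pm (along h (fun μ => t + μ) (by fun_prop) (by simp))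
    have h1 := h1 (by linarith)
    have h2 := h2 (by linarith)
    nlinarith [mid_le vee_convex t μ]
  have key : ∀ T, T ≠ t → a * T + k * vee T + k₀ ≤ 0 → False := by
    intro T hT hg
    obtain ⟨μ, hμ, ⟨h1, h3⟩, -⟩ := exists_pm ((along h (fun μ => (1 - μ) * t + μ * T)
      (by fun_prop) (by simp)).and (gt_mem_nhds (show (0 : ℝ) < 1 by norm_num)))
    have h1 := h1 (by
      intro e
      have : μ * (T - t) = 0 := by linarith
      rcases mul_eq_zero.1 this with h | h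
      · linarith
      · exact hT (by linarith))
    have h4 := vee_convex.2 (mem_univ t) (mem_univ T) (sub_nonneg.2 h3.le) hμ.le (by ring)
    simp only [smul_eq_mul] at h4
    nlinarith
  rcases lt_or_ge a (-k) with ha | ha
  · have hT : 0 < k₀ / (-(a + k)) := div_pos hk₀ (by linarith)
    refine key (k₀ / (-(a + k)) + |t| + 3) (by linarith [le_abs_self t]) ?_
    rw [vee_of_ge (by linarith [abs_nonneg t])]
    have : (a + k) * (k₀ / (-(a + k))) = -k₀ := by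
      have : a + k ≠ 0 := by linarith
      field_simp
    nlinarith [abs_nonneg t]
  rcases lt_or_ge k a with ha' | ha'
  · have hT : 0 < k₀ / (a - k) := div_pos hk₀ (by linarith)
    refine key (-(k₀ / (a - k) + |t| + 3)) (by linarith [neg_abs_le t]) ?_
    rw [vee_of_le (by linarith [abs_nonneg t])]
    have : (a - k) * (k₀ / (a - k)) = k₀ := by
      have : a - k ≠ 0 := by linarith
      field_simp
    nlinarith [abs_nonneg t]
  rcases le_total 0 t with ht | ht <;> nlinarith [le_vee t, neg_le_vee t]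

namespace Par

variable (P : Par)

/-- `x` is a strict local minimum on the surface of the height function with coefficients `a`. -/
def SLM (a : R4) (x : E7) : Prop := ∀ᶠ y in 𝓝 x, y ∈ P.M → y ≠ x → ht a x.1 < ht a y.1

lemma SLM.sig {P : Par} {a : R4} {p : R3} (h : P.SLM a (P.lift p)) :
    ∀ᶠ p' in 𝓝 p, p' ∈ P.Sig → p' ≠ p → ht a (P.lift p).1 < ht a (P.lift p').1 := by
  filter_upwards [(P.lift_cont.tendsto p).eventually h] with p' h1 h2 h3
  refine h1 (P.lift_mem h2) fun e => h3 ?_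
  rw [← P.th_lift p', e, P.th_lift]

lemma SLM.graph {P : Par} {a : R4} {w : R2} (hw : w ∈ G) (h : P.SLM a (P.lift (P.gr w))) :
    ∀ᶠ w' in 𝓝 w, w' ≠ w → ht a (P.lift (P.gr w)).1 < ht a (P.lift (P.gr w')).1 := by
  filter_upwards [(P.gr_cont.tendsto w).eventually h.sig, isOpen_G.mem_nhds hw] with w' h1 h2 h3
  refine h1 (Or.inl ⟨w', h2, rfl⟩) fun e => h3 ?_
  exact Prod.ext (congrArg (fun p : R3 => p.1) e) (congrArg (fun p : R3 => p.2.1) e)

lemma ht_gr (a : R4) (w : R2) : ht a (P.lift (P.gr w)).1 =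
    (a.1 * w.1 + a.2.1 * w.2 + a.2.2.1 * P.u w + a.2.2.2 * P.v w) / P.q (w.1 ^ 2 + w.2 ^ 2) := by
  simp only [ht, lift, Inner.gr]; ring

lemma ht_tube (a : R4) (t : ℝ) {c s : ℝ} (h : c ^ 2 + s ^ 2 = 1) (m : ℝ) :
    ht a (P.lift (tb t c s)).1 - m = (tb t c s).2.2 / P.B *
      (a.1 * (t / vee t) + rr t * (a.2.1 * c + m * P.B / 15 * s) + (a.2.2.1 - m * P.B / 15)) := by
  obtain ⟨f1, f2, f3, f4, f5⟩ := tb_facts t h
  obtain ⟨a1, a2, a4, a5, a3⟩ := OT_bounds f5.1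
  have hq : P.q ((tb t c s).1 ^ 2 + (tb t c s).2.1 ^ 2) = P.B :=
    P.q_in (by linarith [Inner.tube_small f5, P.b_ge])
  have hv : P.v ((tb t c s).1, (tb t c s).2.1) = 0 := by
    have := P.hρ
    exact P.vin _ _ (abs_le.2 ⟨by linarith [f5.1.2.1], by linarith [f5.1.2.2]⟩)
      (abs_le.2 ⟨by linarith, by linarith⟩)
  have e1 : (tb t c s).1 = t / vee t * (tb t c s).2.2 := rfl
  have e2 : (tb t c s).2.1 = rr t * c * (tb t c s).2.2 := rfl
  have hB := P.B_pos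
  simp only [ht, lift, hq, hv]
  rw [e1, e2]
  generalize (tb t c s).2.2 = z at *
  generalize t / vee t = X at *
  field_simp
  linear_combination (m * P.B) * f2

lemma tube_saddle (a : R4) {p : R3} (hp : p ∈ Tube) : ¬ P.SLM a (P.lift p) := by
  intro h
  obtain ⟨-, hcs, hp'⟩ := Tube_param hp
  generalize tau p = t at hp'
  generalize p.2.1 / nn p = c at hcs hp'
  generalize (p.2.2 - 15) / nn p = s at hcs hp'
  subst hp'
  have h := h.sig
  set m := ht a (P.lift (tb t c s)).1 with hm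
  have hB := P.B_pos
  have pos : ∀ t' c' s', c' ^ 2 + s' ^ 2 = 1 → m < ht a (P.lift (tb t' c' s')).1 →
      0 < a.1 * (t' / vee t') + rr t' * (a.2.1 * c' + m * P.B / 15 * s') +
        (a.2.2.1 - m * P.B / 15) := by
    intro t' c' s' h1 h2
    have h3 := P.ht_tube a t' h1 m
    have h4 : 0 < (tb t' c' s').2.2 / P.B := div_pos (tb_facts t' h1).1 hB
    exact (pos_iff_pos_of_mul_pos (by linarith)).1 h4
  have zero : a.1 * (t / vee t) + rr t * (a.2.1 * c + m * P.B / 15 * s) +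
      (a.2.2.1 - m * P.B / 15) = 0 := by
    have h3 := P.ht_tube a t hcs m
    have h4 : 0 < (tb t c s).2.2 / P.B := div_pos (tb_facts t hcs).1 hB
    rw [← hm, sub_self] at h3
    exact (mul_eq_zero.1 h3.symm).resolve_left h4.ne'
  generalize m * P.B / 15 = e at pos zero
  rcases le_or_gt 0 (a.2.1 * c + e * s) with hn | hn
  · have circ : ∀ μ : ℝ, (c * ((1 - μ ^ 2) / (1 + μ ^ 2)) - s * (2 * μ / (1 + μ ^ 2))) ^ 2 +
        (s * ((1 - μ ^ 2) / (1 + μ ^ 2)) + c * (2 * μ / (1 + μ ^ 2))) ^ 2 = 1 := by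
      intro μ; field_simp; linear_combination (1 + μ ^ 2) ^ 2 * hcs
    have cont : ContinuousAt (fun μ : ℝ => tb t
        (c * ((1 - μ ^ 2) / (1 + μ ^ 2)) - s * (2 * μ / (1 + μ ^ 2)))
        (s * ((1 - μ ^ 2) / (1 + μ ^ 2)) + c * (2 * μ / (1 + μ ^ 2)))) 0 := by
      have h1 : (1 : ℝ) + 0 ^ 2 ≠ 0 := by norm_num
      have h2 : 1 - rr t * (s * ((1 - 0 ^ 2) / (1 + 0 ^ 2)) + c * (2 * 0 / (1 + 0 ^ 2))) ≠ 0 := by
        linarith [den_pos t (circ 0)]
      unfold tb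
      fun_prop (disch := assumption)
    have ne : ∀ μ : ℝ, μ ≠ 0 → tb t
        (c * ((1 - μ ^ 2) / (1 + μ ^ 2)) - s * (2 * μ / (1 + μ ^ 2)))
        (s * ((1 - μ ^ 2) / (1 + μ ^ 2)) + c * (2 * μ / (1 + μ ^ 2))) ≠ tb t c s := by
      intro μ hμ e
      obtain ⟨f1, f2, -⟩ := tb_facts t hcs
      have g2 := (tb_facts t (circ μ)).2.1
      have g3 : (tb t (c * ((1 - μ ^ 2) / (1 + μ ^ 2)) - s * (2 * μ / (1 + μ ^ 2)))
        (s * ((1 - μ ^ 2) / (1 + μ ^ 2)) + c * (2 * μ / (1 + μ ^ 2)))).2.1 =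
        rr t * (c * ((1 - μ ^ 2) / (1 + μ ^ 2)) - s * (2 * μ / (1 + μ ^ 2))) *
        (tb t (c * ((1 - μ ^ 2) / (1 + μ ^ 2)) - s * (2 * μ / (1 + μ ^ 2)))
        (s * ((1 - μ ^ 2) / (1 + μ ^ 2)) + c * (2 * μ / (1 + μ ^ 2)))).2.2 := rfl
      have f3 : (tb t c s).2.1 = rr t * c * (tb t c s).2.2 := rfl
      rw [e] at g2 g3
      have hr := (rr_pos t).ne'
      have k1 := mul_left_cancel₀ hr (mul_right_cancel₀ f1.ne' (f2.symm.trans g2))
      have k2 := mul_left_cancel₀ hr (mul_right_cancel₀ f1.ne' (f3.symm.trans g3))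
      have k3 : (1 - μ ^ 2) / (1 + μ ^ 2) = 1 := by
        linear_combination -c * k2 - s * k1 + (1 - (1 - μ ^ 2) / (1 + μ ^ 2)) * hcs
      rw [div_eq_one_iff_eq (by positivity)] at k3
      have : 0 < μ ^ 2 := by positivity
      linarith
    obtain ⟨μ, hμ, h1, h2⟩ := exists_pm (along h _ cont (by simp))
    have h1 := pos _ _ _ (circ _) (h1 (Or.inr (tb_facts t (circ _)).2.2.2.2) (ne _ hμ.ne'))
    have h2 := pos _ _ _ (circ _) (h2 (Or.inr (tb_facts t (circ _)).2.2.2.2)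
      (ne _ (by linarith)))
    have hC : (1 - μ ^ 2) / (1 + μ ^ 2) ≤ 1 := by
      rw [div_le_one (by positivity)]; nlinarith
    rw [neg_sq, mul_neg, neg_div] at h2
    generalize (1 - μ ^ 2) / (1 + μ ^ 2) = C at *
    generalize 2 * μ / (1 + μ ^ 2) = S at *
    nlinarith [mul_nonneg (mul_nonneg (rr_pos t).le hn) (sub_nonneg.2 hC)]
  · have form : ∀ t', vee t' * (a.1 * (t' / vee t') + rr t' * (a.2.1 * c + e * s) + (a.2.2.1 - e)) =
        a.1 * t' + ((a.2.1 * c + e * s) / 2 + (a.2.2.1 - e)) * vee t' +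
          -(3 / 4 * (a.2.1 * c + e * s)) := by
      intro t'
      have := (vee_pos t').ne'
      unfold rr; field_simp; ring
    refine vee_no_strict_min (a := a.1) (k := (a.2.1 * c + e * s) / 2 + (a.2.2.1 - e))
      (k₀ := -(3 / 4 * (a.2.1 * c + e * s))) (t := t) (by linarith)
      (by rw [← form, zero, mul_zero]) ?_
    have cont : ContinuousAt (fun t' : ℝ => tb t' c s) t := by
      have h1 := (vee_pos t).ne'
      have h2 : 1 - rr t * s ≠ 0 := by linarith [den_pos t hcs]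
      unfold tb
      fun_prop (disch := assumption)
    filter_upwards [cont.tendsto.eventually h] with t' h1 h2
    rw [← form]
    refine mul_pos (vee_pos _) (pos _ _ _ hcs (h1 (Or.inr (tb_facts t' hcs).2.2.2.2) fun e => h2 ?_))
    rw [← (tb_facts t' hcs).2.2.2.1, e, (tb_facts t hcs).2.2.2.1]

lemma inner_saddle (a : R4) {w : R2} (hw : w ∈ G) (hb : w.1 ^ 2 + w.2 ^ 2 < P.b) :
    ¬ P.SLM a (P.lift (P.gr w)) := by
  intro h
  obtain ⟨x, y⟩ := w
  have hB := P.B_pos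
  have hc : ContinuousAt (fun w : R2 => w.1 ^ 2 + w.2 ^ 2) (x, y) := by fun_prop
  have h' : ∀ᶠ w' in 𝓝 (x, y), w' ≠ (x, y) →
      a.1 * x + a.2.1 * y + a.2.2.1 * P.u (x, y) + a.2.2.2 * P.v (x, y) <
      a.1 * w'.1 + a.2.1 * w'.2 + a.2.2.1 * P.u w' + a.2.2.2 * P.v w' := by
    filter_upwards [h.graph hw, hc.eventually (gt_mem_nhds hb)] with w' h1 h2 h3
    have := h1 h3
    rwa [P.ht_gr, P.ht_gr, P.q_in hb.le, P.q_in h2.le, div_lt_div_iff_of_pos_right hB] at this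
  by_cases hin : |x| ≤ P.ρ ∧ |y| ≤ P.ρ
  · have hv : ∀ᶠ w' in 𝓝 (x, y), P.v w' = 0 := by
      have c1 : ContinuousAt (fun w : R2 => |w.1|) (x, y) := by fun_prop
      have c2 : ContinuousAt (fun w : R2 => |w.2|) (x, y) := by fun_prop
      filter_upwards [c1.eventually (gt_mem_nhds (show |x| < P.ρ + 1 by linarith [hin.1])),
        c2.eventually (gt_mem_nhds (show |y| < P.ρ + 1 by linarith [hin.2]))] with w' h1 h2
      exact P.vin _ _ h1.le h2.le
    have hv0 := hv.self_of_nhds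
    rcases le_total a.2.2.1 0 with ha | ha
    · obtain ⟨μ, hμ, ⟨h1, h3⟩, h2, h4⟩ := exists_pm (along (h'.and hv) (fun μ => (x + μ, y))
        (by fun_prop) (by simp))
      have h1 := h1 (by simp [hμ.ne'])
      have h2 := h2 (by simp [hμ.ne'])
      rw [hv0, h3] at h1
      rw [hv0, h4] at h2
      nlinarith [mid_le (P.ux y) x μ]
    · obtain ⟨μ, hμ, ⟨h1, h3⟩, h2, h4⟩ := exists_pm (along (h'.and hv) (fun μ => (x, y + μ))
        (by fun_prop) (by simp))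
      have h1 := h1 (by simp [hμ.ne'])
      have h2 := h2 (by simp [hμ.ne'])
      rw [hv0, h3] at h1
      rw [hv0, h4] at h2
      nlinarith [mid_le (P.uy x) y μ]
  · have hu : ∀ᶠ w' in 𝓝 (x, y), P.u w' = w'.1 ^ 2 - w'.2 ^ 2 := by
      have c1 : ContinuousAt (fun w : R2 => |w.1|) (x, y) := by fun_prop
      have c2 : ContinuousAt (fun w : R2 => |w.2|) (x, y) := by fun_prop
      rw [not_and_or, not_le, not_le] at hin
      rcases hin with hin | hin
      · filter_upwards [c1.eventually (lt_mem_nhds hin)] with w' h1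
        exact P.uout _ _ (Or.inl h1.le)
      · filter_upwards [c2.eventually (lt_mem_nhds hin)] with w' h1
        exact P.uout _ _ (Or.inr h1.le)
    have hu0 := hu.self_of_nhds
    rcases le_total a.2.2.2 0 with ha | ha
    · obtain ⟨μ, hμ, ⟨h1, h3⟩, h2, h4⟩ := exists_pm (along (h'.and hu) (fun μ => (x + μ, y + μ))
        (by fun_prop) (by simp))
      have h1 := h1 (by simp [hμ.ne'])
      have h2 := h2 (by simp [hμ.ne'])
      rw [hu0, h3] at h1
      rw [hu0, h4] at h2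
      have := mid_le (P.vp x y) 0 μ
      simp only [add_zero, zero_add] at this
      nlinarith
    · obtain ⟨μ, hμ, ⟨h1, h3⟩, h2, h4⟩ := exists_pm (along (h'.and hu) (fun μ => (x + μ, y - μ))
        (by fun_prop) (by simp))
      have h1 := h1 (by simp [hμ.ne'])
      have h2 := h2 (by simp [hμ.ne'])
      rw [hu0, h3] at h1
      rw [hu0, h4] at h2
      have := mid_le (P.vm x y) 0 μ
      simp only [add_zero, zero_add, sub_zero] at this
      nlinarith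

lemma mid_saddle (a : R4) {w : R2} (hw : w ∈ G) (ha : P.a < w.1 ^ 2 + w.2 ^ 2)
    (hb : w.1 ^ 2 + w.2 ^ 2 ≤ P.b + 2) : ¬ P.SLM a (P.lift (P.gr w)) := by
  intro h
  obtain ⟨x, y⟩ := w
  simp only at ha hb
  have hc : ContinuousAt (fun w : R2 => w.1 ^ 2 + w.2 ^ 2) (x, y) := by fun_prop
  set m := ht a (P.lift (P.gr (x, y))).1 with hm
  have h' : ∀ᶠ w' in 𝓝 (x, y), w' ≠ (x, y) → m * P.q (w'.1 ^ 2 + w'.2 ^ 2) <
      a.1 * w'.1 + a.2.1 * w'.2 + a.2.2.1 * (w'.1 ^ 2 - w'.2 ^ 2) + a.2.2.2 * (2 * w'.1 * w'.2) := by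
    filter_upwards [h.graph hw, hc.eventually (lt_mem_nhds ha)] with w' h1 h2 h3
    have := h1 h3
    rwa [P.ht_gr a w', P.u_far h2.le, P.v_far h2.le, lt_div_iff₀ (P.q_pos _)] at this
  have h0 : m * P.q (x ^ 2 + y ^ 2) =
      a.1 * x + a.2.1 * y + a.2.2.1 * (x ^ 2 - y ^ 2) + a.2.2.2 * (2 * x * y) := by
    rw [hm, P.ht_gr, P.u_far (w := (x, y)) ha.le, P.v_far (w := (x, y)) ha.le,
      div_mul_cancel₀ _ (P.q_ne _)]
  clear_value m
  rcases le_or_gt 0 m with hm0 | hm0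
  · rcases le_total a.2.2.1 0 with h3 | h3
    · obtain ⟨μ, hμ, h1, h2⟩ := exists_pm (along h' (fun μ => (x + μ, y)) (by fun_prop) (by simp))
      have h1 := h1 (by simp [hμ.ne'])
      have h2 := h2 (by simp [hμ.ne'])
      have h4 := P.q_mid ((x + μ) ^ 2 + y ^ 2) ((x + -μ) ^ 2 + y ^ 2)
      have h5 := P.q_mono (show x ^ 2 + y ^ 2 ≤ ((x + μ) ^ 2 + y ^ 2 + ((x + -μ) ^ 2 + y ^ 2)) / 2 by
        nlinarith)
      simp only at h1 h2
      nlinarith [mul_nonneg hm0 (show 0 ≤ P.q ((x + μ) ^ 2 + y ^ 2) + P.q ((x + -μ) ^ 2 + y ^ 2) -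
        2 * P.q (x ^ 2 + y ^ 2) by linarith), mul_nonneg (neg_nonneg.2 h3) (sq_nonneg μ)]
    · obtain ⟨μ, hμ, h1, h2⟩ := exists_pm (along h' (fun μ => (x, y + μ)) (by fun_prop) (by simp))
      have h1 := h1 (by simp [hμ.ne'])
      have h2 := h2 (by simp [hμ.ne'])
      have h4 := P.q_mid (x ^ 2 + (y + μ) ^ 2) (x ^ 2 + (y + -μ) ^ 2)
      have h5 := P.q_mono (show x ^ 2 + y ^ 2 ≤ (x ^ 2 + (y + μ) ^ 2 + (x ^ 2 + (y + -μ) ^ 2)) / 2 by
        nlinarith)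
      simp only at h1 h2
      nlinarith [mul_nonneg hm0 (show 0 ≤ P.q (x ^ 2 + (y + μ) ^ 2) + P.q (x ^ 2 + (y + -μ) ^ 2) -
        2 * P.q (x ^ 2 + y ^ 2) by linarith), mul_nonneg h3 (sq_nonneg μ)]
  · have hs : 0 < x ^ 2 + y ^ 2 := by linarith [P.a_ge]
    have cont : ContinuousAt (fun μ : ℝ => ((1 - μ ^ 2)⁻¹ * (x - μ * y), (1 - μ ^ 2)⁻¹ * (y + μ * x))) 0 := by
      have : (1 : ℝ) - 0 ^ 2 ≠ 0 := by norm_num
      fun_prop (disch := assumption)
    have c2 : ContinuousAt (fun μ : ℝ => μ ^ 2) 0 := by fun_prop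
    obtain ⟨μ, hμ, ⟨h1, h3⟩, h2, -⟩ := exists_pm ((along h' _ cont (by simp)).and
      (c2.eventually (gt_mem_nhds (show (0 : ℝ) ^ 2 < 1 / 2 by norm_num))))
    rw [neg_sq] at h2
    have hμ2 : 0 < μ ^ 2 := by positivity
    have k0 : (1 - μ ^ 2)⁻¹ * (1 - μ ^ 2) = 1 := inv_mul_cancel₀ (by linarith)
    have k1 : 1 < (1 - μ ^ 2)⁻¹ := by rw [lt_inv_comm₀ one_pos (by linarith)]; linarith
    have k2 : (1 - μ ^ 2)⁻¹ ≤ 2 := by rw [inv_le_comm₀ (by linarith) two_pos]; linarith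
    generalize (1 - μ ^ 2)⁻¹ = κ at *
    have s1 : (κ * (x - μ * y)) ^ 2 + (κ * (y + μ * x)) ^ 2 = (x ^ 2 + y ^ 2) * (2 * κ ^ 2 - κ) := by
      linear_combination -(x ^ 2 + y ^ 2) * κ * k0
    have s2 : (κ * (x - -μ * y)) ^ 2 + (κ * (y + -μ * x)) ^ 2 = (x ^ 2 + y ^ 2) * (2 * κ ^ 2 - κ) := by
      linear_combination -(x ^ 2 + y ^ 2) * κ * k0
    have s3 : x ^ 2 + y ^ 2 < (x ^ 2 + y ^ 2) * (2 * κ ^ 2 - κ) := by
      have : 1 < 2 * κ ^ 2 - κ := by nlinarith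
      nlinarith
    have h1 := h1 (by
      intro e
      rw [Prod.mk.injEq] at e
      rw [e.1, e.2] at s1; linarith)
    have h2 := h2 (by
      intro e
      rw [Prod.mk.injEq] at e
      rw [e.1, e.2] at s2; linarith)
    simp only at h1 h2
    rw [s1] at h1
    rw [s2] at h2
    have q1 := P.q_lip s3.le
    have q2 := P.le_q (x ^ 2 + y ^ 2)
    have q3 : P.q ((x ^ 2 + y ^ 2) * (2 * κ ^ 2 - κ)) ≤ κ * P.q (x ^ 2 + y ^ 2) := by
      have hA : P.A = 4 * (P.b + 2) := rfl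
      have : (x ^ 2 + y ^ 2) * (2 * κ + 1) ≤ P.q (x ^ 2 + y ^ 2) := by nlinarith
      nlinarith
    have sum : a.1 * (κ * (x - μ * y)) + a.2.1 * (κ * (y + μ * x)) +
        a.2.2.1 * ((κ * (x - μ * y)) ^ 2 - (κ * (y + μ * x)) ^ 2) +
        a.2.2.2 * (2 * (κ * (x - μ * y)) * (κ * (y + μ * x))) +
        (a.1 * (κ * (x - -μ * y)) + a.2.1 * (κ * (y + -μ * x)) +
        a.2.2.1 * ((κ * (x - -μ * y)) ^ 2 - (κ * (y + -μ * x)) ^ 2) +
        a.2.2.2 * (2 * (κ * (x - -μ * y)) * (κ * (y + -μ * x)))) =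
        2 * κ * (m * P.q (x ^ 2 + y ^ 2)) := by
      rw [h0]
      linear_combination (2 * κ * (a.2.2.1 * (x ^ 2 - y ^ 2) + a.2.2.2 * (2 * x * y))) * k0
    nlinarith

theorem saddle (a : R4) {p : R3} (hp : p ∈ P.Sig) (hb : p.1 ^ 2 + p.2.1 ^ 2 ≤ P.b + 2) :
    ¬ P.SLM a (P.lift p) := by
  rcases hp with ⟨w, hw, rfl⟩ | hp
  · rcases lt_or_ge P.a (w.1 ^ 2 + w.2 ^ 2) with h | h
    · exact P.mid_saddle a hw h hb
    · exact P.inner_saddle a hw (h.trans_lt P.hb)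
  · exact P.tube_saddle a hp

end Par

end Pool.Agent.P.MP_06bfdf_gt
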