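import Pool.Agent.P.MP_06bfdf_gt.Ramp
import Pool.Agent.P.MP_06bfdf_gt.Mfld

/-! The plane with a handle, as a surface in 3-space. -/

open Set Topology Filter
open scoped ContDiff

namespace Pool.Agent.P.MP_06bfdf_gt

/-- The plane minus two closed ellipses. -/
def G : Set R2 :=
  {w | w.1 ^ 2 < 16 * (w.2 ^ 2 + (w.1 - 15) ^ 2) ∧ w.1 ^ 2 < 16 * (w.2 ^ 2 + (w.1 + 15) ^ 2)}

/-- The plane minus two open ellipses. -/
def Gc : Set R2 :=
  {w | w.1 ^ 2 ≤ 16 * (w.2 ^ 2 + (w.1 - 15) ^ 2) ∧ w.1 ^ 2 ≤ 16 * (w.2 ^ 2 + (w.1 + 15) ^ 2)}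

/-- An open region around the tube. -/
def OT : Set R3 := {p | 4 * (p.2.1 ^ 2 + (p.2.2 - 15) ^ 2) < p.2.2 ^ 2 ∧ -31 < p.1 ∧ p.1 < 31}

/-- A closed region around the curved part of the tube. -/
def KT : Set R3 := {p | 16 * (p.2.1 ^ 2 + (p.2.2 - 15) ^ 2) ≤ p.2.2 ^ 2 ∧ -31 ≤ p.1 ∧ p.1 ≤ 31}

/-- Distance to the axis of the tube. -/
noncomputable def nn (p : R3) : ℝ := √(p.2.1 ^ 2 + (p.2.2 - 15) ^ 2)

/-- The coordinate along the tube. -/
noncomputable def tau (p : R3) : ℝ := 3 * p.1 / (2 * p.2.2 - 4 * nn p)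

/-- The tube. -/
def Tube : Set R3 := {p | p ∈ OT ∧ vee (tau p) = 3 * p.2.2 / (2 * p.2.2 - 4 * nn p)}

/-- The radius function of the tube. -/
noncomputable def rr (t : ℝ) : ℝ := 1 / 2 - 3 / (4 * vee t)

/-- The parametrisation of the tube. -/
noncomputable def tb (t c s : ℝ) : R3 :=
  (t / vee t * (15 / (1 - rr t * s)), rr t * c * (15 / (1 - rr t * s)), 15 / (1 - rr t * s))

lemma isOpen_G : IsOpen G := by
  refine IsOpen.and (isOpen_lt ?_ ?_) (isOpen_lt ?_ ?_) <;> fun_prop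

lemma isClosed_Gc : IsClosed Gc := by
  refine IsClosed.and (isClosed_le ?_ ?_) (isClosed_le ?_ ?_) <;> fun_prop

lemma isOpen_OT : IsOpen OT := by
  refine IsOpen.and (isOpen_lt ?_ ?_) (IsOpen.and (isOpen_lt ?_ ?_) (isOpen_lt ?_ ?_)) <;> fun_prop

lemma isClosed_KT : IsClosed KT := by
  refine IsClosed.and (isClosed_le ?_ ?_)
    (IsClosed.and (isClosed_le ?_ ?_) (isClosed_le ?_ ?_)) <;> fun_prop

@[fun_prop] lemma nn_cont : Continuous nn := by unfold nn; fun_prop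

lemma nn_nonneg (p : R3) : 0 ≤ nn p := Real.sqrt_nonneg _

lemma nn_sq (p : R3) : nn p ^ 2 = p.2.1 ^ 2 + (p.2.2 - 15) ^ 2 := Real.sq_sqrt (by positivity)

lemma OT_bounds {p : R3} (h : p ∈ OT) :
    10 < p.2.2 ∧ p.2.2 < 30 ∧ -9 < p.2.1 ∧ p.2.1 < 9 ∧ 2 * nn p < p.2.2 := by
  obtain ⟨h1, -⟩ := h
  have a1 : 10 < p.2.2 := by nlinarith [sq_nonneg p.2.1]
  have a2 : p.2.2 < 30 := by nlinarith [sq_nonneg p.2.1]
  refine ⟨a1, a2, by nlinarith [sq_nonneg (p.2.2 - 20)], by nlinarith [sq_nonneg (p.2.2 - 20)], ?_⟩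
  rw [← nn_sq] at h1
  nlinarith [nn_nonneg p]

lemma rr_lt (t : ℝ) : rr t < 1 / 2 := by
  unfold rr; have := vee_pos t; have : 0 < 3 / (4 * vee t) := by positivity
  linarith

lemma rr_ge (t : ℝ) : 1 / 8 ≤ rr t := by
  unfold rr
  have h := two_le_vee t
  have : 3 / (4 * vee t) ≤ 3 / 8 := div_le_div_of_nonneg_left (by norm_num) (by norm_num) (by linarith)
  linarith

lemma rr_pos (t : ℝ) : 0 < rr t := by linarith [rr_ge t]

@[fun_prop] lemma rr_smooth : ContDiff ℝ ∞ rr := by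
  unfold rr
  refine contDiff_const.sub (contDiff_const.div (by fun_prop) fun t => ?_)
  have := vee_pos t; positivity

@[fun_prop] lemma rr_cont : Continuous rr := rr_smooth.continuous

lemma den_pos (t : ℝ) {c s : ℝ} (h : c ^ 2 + s ^ 2 = 1) : 1 / 2 < 1 - rr t * s := by
  have h1 : s ≤ 1 := by nlinarith [sq_nonneg c]
  nlinarith [rr_lt t, rr_pos t]

lemma tb_facts (t : ℝ) {c s : ℝ} (h : c ^ 2 + s ^ 2 = 1) :
    0 < (tb t c s).2.2 ∧ (tb t c s).2.2 - 15 = rr t * s * (tb t c s).2.2 ∧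
    nn (tb t c s) = rr t * (tb t c s).2.2 ∧ tau (tb t c s) = t ∧ tb t c s ∈ Tube := by
  have hd := den_pos t h
  have hv := vee_pos t
  have hr := rr_pos t
  have hr2 := rr_lt t
  set z := 15 / (1 - rr t * s) with hz
  have hz0 : 0 < z := by positivity
  have hz1 : z - 15 = rr t * s * z := by
    rw [hz]; field_simp; ring
  have hz2 : z < 30 := by rw [hz, div_lt_iff₀ (by linarith)]; linarith
  have e1 : (tb t c s).1 = t / vee t * z := rfl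
  have e2 : (tb t c s).2.1 = rr t * c * z := rfl
  have e3 : (tb t c s).2.2 = z := rfl
  have hsq : (tb t c s).2.1 ^ 2 + ((tb t c s).2.2 - 15) ^ 2 = (rr t * z) ^ 2 := by
    rw [e2, e3, hz1]; linear_combination (rr t * z) ^ 2 * h
  have hn : nn (tb t c s) = rr t * z := by
    unfold nn; rw [hsq, Real.sqrt_sq (by positivity)]
  have hden : 2 * z - 4 * (rr t * z) = 3 * z / vee t := by
    unfold rr; field_simp; ring
  have ht : tau (tb t c s) = t := by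
    unfold tau; rw [hn, e1, e3, hden]; field_simp
  have hx1 : t / vee t ≤ 1 := (div_le_one hv).2 (le_vee t)
  have hx2 : -1 ≤ t / vee t := by rw [le_div_iff₀ hv]; linarith [neg_le_vee t]
  refine ⟨hz0, hz1, hn, ht, ⟨?_, ?_, ?_⟩, ?_⟩
  · rw [hsq, e3]
    have : (rr t) ^ 2 < 1 / 4 := by nlinarith
    nlinarith [mul_pos hz0 hz0]
  · rw [e1]; nlinarith
  · rw [e1]; nlinarith
  · rw [ht, hn, e3, hden]; field_simp

lemma Tube_param {p : R3} (h : p ∈ Tube) : 0 < nn p ∧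
    (p.2.1 / nn p) ^ 2 + ((p.2.2 - 15) / nn p) ^ 2 = 1 ∧
    tb (tau p) (p.2.1 / nn p) ((p.2.2 - 15) / nn p) = p := by
  obtain ⟨hO, hv⟩ := h
  obtain ⟨a1, a2, -, -, a3⟩ := OT_bounds hO
  have hd : 0 < 2 * p.2.2 - 4 * nn p := by linarith
  have h2 := two_le_vee (tau p)
  rw [hv, le_div_iff₀ hd] at h2
  have hn : 0 < nn p := by linarith
  have hr : rr (tau p) = nn p / p.2.2 := by
    unfold rr; rw [hv]; field_simp; ring
  have hz : 15 / (1 - rr (tau p) * ((p.2.2 - 15) / nn p)) = p.2.2 := by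
    rw [hr]; field_simp; ring
  refine ⟨hn, ?_, ?_⟩
  · field_simp; rw [nn_sq]
  · unfold tb
    rw [hz, hr, hv]
    refine Prod.ext ?_ (Prod.ext ?_ rfl)
    · simp only [tau]; field_simp
    · simp only; field_simp

lemma tube_flat {p : R3} (h : p ∈ Tube) (hK : p ∉ KT) :
    (p.1 = p.2.2 ∨ p.1 = -p.2.2) ∧ p.2.2 ^ 2 < 16 * (p.2.1 ^ 2 + (p.2.2 - 15) ^ 2) := by
  obtain ⟨hO, hv⟩ := h
  obtain ⟨a1, a2, -, -, a3⟩ := OT_bounds hO
  have hd : 0 < 2 * p.2.2 - 4 * nn p := by linarith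
  have h1 : p.2.2 ^ 2 < 16 * (p.2.1 ^ 2 + (p.2.2 - 15) ^ 2) := by
    by_contra hc
    exact hK ⟨not_lt.1 hc, hO.2.1.le, hO.2.2.le⟩
  refine ⟨?_, h1⟩
  rw [← nn_sq] at h1
  have h2 : p.2.2 < 4 * nn p := by nlinarith [nn_nonneg p]
  have h3 : 3 < vee (tau p) := by rw [hv, lt_div_iff₀ hd]; linarith
  rcases vee_cases h3 with ⟨-, h4⟩ | ⟨-, h4⟩
  · left
    rw [hv, tau, div_left_inj' hd.ne'] at h4; linarith
  · right
    rw [hv, tau, ← neg_div, div_left_inj' hd.ne'] at h4; linarith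

lemma tube_abs_le {p : R3} (h : p ∈ Tube) : -p.2.2 ≤ p.1 ∧ p.1 ≤ p.2.2 := by
  obtain ⟨hO, hv⟩ := h
  obtain ⟨a1, a2, -, -, a3⟩ := OT_bounds hO
  have hd : 0 < 2 * p.2.2 - 4 * nn p := by linarith
  have h1 := le_vee (tau p)
  have h2 := neg_le_vee (tau p)
  rw [hv, tau] at h1 h2
  rw [div_le_div_iff_of_pos_right hd] at h1
  rw [← neg_div, div_le_div_iff_of_pos_right hd] at h2
  constructor <;> linarith

namespace Inner

variable (I : Inner)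

/-- The graph of `u`. -/
def gr (w : R2) : R3 := (w.1, w.2, I.u w)

/-- The plane with a handle. -/
def Sig : Set R3 := I.gr '' G ∪ Tube

@[fun_prop] lemma u_smooth : ContDiff ℝ ∞ I.u := I.su
@[fun_prop] lemma v_smooth : ContDiff ℝ ∞ I.v := I.sv
@[fun_prop] lemma u_cont : Continuous I.u := I.su.continuous
@[fun_prop] lemma v_cont : Continuous I.v := I.sv.continuous
@[fun_prop] lemma gr_smooth : ContDiff ℝ ∞ I.gr := by unfold gr; fun_prop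
@[fun_prop] lemma gr_cont : Continuous I.gr := I.gr_smooth.continuous

lemma u_flat {w : R2} (h1 : -31 ≤ w.1) (h2 : w.1 ≤ 31) (h3 : -31 ≤ w.2) (h4 : w.2 ≤ 31)
    (h5 : 3 < I.u w) : (3 < w.1 ∧ I.u w = w.1) ∨ (w.1 < -3 ∧ I.u w = -w.1) := by
  have := I.utr w.1 w.2 (abs_le.2 ⟨h1, h2⟩) (abs_le.2 ⟨h3, h4⟩)
  simp only [Prod.mk.eta] at this
  rw [this] at h5 ⊢
  exact vee_cases h5

lemma u_pos {x y : ℝ} (h1 : 3 ≤ x) (h2 : x ≤ 31) (h3 : -31 ≤ y) (h4 : y ≤ 31) : I.u (x, y) = x := by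
  rw [I.utr x y (abs_le.2 ⟨by linarith, h2⟩) (abs_le.2 ⟨h3, h4⟩), vee_of_ge h1]

lemma u_neg {x y : ℝ} (h1 : x ≤ -3) (h2 : -31 ≤ x) (h3 : -31 ≤ y) (h4 : y ≤ 31) :
    I.u (x, y) = -x := by
  rw [I.utr x y (abs_le.2 ⟨h2, by linarith⟩) (abs_le.2 ⟨h3, h4⟩), vee_of_le h1]

lemma gr_mem_Tube {w : R2} (hw : w ∈ Gc) (hO : I.gr w ∈ OT) : I.gr w ∈ Tube := by
  refine ⟨hO, ?_⟩
  obtain ⟨a1, a2, a4, a5, a3⟩ := OT_bounds hO
  have hd : 0 < 2 * (I.gr w).2.2 - 4 * nn (I.gr w) := by linarith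
  have hn := nn_sq (I.gr w)
  have hn0 := nn_nonneg (I.gr w)
  have e1 : (I.gr w).1 = w.1 := rfl
  have e2 : (I.gr w).2.1 = w.2 := rfl
  have e3 : (I.gr w).2.2 = I.u w := rfl
  obtain ⟨-, b1, b2⟩ := hO
  obtain ⟨g1, g2⟩ := hw
  unfold tau
  simp only [e1, e2, e3] at a1 a2 a3 a4 a5 hd hn b1 b2 ⊢
  rcases I.u_flat b1.le b2.le (by linarith) (by linarith) (by linarith) with ⟨-, h⟩ | ⟨-, h⟩
  · have h1 : I.u w ≤ 4 * nn (I.gr w) := by
      rw [← h] at g1; nlinarith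
    rw [← h, vee_of_ge]
    rw [le_div_iff₀ hd]; linarith
  · have h' : w.1 = -I.u w := by linarith
    have h1 : I.u w ≤ 4 * nn (I.gr w) := by
      rw [h'] at g2; nlinarith
    rw [h', vee_of_le]
    · ring
    · rw [div_le_iff₀ hd]; linarith

lemma tube_graph {p : R3} (h : p ∈ Tube) (hK : p ∉ KT) :
    (p.1, p.2.1) ∈ G ∧ I.gr (p.1, p.2.1) = p := by
  obtain ⟨h1, h2⟩ := tube_flat h hK
  obtain ⟨a1, a2, a4, a5, a3⟩ := OT_bounds h.1
  rcases h1 with h1 | h1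
  · refine ⟨⟨by simp only [h1]; exact h2, by simp only [h1]; nlinarith [sq_nonneg p.2.1]⟩, ?_⟩
    refine Prod.ext rfl (Prod.ext rfl ?_)
    show I.u (p.1, p.2.1) = p.2.2
    rw [I.u_pos (by linarith) (by linarith) (by linarith) (by linarith), h1]
  · refine ⟨⟨by simp only [h1]; nlinarith [sq_nonneg p.2.1], by simp only [h1]; nlinarith⟩, ?_⟩
    refine Prod.ext rfl (Prod.ext rfl ?_)
    show I.u (p.1, p.2.1) = p.2.2
    rw [I.u_neg (by linarith) (by linarith) (by linarith) (by linarith), h1, neg_neg]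

lemma gr_not_mem_KT {w : R2} (hw : w ∈ G) : I.gr w ∉ KT := by
  rintro ⟨k1, k2, k3⟩
  obtain ⟨g1, g2⟩ := hw
  simp only [gr] at k1 k2 k3
  have a1 : 12 ≤ I.u w := by nlinarith [sq_nonneg w.2]
  have a2 : I.u w ≤ 20 := by nlinarith [sq_nonneg w.2]
  have a3 : -31 ≤ w.2 := by nlinarith [sq_nonneg (I.u w - 15)]
  have a4 : w.2 ≤ 31 := by nlinarith [sq_nonneg (I.u w - 15)]
  rcases I.u_flat k2 k3 a3 a4 (by linarith) with ⟨-, h⟩ | ⟨-, h⟩
  · rw [h] at k1; linarith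
  · rw [h] at k1; nlinarith

lemma gr_mem_Sig {w : R2} (hw : w ∈ Gc) : I.gr w ∈ I.Sig := by
  by_cases h : w ∈ G
  · exact Or.inl ⟨w, h, rfl⟩
  refine Or.inr (I.gr_mem_Tube hw ?_)
  obtain ⟨g1, g2⟩ := hw
  simp only [G, mem_ofPred_eq, not_and_or, not_lt] at h
  rcases h with h | h
  · have a1 : 12 ≤ w.1 := by nlinarith [sq_nonneg w.2]
    have a2 : w.1 ≤ 20 := by nlinarith [sq_nonneg w.2]
    have a3 : -31 ≤ w.2 := by nlinarith [sq_nonneg (w.1 - 15)]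
    have a4 : w.2 ≤ 31 := by nlinarith [sq_nonneg (w.1 - 15)]
    have hu : I.u w = w.1 := I.u_pos (by linarith) (by linarith) a3 a4
    refine ⟨?_, by simp only [gr]; linarith, by simp only [gr]; linarith⟩
    simp only [gr, hu]; nlinarith
  · have a1 : w.1 ≤ -12 := by nlinarith [sq_nonneg w.2]
    have a2 : -20 ≤ w.1 := by nlinarith [sq_nonneg w.2]
    have a3 : -31 ≤ w.2 := by nlinarith [sq_nonneg (w.1 + 15)]
    have a4 : w.2 ≤ 31 := by nlinarith [sq_nonneg (w.1 + 15)]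
    have hu : I.u w = -w.1 := I.u_neg (by linarith) (by linarith) a3 a4
    refine ⟨?_, by simp only [gr]; linarith, by simp only [gr]; linarith⟩
    simp only [gr, hu]; nlinarith

lemma tube_of_mem {p : R3} (hp : p ∈ I.Sig) (hO : p ∈ OT) : p ∈ Tube := by
  rcases hp with ⟨w, hw, rfl⟩ | hp
  · exact I.gr_mem_Tube ⟨hw.1.le, hw.2.le⟩ hO
  · exact hp

lemma graph_of_mem {p : R3} (hp : p ∈ I.Sig) (hK : p ∉ KT) :
    (p.1, p.2.1) ∈ G ∧ I.gr (p.1, p.2.1) = p := by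
  rcases hp with ⟨w, hw, rfl⟩ | hp
  · exact ⟨hw, rfl⟩
  · exact I.tube_graph hp hK

/-- The graph chart. -/
def cG : Chart I.Sig where
  W := G
  O := KTᶜ
  ψ := I.gr
  ρ p := (p.1, p.2.1)
  oW := isOpen_G
  oO := isClosed_KT.isOpen_compl
  sψ := I.gr_smooth.contDiffOn
  sρ := by fun_prop
  mem w hw := ⟨Or.inl ⟨w, hw, rfl⟩, I.gr_not_mem_KT hw, rfl⟩
  inv _ hp hK := I.graph_of_mem hp hK

lemma circ (t ε : ℝ) (hε : ε ^ 2 = 1) :
    (2 * t / (1 + t ^ 2)) ^ 2 + (ε * ((1 - t ^ 2) / (1 + t ^ 2))) ^ 2 = 1 := by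
  rw [mul_pow, hε]; field_simp; ring

/-- The tube charts: for `ε = 1` the bottom line is missing, for `ε = -1` the top line. -/
noncomputable def cT (ε : ℝ) (hε : ε ^ 2 = 1) : Chart I.Sig where
  W := univ
  O := OT ∩ {p | 0 < nn p + ε * (p.2.2 - 15)}
  ψ w := tb w.1 (2 * w.2 / (1 + w.2 ^ 2)) (ε * ((1 - w.2 ^ 2) / (1 + w.2 ^ 2)))
  ρ p := (tau p, p.2.1 / (nn p + ε * (p.2.2 - 15)))
  oW := isOpen_univ
  oO := isOpen_OT.inter (isOpen_lt (by fun_prop) (by fun_prop))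
  sψ := by
    have h1 : ∀ w : R2, 1 + w.2 ^ 2 ≠ 0 := fun w => by positivity
    have h2 : ∀ w : R2, vee w.1 ≠ 0 := fun w => (vee_pos _).ne'
    have h3 : ∀ w : R2, 1 - rr w.1 * (ε * ((1 - w.2 ^ 2) / (1 + w.2 ^ 2))) ≠ 0 := fun w => by
      linarith [den_pos w.1 (circ w.2 ε hε)]
    unfold tb
    apply ContDiff.contDiffOn
    fun_prop (disch := assumption)
  sρ := by
    have hn : ContDiffOn ℝ ∞ nn (OT ∩ {p | 0 < nn p + ε * (p.2.2 - 15)}) := by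
      refine ContDiffOn.sqrt (by fun_prop) fun p hp h0 => ?_
      have h1 : p.2.2 - 15 = 0 := by nlinarith [sq_nonneg p.2.1, sq_nonneg (p.2.2 - 15)]
      have h2 : nn p = 0 := by unfold nn; rw [h0]; simp
      have := hp.2
      simp [h1, h2] at this
    have h1 : ∀ p ∈ OT ∩ {p : R3 | 0 < nn p + ε * (p.2.2 - 15)}, 2 * p.2.2 - 4 * nn p ≠ 0 :=
      fun p hp => by linarith [(OT_bounds hp.1).2.2.2.2]
    have h2 : ∀ p ∈ OT ∩ {p : R3 | 0 < nn p + ε * (p.2.2 - 15)}, nn p + ε * (p.2.2 - 15) ≠ 0 :=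
      fun p hp => hp.2.ne'
    unfold tau
    fun_prop (disch := assumption)
  mem w _ := by
    obtain ⟨f1, f2, f3, f4, f5⟩ := tb_facts w.1 (circ w.2 ε hε)
    have hr := rr_pos w.1
    have key : nn (tb w.1 (2 * w.2 / (1 + w.2 ^ 2)) (ε * ((1 - w.2 ^ 2) / (1 + w.2 ^ 2)))) +
        ε * ((tb w.1 (2 * w.2 / (1 + w.2 ^ 2)) (ε * ((1 - w.2 ^ 2) / (1 + w.2 ^ 2)))).2.2 - 15) =
        rr w.1 * (2 / (1 + w.2 ^ 2)) *
          (tb w.1 (2 * w.2 / (1 + w.2 ^ 2)) (ε * ((1 - w.2 ^ 2) / (1 + w.2 ^ 2)))).2.2 := by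
      rw [f2, f3]
      generalize (tb w.1 (2 * w.2 / (1 + w.2 ^ 2)) (ε * ((1 - w.2 ^ 2) / (1 + w.2 ^ 2)))).2.2 = z
      field_simp
      linear_combination (1 - w.2 ^ 2) * z * hε
    refine ⟨Or.inr f5, ⟨f5.1, ?_⟩, Prod.ext f4 ?_⟩
    · simp only [mem_ofPred_eq]; rw [key]; positivity
    · simp only
      rw [key]
      have e2 : (tb w.1 (2 * w.2 / (1 + w.2 ^ 2)) (ε * ((1 - w.2 ^ 2) / (1 + w.2 ^ 2)))).2.1 =
        rr w.1 * (2 * w.2 / (1 + w.2 ^ 2)) *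
          (tb w.1 (2 * w.2 / (1 + w.2 ^ 2)) (ε * ((1 - w.2 ^ 2) / (1 + w.2 ^ 2)))).2.2 := rfl
      rw [e2]
      generalize (tb w.1 (2 * w.2 / (1 + w.2 ^ 2)) (ε * ((1 - w.2 ^ 2) / (1 + w.2 ^ 2)))).2.2 = z at f1
      field_simp
  inv p hp hO := by
    refine ⟨mem_univ _, ?_⟩
    obtain ⟨h1, h2, h3⟩ := Tube_param (I.tube_of_mem hp hO.1)
    have h4 : 0 < nn p + ε * (p.2.2 - 15) := hO.2
    have h5 := nn_sq p
    have h6 : 1 + (p.2.1 / (nn p + ε * (p.2.2 - 15))) ^ 2 =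
        2 * nn p / (nn p + ε * (p.2.2 - 15)) := by
      field_simp
      linear_combination -h5 + (p.2.2 - 15) ^ 2 * hε
    have h7 : 1 - (p.2.1 / (nn p + ε * (p.2.2 - 15))) ^ 2 =
        2 * (ε * (p.2.2 - 15)) / (nn p + ε * (p.2.2 - 15)) := by
      field_simp
      linear_combination h5 - (p.2.2 - 15) ^ 2 * hε
    simp only
    rw [h6, h7]
    convert h3 using 2
    · field_simp
    · field_simp
      linear_combination (p.2.2 - 15) * hε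

lemma one_sq : (1 : ℝ) ^ 2 = 1 := by norm_num
lemma neg_one_sq' : (-1 : ℝ) ^ 2 = 1 := by norm_num

lemma Sig_cover {p : R3} (hp : p ∈ I.Sig) :
    p ∈ I.cG.O ∨ p ∈ (I.cT 1 one_sq).O ∨ p ∈ (I.cT (-1) neg_one_sq').O := by
  rcases hp with ⟨w, hw, rfl⟩ | hp
  · exact Or.inl (I.gr_not_mem_KT hw)
  · right
    have h := (Tube_param hp).1
    by_cases h1 : 0 ≤ p.2.2 - 15
    · exact Or.inl ⟨hp.1, by simp only [mem_ofPred_eq]; linarith⟩
    · exact Or.inr ⟨hp.1, by simp only [mem_ofPred_eq]; linarith⟩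

/-- The curved part of the tube. -/
def core : Set R3 :=
  (fun x : R3 => tb x.1 x.2.1 x.2.2) '' (Icc (-3) 3 ×ˢ {c : R2 | c.1 ^ 2 + c.2 ^ 2 = 1})

lemma isCompact_disc (r : ℝ) : IsCompact {c : R2 | c.1 ^ 2 + c.2 ^ 2 ≤ r} := by
  refine Metric.isCompact_of_isClosed_isBounded (isClosed_le (by fun_prop) (by fun_prop)) ?_
  refine (Metric.isBounded_closedBall (x := (0 : R2)) (r := r + 1)).subset fun c hc => ?_
  simp only [mem_ofPred_eq] at hc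
  simp only [mem_closedBall_zero_iff, Prod.norm_def, Real.norm_eq_abs, max_le_iff, abs_le]
  refine ⟨⟨?_, ?_⟩, ?_, ?_⟩ <;> nlinarith [sq_nonneg c.1, sq_nonneg c.2, sq_nonneg (c.1 - 1),
    sq_nonneg (c.1 + 1), sq_nonneg (c.2 - 1), sq_nonneg (c.2 + 1)]

lemma isCompact_core : IsCompact core := by
  refine (isCompact_Icc.prod ((isCompact_disc 1).of_isClosed_subset
    (isClosed_eq (by fun_prop) (by fun_prop)) fun c hc => le_of_eq hc)).image_of_continuousOn ?_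
  have h2 : ∀ x ∈ Icc (-3 : ℝ) 3 ×ˢ {c : R2 | c.1 ^ 2 + c.2 ^ 2 = 1}, vee x.1 ≠ 0 :=
    fun w _ => (vee_pos _).ne'
  have h3 : ∀ x ∈ Icc (-3 : ℝ) 3 ×ˢ {c : R2 | c.1 ^ 2 + c.2 ^ 2 = 1}, 1 - rr x.1 * x.2.2 ≠ 0 :=
    fun x hx => by linarith [den_pos x.1 hx.2]
  unfold tb
  fun_prop (disch := assumption)

lemma tube_small {p : R3} (h : p ∈ Tube) : p.1 ^ 2 + p.2.1 ^ 2 < 1089 := by
  obtain ⟨a1, a2, a4, a5, a3⟩ := OT_bounds h.1
  obtain ⟨-, b1, b2⟩ := h.1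
  nlinarith

lemma isCompact_Sig_inter {r : ℝ} (hr : 1089 ≤ r) :
    IsCompact (I.Sig ∩ {p | p.1 ^ 2 + p.2.1 ^ 2 ≤ r}) := by
  have : I.Sig ∩ {p | p.1 ^ 2 + p.2.1 ^ 2 ≤ r} =
      I.gr '' (Gc ∩ {c : R2 | c.1 ^ 2 + c.2 ^ 2 ≤ r}) ∪ core := by
    apply Subset.antisymm
    · rintro p ⟨hp, hpr⟩
      by_cases hK : p ∈ KT
      · right
        have hT : p ∈ Tube := by
          rcases hp with ⟨w, hw, rfl⟩ | hp
          · exact (I.gr_not_mem_KT hw hK).elim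
          · exact hp
        obtain ⟨h1, h2, h3⟩ := Tube_param hT
        obtain ⟨a1, a2, a4, a5, a3⟩ := OT_bounds hT.1
        have h4 : vee (tau p) ≤ 3 := by
          have k1 := hK.1
          rw [← nn_sq] at k1
          have : 4 * nn p ≤ p.2.2 := by nlinarith
          rw [hT.2, div_le_iff₀ (by linarith)]; linarith
        exact ⟨(tau p, p.2.1 / nn p, (p.2.2 - 15) / nn p),
          ⟨⟨by linarith [neg_le_vee (tau p)], by linarith [le_vee (tau p)]⟩, h2⟩, h3⟩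
      · obtain ⟨h1, h2⟩ := I.graph_of_mem hp hK
        exact Or.inl ⟨_, ⟨⟨h1.1.le, h1.2.le⟩, hpr⟩, h2⟩
    · rintro p (⟨w, hw, rfl⟩ | ⟨x, hx, rfl⟩)
      · exact ⟨I.gr_mem_Sig hw.1, hw.2⟩
      · have := (tb_facts x.1 hx.2).2.2.2.2
        exact ⟨Or.inr this, by simp only [mem_ofPred_eq]; linarith [tube_small this]⟩
  rw [this]
  exact (((isCompact_disc r).inter_left isClosed_Gc).image I.gr_cont).union isCompact_core

end Inner

end Pool.Agent.P.MP_06bfdf_gt
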