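import Pool.Agent.P.MP_06bfdf_gt.Sigma

/-! The closed surface: the plane with a handle, completed by the line at infinity. -/

open Set Topology Filter
open scoped ContDiff

namespace Pool.Agent.P.MP_06bfdf_gt

abbrev E7 := R4 × R3

/-- All parameters of the surface. -/
structure Par extends Inner where
  b : ℝ
  hb : a < b
  hK : ∀ p ∈ toInner.Sig, p.1 ^ 2 + p.2.1 ^ 2 ≤ a → p.2.2 ^ 2 + v (p.1, p.2.1) ^ 2 < b ^ 2

lemma Inner.a_ge (I : Inner) : 2178 ≤ I.a := by nlinarith [I.hρ, I.ha]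

theorem exists_par : Nonempty Par := by
  obtain ⟨I⟩ := exists_inner
  have ha := I.a_ge
  obtain ⟨K, hK⟩ := (I.isCompact_Sig_inter (r := I.a) (by linarith)).bddAbove_image
    (f := fun p : R3 => p.2.2 ^ 2 + I.v (p.1, p.2.1) ^ 2) (by fun_prop)
  refine ⟨⟨I, I.a + |K| + 1, by linarith [abs_nonneg K], fun p hp hpa => ?_⟩⟩
  have := hK (mem_image_of_mem _ ⟨hp, hpa⟩)
  nlinarith [abs_nonneg K, le_abs_self K]

namespace Par

variable (P : Par)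

/-- The coefficient of the Veronese surface. -/
def A : ℝ := 4 * (P.b + 2)
/-- The constant value of the denominator near the origin. -/
def B : ℝ := P.A + P.b + 1
/-- The denominator. -/
noncomputable def q (s : ℝ) : ℝ := P.B + ramp (s - P.b - 1)

lemma b_ge : 2178 < P.b := by linarith [P.a_ge, P.hb]
lemma A_pos : 0 < P.A := by unfold A; linarith [P.b_ge]
lemma B_pos : 0 < P.B := by unfold B; linarith [P.b_ge, P.A_pos]
lemma b_lt_B : P.b < P.B := by unfold B; linarith [P.A_pos]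
lemma B_le_q (s : ℝ) : P.B ≤ P.q s := by unfold q; linarith [ramp_nonneg (s - P.b - 1)]
lemma q_pos (s : ℝ) : 0 < P.q s := P.B_pos.trans_le (P.B_le_q s)
lemma q_ne (s : ℝ) : P.q s ≠ 0 := (P.q_pos s).ne'
lemma le_q (s : ℝ) : P.A + s ≤ P.q s := by unfold q B; linarith [le_ramp (s - P.b - 1)]
lemma q_in {s : ℝ} (h : s ≤ P.b) : P.q s = P.B := by
  unfold q; rw [ramp_of_le (by linarith), add_zero]
lemma q_out {s : ℝ} (h : P.b + 2 ≤ s) : P.q s = P.A + s := by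
  unfold q B; rw [ramp_of_ge (by linarith)]; ring
lemma q_mono {s t : ℝ} (h : s ≤ t) : P.q s ≤ P.q t := by
  unfold q; linarith [ramp_mono (show s - P.b - 1 ≤ t - P.b - 1 by linarith)]
lemma q_lip {s t : ℝ} (h : s ≤ t) : P.q t ≤ P.q s + (t - s) := by
  unfold q; linarith [ramp_lip (show s - P.b - 1 ≤ t - P.b - 1 by linarith)]
lemma q_mid (s t : ℝ) : 2 * P.q ((s + t) / 2) ≤ P.q s + P.q t := by
  have := ramp_convex.2 (mem_univ (s - P.b - 1)) (mem_univ (t - P.b - 1))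
    (show (0 : ℝ) ≤ 1 / 2 by norm_num) (show (0 : ℝ) ≤ 1 / 2 by norm_num) (by norm_num)
  simp only [smul_eq_mul] at this
  unfold q
  rw [show (s + t) / 2 - P.b - 1 = 1 / 2 * (s - P.b - 1) + 1 / 2 * (t - P.b - 1) by ring]
  linarith
@[fun_prop] lemma q_smooth : ContDiff ℝ ∞ P.q := by unfold q; fun_prop
@[fun_prop] lemma q_cont : Continuous P.q := P.q_smooth.continuous

/-- The map from 3-space to the ambient space. -/
noncomputable def lift (p : R3) : E7 :=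
  ((p.1 / P.q (p.1 ^ 2 + p.2.1 ^ 2), p.2.1 / P.q (p.1 ^ 2 + p.2.1 ^ 2),
    p.2.2 / P.q (p.1 ^ 2 + p.2.1 ^ 2), P.v (p.1, p.2.1) / P.q (p.1 ^ 2 + p.2.1 ^ 2)),
   (1 / P.q (p.1 ^ 2 + p.2.1 ^ 2), p.1 ^ 2 / P.q (p.1 ^ 2 + p.2.1 ^ 2),
    p.2.1 ^ 2 / P.q (p.1 ^ 2 + p.2.1 ^ 2)))

/-- The denominator of the Veronese map. -/
def D (s : R3) : ℝ := P.A * s.2.2 ^ 2 + s.1 ^ 2 + s.2.1 ^ 2

/-- The Veronese map. -/
noncomputable def J (s : R3) : E7 :=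
  ((s.1 * s.2.2 / P.D s, s.2.1 * s.2.2 / P.D s, (s.1 ^ 2 - s.2.1 ^ 2) / P.D s,
    2 * s.1 * s.2.1 / P.D s), (s.2.2 ^ 2 / P.D s, s.1 ^ 2 / P.D s, s.2.1 ^ 2 / P.D s))

/-- The closed surface. -/
def M : Set E7 := P.lift '' P.Sig ∪ P.J '' {s | s.2.2 = 0 ∧ 0 < s.1 ^ 2 + s.2.1 ^ 2}

/-- The inverse of `lift`. -/
noncomputable def th (x : E7) : R3 := (x.1.1 / x.2.1, x.1.2.1 / x.2.1, x.1.2.2.1 / x.2.1)

@[fun_prop] lemma lift_smooth : ContDiff ℝ ∞ P.lift := by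
  have h : ∀ p : R3, P.q (p.1 ^ 2 + p.2.1 ^ 2) ≠ 0 := fun p => P.q_ne _
  unfold lift
  fun_prop (disch := assumption)

@[fun_prop] lemma lift_cont : Continuous P.lift := P.lift_smooth.continuous

lemma D_pos {s : R3} (h : 0 < s.1 ^ 2 + s.2.1 ^ 2) : 0 < P.D s := by
  unfold D; nlinarith [P.A_pos, sq_nonneg s.2.2]

lemma D_pos' {s : R3} (h : s ≠ 0) : 0 < P.D s := by
  by_cases h1 : 0 < s.1 ^ 2 + s.2.1 ^ 2
  · exact P.D_pos h1
  have h2 : s.1 = 0 := by nlinarith [sq_nonneg s.1, sq_nonneg s.2.1]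
  have h3 : s.2.1 = 0 := by nlinarith [sq_nonneg s.1, sq_nonneg s.2.1]
  have h4 : s.2.2 ≠ 0 := fun h4 => h (Prod.ext h2 (Prod.ext h3 h4))
  have := P.A_pos
  unfold D; rw [h2, h3]; positivity

lemma J_smooth : ContDiffOn ℝ ∞ P.J {s | s ≠ 0} := by
  have h : ∀ s ∈ {s : R3 | s ≠ 0}, P.A * s.2.2 ^ 2 + s.1 ^ 2 + s.2.1 ^ 2 ≠ 0 :=
    fun s hs => (P.D_pos' hs).ne'
  unfold J D
  fun_prop (disch := assumption)

lemma ne_zero_of_pos {s : R3} (h : 0 < s.1 ^ 2 + s.2.1 ^ 2) : s ≠ 0 := by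
  rintro rfl; simp at h

lemma J_smul {s : R3} (hs : s ≠ 0) {c : ℝ} (hc : c ≠ 0) :
    P.J (c * s.1, c * s.2.1, c * s.2.2) = P.J s := by
  have h1 := (P.D_pos' hs).ne'
  have h2 : P.D (c * s.1, c * s.2.1, c * s.2.2) = c ^ 2 * P.D s := by unfold D; ring
  simp only [J, h2, Prod.mk.injEq]
  refine ⟨⟨?_, ?_, ?_, ?_⟩, ?_, ?_, ?_⟩ <;> field_simp

lemma th_lift (p : R3) : th (P.lift p) = p := by
  have := P.q_ne (p.1 ^ 2 + p.2.1 ^ 2)
  simp only [th, lift]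
  refine Prod.ext ?_ (Prod.ext ?_ ?_) <;> simp only <;> field_simp

lemma lift_t_pos (p : R3) : 0 < (P.lift p).2.1 := one_div_pos.2 (P.q_pos _)

lemma far_mem_G {w : R2} (h : 1089 ≤ w.1 ^ 2 + w.2 ^ 2) : w ∈ G := by
  constructor <;> nlinarith [sq_nonneg (w.1 - 16), sq_nonneg (w.1 + 16), sq_nonneg w.2]

lemma u_far {w : R2} (h : P.a ≤ w.1 ^ 2 + w.2 ^ 2) : P.u w = w.1 ^ 2 - w.2 ^ 2 := by
  apply P.uout
  by_contra hc
  rw [not_or, not_le, not_le] at hc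
  nlinarith [P.ha, sq_abs w.1, sq_abs w.2, abs_nonneg w.1, abs_nonneg w.2, hc.1, hc.2]

lemma v_far {w : R2} (h : P.a ≤ w.1 ^ 2 + w.2 ^ 2) : P.v w = 2 * w.1 * w.2 := P.vout _ _ h

lemma J_eq_lift {w : R2} (h : P.b + 2 ≤ w.1 ^ 2 + w.2 ^ 2) :
    P.J (w.1, w.2, 1) = P.lift (P.gr w) := by
  have ha : P.a ≤ w.1 ^ 2 + w.2 ^ 2 := by linarith [P.hb]
  simp only [J, lift, D, Inner.gr, P.q_out h, Prod.mk.eta, P.u_far ha, P.v_far ha, one_pow,
    mul_one, add_assoc]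

lemma Sig_far {p : R3} (hp : p ∈ P.Sig) (h : 1089 ≤ p.1 ^ 2 + p.2.1 ^ 2) :
    P.gr (p.1, p.2.1) = p := by
  rcases hp with ⟨w, -, rfl⟩ | hp
  · rfl
  · linarith [Inner.tube_small hp]

lemma lift_mem {p : R3} (hp : p ∈ P.Sig) : P.lift p ∈ P.M := Or.inl ⟨p, hp, rfl⟩

lemma J_mem {s : R3} (h0 : 0 < s.1 ^ 2 + s.2.1 ^ 2)
    (h : (P.b + 2) * s.2.2 ^ 2 ≤ s.1 ^ 2 + s.2.1 ^ 2) : P.J s ∈ P.M := by
  by_cases hz : s.2.2 = 0
  · exact Or.inr ⟨s, ⟨hz, h0⟩, rfl⟩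
  have h1 : P.b + 2 ≤ (s.2.2⁻¹ * s.1) ^ 2 + (s.2.2⁻¹ * s.2.1) ^ 2 := by
    have : 0 < s.2.2 ^ 2 := by positivity
    rw [show (s.2.2⁻¹ * s.1) ^ 2 + (s.2.2⁻¹ * s.2.1) ^ 2 = (s.1 ^ 2 + s.2.1 ^ 2) / s.2.2 ^ 2 by
      field_simp, le_div_iff₀ this]
    exact h
  rw [← P.J_smul (ne_zero_of_pos h0) (inv_ne_zero hz), inv_mul_cancel₀ hz,
    P.J_eq_lift (w := (s.2.2⁻¹ * s.1, s.2.2⁻¹ * s.2.1)) h1]
  exact P.lift_mem (Or.inl ⟨_, far_mem_G (by linarith [P.b_ge]), rfl⟩)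

lemma M_cases {x : E7} (hx : x ∈ P.M) :
    (∃ p ∈ P.Sig, p.1 ^ 2 + p.2.1 ^ 2 ≤ P.b + 2 ∧ x = P.lift p) ∨
    (∃ s : R3, (P.b + 2) * s.2.2 ^ 2 < s.1 ^ 2 + s.2.1 ^ 2 ∧ x = P.J s) := by
  rcases hx with ⟨p, hp, rfl⟩ | ⟨s, hs, rfl⟩
  · rcases le_or_gt (p.1 ^ 2 + p.2.1 ^ 2) (P.b + 2) with h | h
    · exact Or.inl ⟨p, hp, h, rfl⟩
    · refine Or.inr ⟨(p.1, p.2.1, 1), by simpa using h, ?_⟩
      rw [P.J_eq_lift (w := (p.1, p.2.1)) h.le, P.Sig_far hp (by linarith [P.b_ge])]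
  · exact Or.inr ⟨s, by simpa [hs.1] using hs.2, rfl⟩

lemma M_fin {x : E7} (hx : x ∈ P.M) (ht : 0 < x.2.1) : th x ∈ P.Sig ∧ P.lift (th x) = x := by
  rcases hx with ⟨p, hp, rfl⟩ | ⟨s, hs, rfl⟩
  · rw [P.th_lift]; exact ⟨hp, rfl⟩
  · simp [J, hs.1] at ht

lemma isCompact_M : IsCompact P.M := by
  have h1 := (P.isCompact_Sig_inter (r := P.b + 2) (by linarith [P.b_ge])).image P.lift_cont
  have h2 : IsCompact (({c : R2 | c.1 ^ 2 + c.2 ^ 2 = 1} ×ˢ Icc (-1 : ℝ) 1) ∩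
      {x : R2 × ℝ | (P.b + 2) * x.2 ^ 2 ≤ 1}) :=
    (((Inner.isCompact_disc 1).of_isClosed_subset (isClosed_eq (by fun_prop) (by fun_prop))
      fun c hc => le_of_eq hc).prod isCompact_Icc).inter_right
      (isClosed_le (by fun_prop) (by fun_prop))
  have h3 := h2.image_of_continuousOn (f := fun x : R2 × ℝ => P.J (x.1.1, x.1.2, x.2))
    (P.J_smooth.continuousOn.comp (by fun_prop) fun x hx =>
      ne_zero_of_pos (by have := hx.1.1; simp only [mem_ofPred_eq] at this ⊢; linarith))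
  convert h1.union h3 using 1
  apply Subset.antisymm
  · intro x hx
    rcases P.M_cases hx with ⟨p, hp, h, rfl⟩ | ⟨s, hs, rfl⟩
    · exact Or.inl ⟨p, ⟨hp, h⟩, rfl⟩
    · right
      have hb := P.b_ge
      have h0 : 0 < s.1 ^ 2 + s.2.1 ^ 2 := lt_of_le_of_lt (by positivity) hs
      set r := √(s.1 ^ 2 + s.2.1 ^ 2)
      have hr : 0 < r := Real.sqrt_pos.2 h0
      have hr2 : r ^ 2 = s.1 ^ 2 + s.2.1 ^ 2 := Real.sq_sqrt h0.le
      have h4 : (P.b + 2) * (r⁻¹ * s.2.2) ^ 2 ≤ 1 := by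
        rw [show (P.b + 2) * (r⁻¹ * s.2.2) ^ 2 = (P.b + 2) * s.2.2 ^ 2 / r ^ 2 by field_simp,
          div_le_one (by positivity), hr2]
        exact hs.le
      refine ⟨((r⁻¹ * s.1, r⁻¹ * s.2.1), r⁻¹ * s.2.2), ⟨⟨?_, ?_, ?_⟩, h4⟩,
        P.J_smul (ne_zero_of_pos h0) (inv_ne_zero hr.ne')⟩
      · simp only [mem_ofPred_eq]; field_simp; exact hr2.symm
      · simp only; nlinarith [sq_nonneg (r⁻¹ * s.2.2)]
      · simp only; nlinarith [sq_nonneg (r⁻¹ * s.2.2)]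
  · rintro x (⟨p, hp, rfl⟩ | ⟨y, hy, rfl⟩)
    · exact P.lift_mem hp.1
    · have h5 := hy.1.1
      have h6 := hy.2
      simp only [mem_ofPred_eq] at h5 h6
      exact P.J_mem (by simp only; linarith) (by simp only; linarith)

/-- A chart of the plane with a handle gives a chart of the closed surface. -/
noncomputable def up (C : Chart P.Sig) : Chart P.M where
  W := C.W
  O := {x | 0 < x.2.1} ∩ th ⁻¹' C.O
  ψ := P.lift ∘ C.ψ
  ρ := C.ρ ∘ th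
  oW := C.oW
  oO := by
    refine ContinuousOn.isOpen_inter_preimage ?_ (isOpen_lt (by fun_prop) (by fun_prop)) C.oO
    have h : ∀ x ∈ {x : E7 | 0 < x.2.1}, x.2.1 ≠ 0 := fun x hx => ne_of_gt hx
    unfold th
    fun_prop (disch := assumption)
  sψ := P.lift_smooth.comp_contDiffOn C.sψ
  sρ := by
    refine C.sρ.comp ?_ fun x hx => hx.2
    have h : ∀ x ∈ {x : E7 | 0 < x.2.1} ∩ th ⁻¹' C.O, x.2.1 ≠ 0 := fun x hx => ne_of_gt hx.1
    unfold th at h ⊢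
    fun_prop (disch := assumption)
  mem w hw := by
    obtain ⟨h1, h2, h3⟩ := C.mem w hw
    refine ⟨P.lift_mem h1, ⟨P.lift_t_pos _, ?_⟩, ?_⟩
    · simpa [P.th_lift] using h2
    · simpa [P.th_lift] using h3
  inv x hx hO := by
    obtain ⟨h1, h2⟩ := P.M_fin hx hO.1
    obtain ⟨h3, h4⟩ := C.inv _ h1 hO.2
    exact ⟨h3, by simp only [Function.comp]; rw [h4, h2]⟩

lemma M_J_of {x : E7} (hx : x ∈ P.M)
    (h : (P.b + 2) * x.2.1 < x.2.2.1 ∨ (P.b + 2) * x.2.1 < x.2.2.2) :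
    ∃ s : R3, 0 < s.1 ^ 2 + s.2.1 ^ 2 ∧ x = P.J s := by
  rcases P.M_cases hx with ⟨p, hp, h1, rfl⟩ | ⟨s, hs, rfl⟩
  · exfalso
    have := P.q_pos (p.1 ^ 2 + p.2.1 ^ 2)
    simp only [lift, mul_one_div, div_lt_div_iff_of_pos_right this] at h
    rcases h with h | h <;> nlinarith [sq_nonneg p.1, sq_nonneg p.2.1]
  · exact ⟨s, lt_of_le_of_lt (by have := P.b_ge; positivity) hs, rfl⟩

/-- First chart at infinity. -/
noncomputable def cN1 : Chart P.M where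
  W := {w | (P.b + 2) * w.2 ^ 2 < 1}
  O := {x | (P.b + 2) * x.2.1 < x.2.2.1 ∧ 0 < x.2.2.1}
  ψ w := P.J (1, w.1, w.2)
  ρ x := (x.1.2.2.2 / (2 * x.2.2.1), x.1.1 / x.2.2.1)
  oW := isOpen_lt (by fun_prop) (by fun_prop)
  oO := by refine IsOpen.and (isOpen_lt ?_ ?_) (isOpen_lt ?_ ?_) <;> fun_prop
  sψ := P.J_smooth.comp (by fun_prop) fun w _ => ne_zero_of_pos (by positivity)
  sρ := by
    have h : ∀ x ∈ {x : E7 | (P.b + 2) * x.2.1 < x.2.2.1 ∧ 0 < x.2.2.1}, x.2.2.1 ≠ 0 :=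
      fun x hx => hx.2.ne'
    have h' : ∀ x ∈ {x : E7 | (P.b + 2) * x.2.1 < x.2.2.1 ∧ 0 < x.2.2.1}, 2 * x.2.2.1 ≠ 0 :=
      fun x hx => by linarith [hx.2]
    fun_prop (disch := assumption)
  mem w hw := by
    simp only [mem_ofPred_eq] at hw
    have hD := P.D_pos (s := (1, w.1, w.2)) (by positivity)
    refine ⟨P.J_mem (by positivity) (by simp only; nlinarith [sq_nonneg w.1]), ⟨?_, ?_⟩, ?_⟩
    · simp only [J, ← mul_div_assoc, div_lt_div_iff_of_pos_right hD]; linarith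
    · simp only [J]; positivity
    · simp only [J]; refine Prod.ext ?_ ?_ <;> simp only <;> field_simp
  inv x hx hO := by
    obtain ⟨s, hs, rfl⟩ := P.M_J_of hx (Or.inl hO.1)
    have hD := P.D_pos hs
    obtain ⟨h1, h2⟩ := hO
    simp only [J, ← mul_div_assoc, div_lt_div_iff_of_pos_right hD] at h1 h2
    have h3 : s.1 ≠ 0 := by rintro h; simp [h] at h2
    have e1 : (P.J s).1.2.2.2 / (2 * (P.J s).2.2.1) = s.1⁻¹ * s.2.1 := by
      simp only [J]; field_simp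
    have e2 : (P.J s).1.1 / (P.J s).2.2.1 = s.1⁻¹ * s.2.2 := by
      simp only [J]; field_simp
    simp only [e1, e2, mem_ofPred_eq]
    refine ⟨?_, ?_⟩
    · rw [show (P.b + 2) * (s.1⁻¹ * s.2.2) ^ 2 = (P.b + 2) * s.2.2 ^ 2 / s.1 ^ 2 by field_simp,
        div_lt_one (by positivity)]
      exact h1
    · rw [← P.J_smul (ne_zero_of_pos hs) (inv_ne_zero h3), inv_mul_cancel₀ h3]

/-- Second chart at infinity. -/
noncomputable def cN2 : Chart P.M where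
  W := {w | (P.b + 2) * w.2 ^ 2 < 1}
  O := {x | (P.b + 2) * x.2.1 < x.2.2.2 ∧ 0 < x.2.2.2}
  ψ w := P.J (w.1, 1, w.2)
  ρ x := (x.1.2.2.2 / (2 * x.2.2.2), x.1.2.1 / x.2.2.2)
  oW := isOpen_lt (by fun_prop) (by fun_prop)
  oO := by refine IsOpen.and (isOpen_lt ?_ ?_) (isOpen_lt ?_ ?_) <;> fun_prop
  sψ := P.J_smooth.comp (by fun_prop) fun w _ => ne_zero_of_pos (by positivity)
  sρ := by
    have h : ∀ x ∈ {x : E7 | (P.b + 2) * x.2.1 < x.2.2.2 ∧ 0 < x.2.2.2}, x.2.2.2 ≠ 0 :=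
      fun x hx => hx.2.ne'
    have h' : ∀ x ∈ {x : E7 | (P.b + 2) * x.2.1 < x.2.2.2 ∧ 0 < x.2.2.2}, 2 * x.2.2.2 ≠ 0 :=
      fun x hx => by linarith [hx.2]
    fun_prop (disch := assumption)
  mem w hw := by
    simp only [mem_ofPred_eq] at hw
    have hD := P.D_pos (s := (w.1, 1, w.2)) (by positivity)
    refine ⟨P.J_mem (by positivity) (by simp only; nlinarith [sq_nonneg w.1]), ⟨?_, ?_⟩, ?_⟩
    · simp only [J, ← mul_div_assoc, div_lt_div_iff_of_pos_right hD]; linarith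
    · simp only [J]; positivity
    · simp only [J]; refine Prod.ext ?_ ?_ <;> simp only <;> field_simp
  inv x hx hO := by
    obtain ⟨s, hs, rfl⟩ := P.M_J_of hx (Or.inr hO.1)
    have hD := P.D_pos hs
    obtain ⟨h1, h2⟩ := hO
    simp only [J, ← mul_div_assoc, div_lt_div_iff_of_pos_right hD] at h1 h2
    have h3 : s.2.1 ≠ 0 := by rintro h; simp [h] at h2
    have e1 : (P.J s).1.2.2.2 / (2 * (P.J s).2.2.2) = s.2.1⁻¹ * s.1 := by
      simp only [J]; field_simp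
    have e2 : (P.J s).1.2.1 / (P.J s).2.2.2 = s.2.1⁻¹ * s.2.2 := by
      simp only [J]; field_simp
    simp only [e1, e2, mem_ofPred_eq]
    refine ⟨?_, ?_⟩
    · rw [show (P.b + 2) * (s.2.1⁻¹ * s.2.2) ^ 2 = (P.b + 2) * s.2.2 ^ 2 / s.2.1 ^ 2 by field_simp,
        div_lt_one (by positivity)]
      exact h1
    · rw [← P.J_smul (ne_zero_of_pos hs) (inv_ne_zero h3), inv_mul_cancel₀ h3]

/-- The five charts. -/
noncomputable def atl : Fin 5 → Chart P.M :=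
  ![P.up P.cG, P.up (P.cT 1 Inner.one_sq), P.up (P.cT (-1) Inner.neg_one_sq'), P.cN1, P.cN2]

lemma inf_cover {x : E7} (hx : x ∈ P.M) : 0 < x.2.1 ∨ x ∈ P.cN1.O ∨ x ∈ P.cN2.O := by
  rcases hx with ⟨p, hp, rfl⟩ | ⟨s, ⟨hs, h0⟩, rfl⟩
  · exact Or.inl (P.lift_t_pos p)
  · right
    have hD := P.D_pos h0
    by_cases h1 : s.1 = 0
    · have h2 : 0 < s.2.1 ^ 2 / P.D s := div_pos (by simpa [h1] using h0) hD
      exact Or.inr ⟨by simpa [J, hs] using h2, h2⟩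
    · have h2 : 0 < s.1 ^ 2 / P.D s := by positivity
      exact Or.inl ⟨by simpa [J, hs] using h2, h2⟩

lemma atl_cover : ∀ x ∈ P.M, ∃ i, x ∈ (P.atl i).O := by
  intro x hx
  rcases P.inf_cover hx with h | h | h
  · rcases P.Sig_cover (P.M_fin hx h).1 with h1 | h1 | h1
    · exact ⟨0, h, h1⟩
    · exact ⟨1, h, h1⟩
    · exact ⟨2, h, h1⟩
  · exact ⟨3, h⟩
  · exact ⟨4, h⟩

lemma small_UV {p : R3} (hp : p ∈ P.Sig) (h : p.1 ^ 2 + p.2.1 ^ 2 ≤ P.a) :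
    (P.lift p).1.2.2.1 ^ 2 + (P.lift p).1.2.2.2 ^ 2 < (P.b / P.B) ^ 2 := by
  have hB := P.B_pos
  simp only [lift, P.q_in (h.trans P.hb.le), div_pow, ← add_div]
  exact div_lt_div_of_pos_right (P.hK p hp h) (by positivity)

lemma far_UV {p : R3} (hp : p ∈ P.Sig) (h : P.a ≤ p.1 ^ 2 + p.2.1 ^ 2) :
    (P.lift p).1.2.2.1 ^ 2 + (P.lift p).1.2.2.2 ^ 2 =
      ((p.1 ^ 2 + p.2.1 ^ 2) / P.q (p.1 ^ 2 + p.2.1 ^ 2)) ^ 2 ∧ p.2.2 = p.1 ^ 2 - p.2.1 ^ 2 := by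
  have h1 : p.2.2 = p.1 ^ 2 - p.2.1 ^ 2 := by
    have := congrArg (fun p : R3 => p.2.2) (P.Sig_far hp (by linarith [P.a_ge]))
    simp only [Inner.gr] at this
    rw [← this, P.u_far h]
  refine ⟨?_, h1⟩
  simp only [lift, P.v_far (w := (p.1, p.2.1)) h, h1]
  ring

lemma mixed_ne {p p' : R3} (hp : p ∈ P.Sig) (hp' : p' ∈ P.Sig) (h : p.1 ^ 2 + p.2.1 ^ 2 ≤ P.a)
    (h' : P.b ≤ p'.1 ^ 2 + p'.2.1 ^ 2) : (P.lift p).1 ≠ (P.lift p').1 := by
  intro e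
  have h1 := P.small_UV hp h
  rw [e, (P.far_UV hp' (by linarith [P.hb])).1] at h1
  have hB := P.B_pos
  have hb := P.b_ge
  have h2 : P.b / P.B ≤ (p'.1 ^ 2 + p'.2.1 ^ 2) / P.q (p'.1 ^ 2 + p'.2.1 ^ 2) := by
    rw [div_le_div_iff₀ hB (P.q_pos _)]
    have := P.q_lip h'
    rw [P.q_in le_rfl] at this
    nlinarith [P.b_lt_B]
  have h3 : 0 ≤ P.b / P.B := by positivity
  nlinarith

lemma fin_inf_ne {p s : R3} (hp : p ∈ P.Sig) (hs : s.2.2 = 0) (h0 : 0 < s.1 ^ 2 + s.2.1 ^ 2) :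
    (P.lift p).1 ≠ (P.J s).1 := by
  intro e
  have hq := P.q_ne (p.1 ^ 2 + p.2.1 ^ 2)
  have e1 := congrArg (fun y : R4 => y.1) e
  have e2 := congrArg (fun y : R4 => y.2.1) e
  simp only [lift, J, hs, mul_zero, zero_div, div_eq_zero_iff, hq, or_false] at e1 e2
  have h1 := P.small_UV hp (by rw [e1, e2]; linarith [P.a_ge])
  rw [e] at h1
  have h2 : (P.J s).1.2.2.1 ^ 2 + (P.J s).1.2.2.2 ^ 2 = 1 := by
    have hD : P.D s = s.1 ^ 2 + s.2.1 ^ 2 := by simp [D, hs]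
    simp only [J, hD]; field_simp; ring
  have hB := P.B_pos
  have h3 : P.b / P.B < 1 := (div_lt_one hB).2 P.b_lt_B
  have h4 : 0 ≤ P.b / P.B := by have := P.b_ge; positivity
  nlinarith

lemma injOn_fst : InjOn (ContinuousLinearMap.fst ℝ R4 R3) P.M := by
  have fin : ∀ p ∈ P.Sig, ∀ p' ∈ P.Sig, P.q (p.1 ^ 2 + p.2.1 ^ 2) = P.q (p'.1 ^ 2 + p'.2.1 ^ 2) →
      (P.lift p).1 = (P.lift p').1 → p = p' := by
    intro p _ p' _ hq e
    have h0 := P.q_ne (p'.1 ^ 2 + p'.2.1 ^ 2)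
    simp only [lift, hq, Prod.mk.injEq, div_left_inj' h0] at e
    exact Prod.ext e.1 (Prod.ext e.2.1 e.2.2.1)
  rintro x (⟨p, hp, rfl⟩ | ⟨s, ⟨hs, h0⟩, rfl⟩) x' (⟨p', hp', rfl⟩ | ⟨s', ⟨hs', h0'⟩, rfl⟩) e <;>
    simp only [ContinuousLinearMap.coe_fst'] at e
  · congr 1
    refine fin p hp p' hp' ?_ e
    have hab := P.hb
    by_cases h1 : p.1 ^ 2 + p.2.1 ^ 2 ≤ P.b ∧ p'.1 ^ 2 + p'.2.1 ^ 2 ≤ P.b
    · rw [P.q_in h1.1, P.q_in h1.2]
    by_cases h2 : P.a ≤ p.1 ^ 2 + p.2.1 ^ 2 ∧ P.a ≤ p'.1 ^ 2 + p'.2.1 ^ 2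
    · have f1 := (P.far_UV hp h2.1).1
      have f2 := (P.far_UV hp' h2.2).1
      rw [e, f2] at f1
      have e1 := congrArg (fun y : R4 => y.1 ^ 2 + y.2.1 ^ 2) e
      simp only [lift, div_pow, ← add_div] at e1
      have ha := P.a_ge
      have q1 := P.q_pos (p.1 ^ 2 + p.2.1 ^ 2)
      have q2 := P.q_pos (p'.1 ^ 2 + p'.2.1 ^ 2)
      generalize p.1 ^ 2 + p.2.1 ^ 2 = s at *
      generalize p'.1 ^ 2 + p'.2.1 ^ 2 = t at *
      have hs : 0 < s := by linarith [h2.1]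
      have ht : 0 < t := by linarith [h2.2]
      have : s = t := by
        rw [div_pow, div_pow, sq t, sq s, mul_div_assoc, mul_div_assoc, e1] at f1
        exact (mul_right_cancel₀ (by positivity) f1).symm
      rw [this]
    exfalso
    rw [not_and_or, not_le, not_le] at h1 h2
    rcases h1 with h1 | h1 <;> rcases h2 with h2 | h2
    · linarith
    · exact P.mixed_ne hp' hp h2.le h1.le e.symm
    · exact P.mixed_ne hp hp' h2.le h1.le e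
    · linarith
  · exact (P.fin_inf_ne hp hs' h0' e).elim
  · exact (P.fin_inf_ne hp' hs h0 e.symm).elim
  · have key : ∀ s : R3, s.2.2 = 0 → 0 < s.1 ^ 2 + s.2.1 ^ 2 →
        (P.J s).2 = (0, (1 + (P.J s).1.2.2.1) / 2, (1 - (P.J s).1.2.2.1) / 2) := by
      intro s hs h0
      have hD : P.D s = s.1 ^ 2 + s.2.1 ^ 2 := by simp [D, hs]
      simp only [J, hD, hs, Prod.mk.injEq]
      refine ⟨by simp, ?_, ?_⟩ <;> field_simp <;> ring
    exact Prod.ext e (by rw [key s hs h0, key s' hs' h0', e])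

lemma imm_in (C : Chart P.Sig) {w : R2} (hw : w ∈ C.W)
    (h : (C.ψ w).1 ^ 2 + (C.ψ w).2.1 ^ 2 < P.b) :
    ∃ r : R4 → R2, DifferentiableAt ℝ r (P.lift (C.ψ w)).1 ∧
      ∀ᶠ w' in 𝓝 w, r (P.lift (C.ψ w')).1 = w' := by
  have hB := P.B_pos
  have key : ∀ p : R3, p.1 ^ 2 + p.2.1 ^ 2 < P.b →
      (P.B * (P.lift p).1.1, P.B * (P.lift p).1.2.1, P.B * (P.lift p).1.2.2.1) = p := by
    intro p hp
    simp only [lift, P.q_in hp.le]
    refine Prod.ext ?_ (Prod.ext ?_ ?_) <;> simp only <;> field_simp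
  refine ⟨fun y => C.ρ (P.B * y.1, P.B * y.2.1, P.B * y.2.2.1), ?_, ?_⟩
  · refine DifferentiableAt.comp (g := C.ρ) _ ?_ (by fun_prop)
    rw [key _ h]
    exact (C.sρ.contDiffAt (C.oO.mem_nhds (C.mem w hw).2.1)).differentiableAt (by simp)
  · have hc : ContinuousAt C.ψ w := C.sψ.continuousOn.continuousAt (C.oW.mem_nhds hw)
    have hc' : ContinuousAt (fun w => (C.ψ w).1 ^ 2 + (C.ψ w).2.1 ^ 2) w := by fun_prop
    filter_upwards [C.oW.mem_nhds hw, hc'.eventually (gt_mem_nhds h)] with w' h1 h2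
    rw [key _ h2, (C.mem w' h1).2.2]

lemma imm : ∀ i, ∀ w ∈ (P.atl i).W, ∃ r : R4 → R2,
    DifferentiableAt ℝ r (ContinuousLinearMap.fst ℝ R4 R3 ((P.atl i).ψ w)) ∧
      ∀ᶠ w' in 𝓝 w, r (ContinuousLinearMap.fst ℝ R4 R3 ((P.atl i).ψ w')) = w' := by
  have tube : ∀ ε hε, ∀ w ∈ (P.cT ε hε).W, ∃ r : R4 → R2,
      DifferentiableAt ℝ r (P.lift ((P.cT ε hε).ψ w)).1 ∧
      ∀ᶠ w' in 𝓝 w, r (P.lift ((P.cT ε hε).ψ w')).1 = w' := fun ε hε w hw =>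
    P.imm_in _ hw (by
      have := Inner.tube_small (tb_facts w.1 (Inner.circ w.2 ε hε)).2.2.2.2
      exact this.trans (by linarith [P.b_ge]))
  intro i w hw
  fin_cases i
  · by_cases h : w.1 ^ 2 + w.2 ^ 2 < P.b
    · exact P.imm_in P.cG hw h
    have h1 : P.a < w.1 ^ 2 + w.2 ^ 2 := by linarith [P.hb]
    have ha := P.a_ge
    refine ⟨fun y => ((y.2.2.1 * y.1 + y.2.2.2 * y.2.1) / (y.1 ^ 2 + y.2.1 ^ 2),
      (y.2.2.2 * y.1 - y.2.2.1 * y.2.1) / (y.1 ^ 2 + y.2.1 ^ 2)), ?_, ?_⟩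
    · have : (P.lift (P.gr w)).1.1 ^ 2 + (P.lift (P.gr w)).1.2.1 ^ 2 ≠ 0 := by
        have := P.q_pos (w.1 ^ 2 + w.2 ^ 2)
        simp only [lift, Inner.gr, div_pow, ← add_div]
        exact (div_pos (by linarith) (by positivity)).ne'
      show DifferentiableAt ℝ _ (P.lift (P.gr w)).1
      fun_prop (disch := assumption)
    · have hc' : ContinuousAt (fun w : R2 => w.1 ^ 2 + w.2 ^ 2) w := by fun_prop
      filter_upwards [hc'.eventually (lt_mem_nhds h1)] with w' h2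
      have hq := P.q_ne (w'.1 ^ 2 + w'.2 ^ 2)
      have h3 : w'.1 ^ 2 + w'.2 ^ 2 ≠ 0 := by linarith
      show (fun y : R4 => ((y.2.2.1 * y.1 + y.2.2.2 * y.2.1) / (y.1 ^ 2 + y.2.1 ^ 2),
        (y.2.2.2 * y.1 - y.2.2.1 * y.2.1) / (y.1 ^ 2 + y.2.1 ^ 2))) (P.lift (P.gr w')).1 = w'
      simp only [lift, Inner.gr, Prod.mk.eta, P.u_far h2.le, P.v_far h2.le]
      refine Prod.ext ?_ ?_ <;> simp only <;> field_simp <;> ring
  · exact tube _ _ w hw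
  · exact tube _ _ w hw
  · have key : ∀ w : R2, √((P.J (1, w.1, w.2)).1.2.2.1 ^ 2 + (P.J (1, w.1, w.2)).1.2.2.2 ^ 2) =
        (1 + w.1 ^ 2) / P.D (1, w.1, w.2) := by
      intro w
      have hD := P.D_pos (s := (1, w.1, w.2)) (by positivity)
      rw [Real.sqrt_eq_iff_mul_self_eq (by positivity) (by positivity)]
      simp only [J]; field_simp; ring
    refine ⟨fun y => (y.2.2.2 / (√(y.2.2.1 ^ 2 + y.2.2.2 ^ 2) + y.2.2.1),
      2 * y.1 / (√(y.2.2.1 ^ 2 + y.2.2.2 ^ 2) + y.2.2.1)), ?_, Eventually.of_forall fun w' => ?_⟩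
    · have hD := P.D_pos (s := (1, w.1, w.2)) (by positivity)
      have h1 : (P.J (1, w.1, w.2)).1.2.2.1 ^ 2 + (P.J (1, w.1, w.2)).1.2.2.2 ^ 2 ≠ 0 := by
        intro h; have := key w; rw [h, Real.sqrt_zero] at this
        exact absurd this (by positivity : 0 < (1 + w.1 ^ 2) / P.D (1, w.1, w.2)).ne
      have h2 : √((P.J (1, w.1, w.2)).1.2.2.1 ^ 2 + (P.J (1, w.1, w.2)).1.2.2.2 ^ 2) +
          (P.J (1, w.1, w.2)).1.2.2.1 ≠ 0 := by
        rw [key]; simp only [J, ← add_div]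
        exact (div_pos (by norm_num) hD).ne'
      show DifferentiableAt ℝ _ (P.J (1, w.1, w.2)).1
      fun_prop (disch := assumption)
    · have hD := P.D_pos (s := (1, w'.1, w'.2)) (by positivity)
      show (fun y : R4 => (y.2.2.2 / (√(y.2.2.1 ^ 2 + y.2.2.2 ^ 2) + y.2.2.1),
        2 * y.1 / (√(y.2.2.1 ^ 2 + y.2.2.2 ^ 2) + y.2.2.1))) (P.J (1, w'.1, w'.2)).1 = w'
      simp only [key]
      simp only [J, ← add_div]
      refine Prod.ext ?_ ?_ <;> simp only <;> field_simp <;> ring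
  · have key : ∀ w : R2, √((P.J (w.1, 1, w.2)).1.2.2.1 ^ 2 + (P.J (w.1, 1, w.2)).1.2.2.2 ^ 2) =
        (1 + w.1 ^ 2) / P.D (w.1, 1, w.2) := by
      intro w
      have hD := P.D_pos (s := (w.1, 1, w.2)) (by positivity)
      rw [Real.sqrt_eq_iff_mul_self_eq (by positivity) (by positivity)]
      simp only [J]; field_simp; ring
    refine ⟨fun y => (y.2.2.2 / (√(y.2.2.1 ^ 2 + y.2.2.2 ^ 2) - y.2.2.1),
      2 * y.2.1 / (√(y.2.2.1 ^ 2 + y.2.2.2 ^ 2) - y.2.2.1)), ?_, Eventually.of_forall fun w' => ?_⟩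
    · have hD := P.D_pos (s := (w.1, 1, w.2)) (by positivity)
      have h1 : (P.J (w.1, 1, w.2)).1.2.2.1 ^ 2 + (P.J (w.1, 1, w.2)).1.2.2.2 ^ 2 ≠ 0 := by
        intro h; have := key w; rw [h, Real.sqrt_zero] at this
        exact absurd this (by positivity : 0 < (1 + w.1 ^ 2) / P.D (w.1, 1, w.2)).ne
      have h2 : √((P.J (w.1, 1, w.2)).1.2.2.1 ^ 2 + (P.J (w.1, 1, w.2)).1.2.2.2 ^ 2) -
          (P.J (w.1, 1, w.2)).1.2.2.1 ≠ 0 := by
        rw [key]; simp only [J, ← sub_div]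
        exact (div_pos (by linarith) hD).ne'
      show DifferentiableAt ℝ _ (P.J (w.1, 1, w.2)).1
      fun_prop (disch := assumption)
    · have hD := P.D_pos (s := (w'.1, 1, w'.2)) (by positivity)
      show (fun y : R4 => (y.2.2.2 / (√(y.2.2.1 ^ 2 + y.2.2.2 ^ 2) - y.2.2.1),
        2 * y.2.1 / (√(y.2.2.1 ^ 2 + y.2.2.2 ^ 2) - y.2.2.1))) (P.J (w'.1, 1, w'.2)).1 = w'
      simp only [key]
      simp only [J, ← sub_div]
      refine Prod.ext ?_ ?_ <;> simp only <;> field_simp <;> ring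

end Par

end Pool.Agent.P.MP_06bfdf_gt
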