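import Pool.Agent.P.MP_06bfdf_gt.Saddle

/-! The two-piece property. -/

open Set Topology Filter
open scoped ContDiff

namespace Pool.Agent.P.MP_06bfdf_gt

@[fun_prop] lemma ht_cont {X : Type*} [TopologicalSpace X] {f g : X → R4} (hf : Continuous f)
    (hg : Continuous g) : Continuous fun x => ht (f x) (g x) := by
  unfold ht; fun_prop

lemma exists_gap {X : Type*} [TopologicalSpace X] {F : Set X} (hF : IsCompact F) {h : X → ℝ}
    (hh : Continuous h) {c : ℝ} (hc : ∀ x ∈ F, c < h x) : ∃ γ > 0, ∀ x ∈ F, c + γ ≤ h x := by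
  rcases F.eq_empty_or_nonempty with rfl | hne
  · exact ⟨1, one_pos, fun x hx => hx.elim⟩
  obtain ⟨x, hx, hmin⟩ := hF.exists_isMinOn hne hh.continuousOn
  exact ⟨h x - c, sub_pos.2 (hc x hx), fun y hy => by linarith [isMinOn_iff.1 hmin y hy]⟩

namespace Par

variable (P : Par)

/-- The quadratic form attached to a height function and a level. -/
def Qf (a : R4) (m : ℝ) (s : R3) : ℝ :=
  a.1 * (s.1 * s.2.2) + a.2.1 * (s.2.1 * s.2.2) + a.2.2.1 * (s.1 ^ 2 - s.2.1 ^ 2) +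
    a.2.2.2 * (2 * s.1 * s.2.1) - m * (P.A * s.2.2 ^ 2 + s.1 ^ 2 + s.2.1 ^ 2)

lemma ht_J (a : R4) (m : ℝ) {s : R3} (hs : s ≠ 0) : ht a (P.J s).1 - m = P.Qf a m s / P.D s := by
  have := (P.D_pos' hs).ne'
  have e : P.A * s.2.2 ^ 2 + s.1 ^ 2 + s.2.1 ^ 2 = P.D s := rfl
  simp only [ht, J, Qf, e]; field_simp

lemma le_ht_J_iff (a : R4) (m : ℝ) {s : R3} (hs : s ≠ 0) : m ≤ ht a (P.J s).1 ↔ 0 ≤ P.Qf a m s := by
  rw [← sub_nonneg, P.ht_J a m hs, le_div_iff₀ (P.D_pos' hs), zero_mul]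

lemma ht_J_eq_iff (a : R4) (m : ℝ) {s : R3} (hs : s ≠ 0) : ht a (P.J s).1 = m ↔ P.Qf a m s = 0 := by
  rw [← sub_eq_zero, P.ht_J a m hs, div_eq_zero_iff, or_iff_left (P.D_pos' hs).ne']

lemma global_of_local (a : R4) {s₀ : R3} (h₀ : (P.b + 2) * s₀.2.2 ^ 2 < s₀.1 ^ 2 + s₀.2.1 ^ 2)
    (h : P.SLM a (P.J s₀)) {s : R3} (hs : s ≠ 0) : ht a (P.J s₀).1 ≤ ht a (P.J s).1 := by
  have hb := P.b_ge
  have h1 : 0 < s₀.1 ^ 2 + s₀.2.1 ^ 2 := lt_of_le_of_lt (by positivity) h₀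
  have h2 := ne_zero_of_pos h1
  have hJ : ContinuousAt P.J s₀ :=
    P.J_smooth.continuousOn.continuousAt (isOpen_ne.mem_nhds h2)
  have hop : IsOpen {s : R3 | (P.b + 2) * s.2.2 ^ 2 < s.1 ^ 2 + s.2.1 ^ 2} :=
    isOpen_lt (by fun_prop) (by fun_prop)
  have hev : ∀ᶠ s' in 𝓝 s₀, 0 ≤ P.Qf a (ht a (P.J s₀).1) s' := by
    filter_upwards [hJ.tendsto.eventually h, hop.mem_nhds h₀] with s' h3 h4
    have h5 : 0 < s'.1 ^ 2 + s'.2.1 ^ 2 := lt_of_le_of_lt (by positivity) h4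
    rw [← P.le_ht_J_iff a _ (ne_zero_of_pos h5)]
    by_cases e : P.J s' = P.J s₀
    · rw [e]
    · exact (h3 (P.J_mem h5 (le_of_lt h4)) e).le
  have h3 := (P.ht_J_eq_iff a _ h2).1 rfl
  obtain ⟨μ, hμ, h4, h5⟩ := exists_pm (along hev
    (fun μ => (s₀.1 + μ * s.1, s₀.2.1 + μ * s.2.1, s₀.2.2 + μ * s.2.2)) (by fun_prop) (by simp))
  rw [P.le_ht_J_iff a _ hs]
  generalize ht a (P.J s₀).1 = m at *
  have : 0 ≤ μ ^ 2 * P.Qf a m s := by
    simp only [Qf] at h3 h4 h5 ⊢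
    linarith
  exact nonneg_of_mul_nonneg_right this (by positivity)

lemma J_normalize {s : R3} (hs : s ≠ 0) : ∃ s' ∈ Metric.sphere (0 : R3) 1, P.J s' = P.J s := by
  have h := norm_ne_zero_iff.2 hs
  refine ⟨‖s‖⁻¹ • s, by simp [norm_smul, h], P.J_smul hs (inv_ne_zero h)⟩

lemma sphere_ne {s : R3} (hs : s ∈ Metric.sphere (0 : R3) 1) : s ≠ 0 := by
  rintro rfl; simp at hs

lemma isCompact_Ver : IsCompact (P.J '' Metric.sphere (0 : R3) 1) :=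
  (isCompact_sphere _ _).image_of_continuousOn
    (P.J_smooth.continuousOn.mono fun _ hs => sphere_ne hs)

lemma exists_min (a : R4) : ∃ m, (∃ s ≠ 0, P.Qf a m s = 0) ∧ ∀ s, 0 ≤ P.Qf a m s := by
  obtain ⟨_, ⟨s, hs, rfl⟩, hmin⟩ := P.isCompact_Ver.exists_isMinOn
    ((NormedSpace.sphere_nonempty.2 zero_le_one).image _)
    (f := fun x : E7 => ht a x.1) (by fun_prop)
  refine ⟨ht a (P.J s).1, ⟨s, sphere_ne hs, (P.ht_J_eq_iff a _ (sphere_ne hs)).1 rfl⟩, fun s' => ?_⟩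
  by_cases h : s' = 0
  · simp [h, Qf]
  · rw [← P.le_ht_J_iff a _ h]
    obtain ⟨s'', h1, h2⟩ := P.J_normalize h
    rw [← h2]
    exact isMinOn_iff.1 hmin _ (mem_image_of_mem _ h1)

lemma null_add {a : R4} {m : ℝ} (hQ : ∀ s, 0 ≤ P.Qf a m s) {s₀ : R3} (h₀ : P.Qf a m s₀ = 0)
    (s : R3) (c : ℝ) :
    P.Qf a m (s.1 + c * s₀.1, s.2.1 + c * s₀.2.1, s.2.2 + c * s₀.2.2) = P.Qf a m s := by
  obtain ⟨β, hβ⟩ : ∃ β, ∀ c : ℝ, P.Qf a m (s.1 + c * s₀.1, s.2.1 + c * s₀.2.1, s.2.2 + c * s₀.2.2) =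
      P.Qf a m s + c * β := by
    refine ⟨P.Qf a m (s.1 + s₀.1, s.2.1 + s₀.2.1, s.2.2 + s₀.2.2) - P.Qf a m s, fun c => ?_⟩
    simp only [Qf] at h₀ ⊢
    linear_combination (c ^ 2 - c) * h₀
  have : β = 0 := by
    by_contra hne
    have := hQ (s.1 + (-(P.Qf a m s + 1) / β) * s₀.1, s.2.1 + (-(P.Qf a m s + 1) / β) * s₀.2.1,
      s.2.2 + (-(P.Qf a m s + 1) / β) * s₀.2.2)
    rw [hβ, div_mul_cancel₀ _ hne] at this
    linarith
  rw [hβ, this, mul_zero, add_zero]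

lemma null_far {a : R4} (ha : a ≠ 0) {m : ℝ} (hQ : ∀ s, 0 ≤ P.Qf a m s) {s : R3} (hs : s ≠ 0)
    (h₀ : P.Qf a m s = 0) : (P.b + 2) * s.2.2 ^ 2 < s.1 ^ 2 + s.2.1 ^ 2 := by
  by_contra hc
  rw [not_lt] at hc
  have hb := P.b_ge
  have hz : 0 < s.2.2 ^ 2 := by
    have := P.D_pos' hs
    have hA : P.A = 4 * (P.b + 2) := rfl
    by_contra h
    have h1 : s.2.2 ^ 2 = 0 := le_antisymm (not_lt.1 h) (sq_nonneg _)
    unfold D at this
    rw [h1] at this hc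
    linarith
  have hA : P.A = 4 * (P.b + 2) := rfl
  have e1 := P.null_add hQ h₀ (0, 0, s.2.2) (-1)
  have e2 := hQ (-s.2.1, s.1, 0)
  have e3 := hQ (0, 0, 1)
  simp only [Qf, hA] at e1 e2 e3
  have hm : m = 0 := by
    have h1 : m ≤ 0 := by nlinarith
    have h2 : -m * (4 * (P.b + 2) * s.2.2 ^ 2) ≤ -2 * m * (s.1 ^ 2 + s.2.1 ^ 2) := by nlinarith
    have h3 : -m * ((P.b + 2) * s.2.2 ^ 2) ≤ 0 := by nlinarith
    have h4 : 0 < (P.b + 2) * s.2.2 ^ 2 := by positivity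
    nlinarith
  have f1 := hQ (1, 0, 0)
  have f2 := hQ (0, 1, 0)
  have f3 := hQ (1, 0, 1)
  have f4 := hQ (1, 0, -1)
  have f5 := hQ (0, 1, 1)
  have f6 := hQ (0, 1, -1)
  have f7 := hQ (1, 1, 0)
  have f8 := hQ (1, -1, 0)
  simp only [Qf, hm] at f1 f2 f3 f4 f5 f6 f7 f8
  exact ha (Prod.ext (by simp only [Prod.fst_zero]; linarith) (Prod.ext
    (by simp only [Prod.snd_zero, Prod.fst_zero]; linarith) (Prod.ext
    (by simp only [Prod.snd_zero, Prod.fst_zero]; linarith)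
    (by simp only [Prod.snd_zero]; linarith))))

lemma isPreconnected_null {a : R4} {m : ℝ} (hQ : ∀ s, 0 ≤ P.Qf a m s) :
    IsPreconnected (P.J '' {s | s ≠ 0 ∧ P.Qf a m s = 0}) := by
  have key : ∀ s₁ s₂ : R3, s₁ ≠ 0 → P.Qf a m s₁ = 0 → s₂ ≠ 0 → P.Qf a m s₂ = 0 →
      0 ≤ s₁.1 * s₂.1 + s₁.2.1 * s₂.2.1 + s₁.2.2 * s₂.2.2 →
      ∃ t ⊆ P.J '' {s | s ≠ 0 ∧ P.Qf a m s = 0}, P.J s₁ ∈ t ∧ P.J s₂ ∈ t ∧ IsPreconnected t := by
    intro s₁ s₂ n₁ z₁ n₂ z₂ hd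
    let g : ℝ → R3 := fun t => ((1 - t) * s₁.1 + t * s₂.1, (1 - t) * s₁.2.1 + t * s₂.2.1,
      (1 - t) * s₁.2.2 + t * s₂.2.2)
    have sq_pos : ∀ s : R3, s ≠ 0 → 0 < s.1 ^ 2 + s.2.1 ^ 2 + s.2.2 ^ 2 := by
      intro s hs
      by_contra h
      exact hs (Prod.ext (by simp only [Prod.fst_zero]; nlinarith [sq_nonneg s.2.1, sq_nonneg s.2.2])
        (Prod.ext (by simp only [Prod.snd_zero, Prod.fst_zero]; nlinarith [sq_nonneg s.1, sq_nonneg s.2.2])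
        (by simp only [Prod.snd_zero]; nlinarith [sq_nonneg s.1, sq_nonneg s.2.1])))
    have gne : ∀ t ∈ Icc (0 : ℝ) 1, g t ≠ 0 := by
      intro t ht e
      simp only [g, Prod.mk_eq_zero] at e
      obtain ⟨e1, e2, e3⟩ := e
      have h1 := sq_pos _ n₁
      have h2 := sq_pos _ n₂
      have h3 : (1 - t) * (s₁.1 ^ 2 + s₁.2.1 ^ 2 + s₁.2.2 ^ 2) + t * (s₂.1 ^ 2 + s₂.2.1 ^ 2 + s₂.2.2 ^ 2) +
          (s₁.1 * s₂.1 + s₁.2.1 * s₂.2.1 + s₁.2.2 * s₂.2.2) = 0 := by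
        linear_combination (s₁.1 + s₂.1) * e1 + (s₁.2.1 + s₂.2.1) * e2 + (s₁.2.2 + s₂.2.2) * e3
      rcases le_total t (1 / 2) with h | h <;> nlinarith [ht.1, ht.2]
    refine ⟨P.J '' (g '' Icc 0 1), image_mono ?_, ⟨s₁, ⟨0, by simp, by simp [g]⟩, rfl⟩,
      ⟨s₂, ⟨1, by simp, by simp [g]⟩, rfl⟩, ?_⟩
    · rintro _ ⟨t, ht, rfl⟩
      refine ⟨gne t ht, ?_⟩
      have := P.null_add hQ z₂ ((1 - t) * s₁.1, (1 - t) * s₁.2.1, (1 - t) * s₁.2.2) t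
      simp only [g]
      rw [this]
      simp only [Qf] at z₁ ⊢
      linear_combination (1 - t) ^ 2 * z₁
    · refine (isPreconnected_Icc.image g (by fun_prop)).image _
        (P.J_smooth.continuousOn.mono ?_)
      rintro _ ⟨t, ht, rfl⟩
      exact gne t ht
  refine isPreconnected_of_forall_pair ?_
  rintro _ ⟨s₁, ⟨n₁, z₁⟩, rfl⟩ _ ⟨s₂, ⟨n₂, z₂⟩, rfl⟩
  rcases le_total 0 (s₁.1 * s₂.1 + s₁.2.1 * s₂.2.1 + s₁.2.2 * s₂.2.2) with h | h
  · exact key s₁ s₂ n₁ z₁ n₂ z₂ h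
  · rw [← P.J_smul n₂ (c := -1) (by norm_num)]
    refine key s₁ _ n₁ z₁ ?_ ?_ ?_
    · intro e
      simp only [Prod.mk_eq_zero, neg_mul, one_mul, neg_eq_zero] at e
      exact n₂ (Prod.ext e.1 (Prod.ext e.2.1 e.2.2))
    · simp only [Qf] at z₂ ⊢; linear_combination z₂
    · simp only; linarith

lemma core_min (a : R4) {δ : ℝ} (hδ : 0 < δ) {C : Set E7} (hC : IsCompact C) (hCM : C ⊆ P.M)
    {b : E7} (hb : b ∈ C) : ∃ p ∈ C, ht a p.1 - δ * ht p.1 p.1 ≤ ht a b.1 ∧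
      ((∀ᶠ y in 𝓝 p, y ∈ P.M → y ∈ C) → ∃ s₀ ≠ 0, p = P.J s₀ ∧
        ∀ s ≠ 0, ht a p.1 - 2 * δ * ht p.1 p.1 ≤ ht a (P.J s).1 - 2 * δ * ht p.1 (P.J s).1) := by
  obtain ⟨p, hp, hmin⟩ := hC.exists_isMinOn ⟨b, hb⟩
    (f := fun y : E7 => ht a y.1 - δ * ht y.1 y.1) (by fun_prop)
  have hmin := isMinOn_iff.1 hmin
  have nonneg : ∀ y : R4, 0 ≤ ht y y := fun y => by
    unfold ht; nlinarith [mul_self_nonneg y.1, mul_self_nonneg y.2.1, mul_self_nonneg y.2.2.1,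
      mul_self_nonneg y.2.2.2]
  refine ⟨p, hp, by nlinarith [hmin b hb, nonneg b.1], fun hev => ?_⟩
  have lin : ∀ y : R4, ht (a - (2 * δ) • p.1) y = ht a y - 2 * δ * ht p.1 y := fun y => by
    simp [ht]; ring
  have slm : P.SLM (a - (2 * δ) • p.1) p := by
    filter_upwards [hev] with y h1 h2 h3
    have h4 := hmin y (h1 h2)
    have h5 : y.1 ≠ p.1 := fun e => h3 (P.injOn_fst h2 (hCM hp) e)
    have h6 : 0 < ht (y.1 - p.1) (y.1 - p.1) := by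
      refine lt_of_le_of_ne (nonneg _) fun e => h5 ?_
      simp only [ht, Prod.fst_sub, Prod.snd_sub] at e
      refine Prod.ext ?_ (Prod.ext ?_ (Prod.ext ?_ ?_)) <;>
        nlinarith [mul_self_nonneg (y.1.1 - p.1.1), mul_self_nonneg (y.1.2.1 - p.1.2.1),
          mul_self_nonneg (y.1.2.2.1 - p.1.2.2.1), mul_self_nonneg (y.1.2.2.2 - p.1.2.2.2)]
    have h7 : ht (y.1 - p.1) (y.1 - p.1) = ht y.1 y.1 - 2 * ht p.1 y.1 + ht p.1 p.1 := by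
      simp [ht]; ring
    rw [lin, lin]
    nlinarith
  rcases P.M_cases (hCM hp) with ⟨p', hp', h1, rfl⟩ | ⟨s₀, hs₀, rfl⟩
  · exact (P.saddle _ hp' h1 slm).elim
  · refine ⟨s₀, ne_zero_of_pos (lt_of_le_of_lt (by have := P.b_ge; positivity) hs₀), rfl,
      fun s hs => ?_⟩
    rw [← lin, ← lin]
    exact P.global_of_local _ hs₀ slm hs

theorem tpp_ne {a : R4} (ha : a ≠ 0) (k : ℝ) : IsPreconnected (P.M ∩ {x | ht a x.1 ≤ k}) := by
  obtain ⟨m, ⟨z, hz0, hz⟩, hQ⟩ := P.exists_min a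
  obtain ⟨R₀, hR₀⟩ := P.isCompact_M.bddAbove_image (f := fun y : E7 => ht y.1 y.1) (by fun_prop)
  obtain ⟨R, hR0, hR⟩ : ∃ R > 0, ∀ y ∈ P.M, ht y.1 y.1 ≤ R :=
    ⟨|R₀| + 1, by positivity, fun y hy => by
      linarith [hR₀ (mem_image_of_mem _ hy), le_abs_self R₀]⟩
  have ZM : ∀ s ≠ 0, P.Qf a m s = 0 → P.J s ∈ P.M := fun s hs h0 =>
    have := P.null_far ha hQ hs h0
    P.J_mem (lt_of_le_of_lt (by have := P.b_ge; positivity) this) this.le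
  have star : ∀ x ∈ P.M, m ≤ ht a x.1 := by
    intro x hx
    by_contra hlt
    rw [not_le] at hlt
    obtain ⟨p, hp, h1, h2⟩ := P.core_min a (δ := (m - ht a x.1) / (2 * R))
      (div_pos (by linarith) (by linarith)) P.isCompact_M Subset.rfl hx
    obtain ⟨s₀, hs₀, rfl, -⟩ := h2 (Eventually.of_forall fun _ h => h)
    have h3 := (P.le_ht_J_iff a m hs₀).2 (hQ s₀)
    have h4 : (m - ht a x.1) / (2 * R) * ht (P.J s₀).1 (P.J s₀).1 ≤ (m - ht a x.1) / (2 * R) * R :=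
      mul_le_mul_of_nonneg_left (hR _ hp) (div_pos (by linarith) (by linarith)).le
    have h5 : (m - ht a x.1) / (2 * R) * R = (m - ht a x.1) / 2 := by field_simp
    linarith
  have hKc : IsClosed (P.M ∩ {x | ht a x.1 ≤ k}) :=
    P.isCompact_M.isClosed.inter (isClosed_le (by fun_prop) (by fun_prop))
  have key : ∀ u v : Set E7, IsClosed u → IsClosed v → P.M ∩ {x | ht a x.1 ≤ k} ⊆ u ∪ v →
      P.M ∩ {x | ht a x.1 ≤ k} ∩ (u ∩ v) = ∅ → m ≤ k →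
      P.J '' {s | s ≠ 0 ∧ P.Qf a m s = 0} ⊆ u → P.M ∩ {x | ht a x.1 ≤ k} ⊆ u := by
    intro u v hu hv cov dis hmk hZ b hb
    by_contra hbu
    have hbv : b ∈ v := (cov hb).resolve_left hbu
    obtain ⟨N, hNo, hAN, hNB⟩ := normal_exists_closure_subset (hKc.inter hu)
      (hKc.inter hv).isOpen_compl (t := (P.M ∩ {x | ht a x.1 ≤ k} ∩ v)ᶜ)
      (fun x hx hx' => (eq_empty_iff_forall_notMem.1 dis x) ⟨hx.1, hx.2, hx'.2⟩)
    have hC : IsCompact (P.M \ N) := P.isCompact_M.diff hNo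
    obtain ⟨γ₁, hγ₁, g₁⟩ := exists_gap (hC.inter_right (isClosed_closure (s := N)))
      (h := fun y : E7 => ht a y.1) (by fun_prop) (c := k) (by
        intro x hx
        by_contra hle
        have hxK : x ∈ P.M ∩ {x | ht a x.1 ≤ k} := ⟨hx.1.1, not_lt.1 hle⟩
        rcases cov hxK with h | h
        · exact hx.1.2 (hAN ⟨hxK, h⟩)
        · exact hNB hx.2 ⟨hxK, h⟩)
    obtain ⟨γ₂, hγ₂, g₂⟩ := exists_gap (hC.inter_right P.isCompact_Ver.isClosed)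
      (h := fun y : E7 => ht a y.1) (by fun_prop) (c := m) (by
        rintro _ ⟨hx, s, hs, rfl⟩
        refine lt_of_le_of_ne (star _ hx.1) fun e => hx.2 (hAN ⟨⟨hx.1, ?_⟩, ?_⟩)
        · exact e.symm.le.trans hmk
        · exact hZ ⟨s, ⟨sphere_ne hs, (P.ht_J_eq_iff a m (sphere_ne hs)).1 e.symm⟩, rfl⟩)
    set δ := min γ₁ γ₂ / (8 * R) with hδ
    have hγ : 0 < min γ₁ γ₂ := lt_min hγ₁ hγ₂
    have hδ0 : 0 < δ := by positivity
    have hδR : δ * R = min γ₁ γ₂ / 8 := by rw [hδ]; field_simp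
    obtain ⟨p, hp, h1, h2⟩ := P.core_min a hδ0 hC sdiff_subset (b := b)
      ⟨hb.1, fun hN => hNB (subset_closure hN) ⟨hb, hbv⟩⟩
    have h3 : δ * ht p.1 p.1 ≤ δ * R := mul_le_mul_of_nonneg_left (hR _ hp.1) hδ0.le
    have hpN : p ∉ closure N := by
      intro h
      have := g₁ p ⟨hp, h⟩
      have := hb.2
      simp only [mem_ofPred_eq] at this
      linarith [min_le_left γ₁ γ₂]
    obtain ⟨s₀, hs₀, rfl, h4⟩ := h2 (by
      filter_upwards [isClosed_closure.isOpen_compl.mem_nhds hpN] with y hy hyM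
      exact ⟨hyM, fun h => hy (subset_closure h)⟩)
    have h5 := h4 z hz0
    rw [(P.ht_J_eq_iff a m hz0).2 hz] at h5
    obtain ⟨s', hs', e⟩ := P.J_normalize hs₀
    have h6 := g₂ _ ⟨hp, s', hs', e⟩
    have h7 : -R ≤ ht (P.J s₀).1 (P.J z).1 := by
      have r1 := hR _ hp.1
      have r2 := hR _ (ZM z hz0 hz)
      generalize (P.J s₀).1 = y at *
      generalize (P.J z).1 = y' at *
      unfold ht at r1 r2 ⊢
      nlinarith [sq_nonneg (y.1 + y'.1), sq_nonneg (y.2.1 + y'.2.1), sq_nonneg (y.2.2.1 + y'.2.2.1),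
        sq_nonneg (y.2.2.2 + y'.2.2.2)]
    have h8 : δ * -R ≤ δ * ht (P.J s₀).1 (P.J z).1 := mul_le_mul_of_nonneg_left h7 hδ0.le
    linarith [min_le_right γ₁ γ₂]
  rw [isPreconnected_iff_subset_of_disjoint_closed]
  intro u v hu hv cov dis
  rcases lt_or_ge k m with hmk | hmk
  · exact Or.inl fun x hx => absurd (star x hx.1) (not_le.2 (lt_of_le_of_lt hx.2 hmk))
  have ZK : P.J '' {s | s ≠ 0 ∧ P.Qf a m s = 0} ⊆ P.M ∩ {x | ht a x.1 ≤ k} := by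
    rintro _ ⟨s, hs, rfl⟩
    exact ⟨ZM s hs.1 hs.2, ((P.ht_J_eq_iff a m hs.1).2 hs.2).le.trans hmk⟩
  rcases isPreconnected_iff_subset_of_disjoint_closed.1 (P.isPreconnected_null hQ) u v hu hv
    (ZK.trans cov) (subset_eq_empty (inter_subset_inter_left _ ZK) dis) with h | h
  · exact Or.inl (key u v hu hv cov dis hmk h)
  · exact Or.inr (key v u hv hu (by rwa [union_comm]) (by rwa [inter_comm v u]) hmk h)

theorem isPreconnected_M : IsPreconnected P.M := by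
  obtain ⟨R, hR⟩ := P.isCompact_M.bddAbove_image (f := fun y : E7 => ht (1, 0, 0, 0) y.1)
    (by fun_prop)
  have := P.tpp_ne (a := (1, 0, 0, 0)) (by simp) R
  rwa [show P.M ∩ {x | ht (1, 0, 0, 0) x.1 ≤ R} = P.M from
    inter_eq_left.2 fun y hy => hR (mem_image_of_mem _ hy)] at this

theorem tpp (a : R4) (k : ℝ) :
    IsPreconnected {x : P.M | ht a (ContinuousLinearMap.fst ℝ R4 R3 x) ≤ k} := by
  rw [← Topology.IsInducing.subtypeVal.isPreconnected_image]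
  have : Subtype.val '' {x : P.M | ht a (ContinuousLinearMap.fst ℝ R4 R3 x) ≤ k} =
      P.M ∩ {x | ht a x.1 ≤ k} := by
    ext x; simp [and_comm]
  rw [this]
  by_cases ha : a = 0
  · subst ha
    rcases le_or_gt 0 k with hk | hk
    · rw [inter_eq_left.2 fun y _ => by simpa [ht] using hk]
      exact P.isPreconnected_M
    · rw [show P.M ∩ {x | ht 0 x.1 ≤ k} = ∅ from by ext x; simp [ht, hk]]
      exact isPreconnected_empty
  · exact P.tpp_ne ha k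

end Par

end Pool.Agent.P.MP_06bfdf_gt
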